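import Pool.Agent.Lib.MP_48dd78_an.Dyn

/-!
Analyticity of the period functions, and isolated zeros of their derivatives.
-/

set_option autoImplicit false

namespace Pool.Agent.MP48dd78

open Set Filter Topology MeasureTheory

/-- Holomorphy of parametric integrals. -/
theorem differentiableAt_integral_param (FC : ℂ → ℝ → ℂ) (z₀ : ℂ) (a b : ℝ) (W : Set (ℂ × ℝ))
    (hW : IsOpen W) (h0 : ∀ θ ∈ uIcc a b, (z₀, θ) ∈ W)
    (hcont : ContinuousOn (Function.uncurry FC) W)
    (hdiff : ∀ p ∈ W, DifferentiableAt ℂ (fun z => FC z p.2) p.1) :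
    AnalyticAt ℂ (fun z => ∫ θ in a..b, FC z θ) z₀ := by
  obtain ⟨u, v, hu, hv, hzu, habv, huv⟩ := generalized_tube_lemma
    (isCompact_singleton (x := z₀)) (isCompact_uIcc (a := a) (b := b)) hW (by
      rintro ⟨z, θ⟩ ⟨hz, hθ⟩
      have hz' : z = z₀ := hz
      subst hz'
      exact h0 θ hθ)
  have hz₀ : z₀ ∈ u := hzu rfl
  obtain ⟨ε, hε, hball⟩ := Metric.isOpen_iff.1 hu z₀ hz₀
  set ρ : ℝ := ε / 4 with hρ
  have hρ0 : 0 < ρ := by positivity
  have hsub : Metric.closedBall z₀ (2 * ρ) ⊆ u := by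
    refine (Metric.closedBall_subset_ball ?_).trans hball
    rw [hρ]
    linarith
  have hW' : Metric.closedBall z₀ (2 * ρ) ×ˢ uIcc a b ⊆ W :=
    (Set.prod_mono hsub habv).trans huv
  obtain ⟨C, hC⟩ := ((isCompact_closedBall z₀ (2 * ρ)).prod
    (isCompact_uIcc (a := a) (b := b))).exists_bound_of_continuousOn (hcont.mono hW')
  have hc : ∀ z ∈ Metric.closedBall z₀ (2 * ρ), ContinuousOn (FC z) (uIcc a b) := by
    intro z hz
    have h1 : ContinuousOn (fun θ : ℝ => ((z, θ) : ℂ × ℝ)) (uIcc a b) := by fun_prop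
    exact hcont.comp h1 fun θ hθ => hW' ⟨hz, hθ⟩
  have hmeas : ∀ z ∈ Metric.closedBall z₀ (2 * ρ),
      AEStronglyMeasurable (FC z) (volume.restrict (uIoc a b)) := by
    intro z hz
    exact ((hc z hz).aestronglyMeasurable measurableSet_uIcc).mono_measure
      (Measure.restrict_mono uIoc_subset_uIcc le_rfl)
  have hdO : DifferentiableOn ℂ (fun z => ∫ θ in a..b, FC z θ) (Metric.ball z₀ ρ) := by
    intro z₁ hz₁
    have hz₁' : dist z₁ z₀ < ρ := hz₁
    have hcb : ∀ x ∈ Metric.ball z₀ ρ, Metric.closedBall x ρ ⊆ Metric.closedBall z₀ (2 * ρ) := by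
      intro x hx w hw
      have h1 : dist x z₀ < ρ := hx
      have h2 : dist w x ≤ ρ := hw
      have h3 := dist_triangle w x z₀
      rw [Metric.mem_closedBall]
      linarith
    have hself : ∀ x ∈ Metric.ball z₀ ρ, x ∈ Metric.closedBall z₀ (2 * ρ) := fun x hx =>
      hcb x hx (Metric.mem_closedBall_self hρ0.le)
    have key := (intervalIntegral.hasDerivAt_integral_of_dominated_loc_of_deriv_le
      (F := FC) (F' := fun z θ => deriv (fun z => FC z θ) z) (x₀ := z₁) (a := a) (b := b)
      (μ := volume) (s := Metric.ball z₀ ρ) (bound := fun _ => C / ρ)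
      (Metric.isOpen_ball.mem_nhds hz₁) ?_ ?_ ?_ ?_ ?_ ?_).2
    · exact key.differentiableAt.differentiableWithinAt
    · filter_upwards [Metric.isOpen_ball.mem_nhds hz₁] with x hx
      exact hmeas x (hself x hx)
    · exact (hc z₁ (hself z₁ hz₁)).intervalIntegrable
    · have hn : ∀ n : ℕ, ‖((ρ / (n + 1) : ℝ) : ℂ)‖ ≤ ρ := by
        intro n
        rw [Complex.norm_real, Real.norm_of_nonneg (by positivity)]
        exact div_le_self hρ0.le (by linarith [n.cast_nonneg (α := ℝ)])
      have hne : ∀ n : ℕ, ((ρ / (n + 1) : ℝ) : ℂ) ≠ 0 := by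
        intro n
        have : (0 : ℝ) < ρ / (n + 1) := by positivity
        exact_mod_cast this.ne'
      refine aestronglyMeasurable_of_tendsto_ae atTop
        (f := fun (n : ℕ) θ => (((ρ / (n + 1) : ℝ) : ℂ))⁻¹ •
          (FC (z₁ + ((ρ / (n + 1) : ℝ) : ℂ)) θ - FC z₁ θ)) ?_ ?_
      · intro n
        have hz₂ : z₁ + ((ρ / (n + 1) : ℝ) : ℂ) ∈ Metric.closedBall z₀ (2 * ρ) := by
          apply hcb z₁ hz₁
          rw [Metric.mem_closedBall, dist_eq_norm, add_sub_cancel_left]
          exact hn n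
        have h1 : AEStronglyMeasurable
            (fun θ => FC (z₁ + ((ρ / (n + 1) : ℝ) : ℂ)) θ - FC z₁ θ)
            (volume.restrict (uIoc a b)) := (hmeas _ hz₂).sub (hmeas _ (hself z₁ hz₁))
        exact h1.const_smul (((ρ / (n + 1) : ℝ) : ℂ))⁻¹
      · refine (ae_restrict_iff' measurableSet_uIoc).2 (Eventually.of_forall fun θ hθ => ?_)
        have hd : HasDerivAt (fun z => FC z θ) (deriv (fun z => FC z θ) z₁) z₁ :=
          (hdiff (z₁, θ) (hW' ⟨hself z₁ hz₁, uIoc_subset_uIcc hθ⟩)).hasDerivAt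
        have h2 := hd.tendsto_slope_zero
        have h3 : Tendsto (fun n : ℕ => ((ρ / (n + 1) : ℝ) : ℂ)) atTop (𝓝[≠] 0) := by
          rw [tendsto_nhdsWithin_iff]
          refine ⟨?_, Eventually.of_forall fun n => hne n⟩
          have h4 : Tendsto (fun n : ℕ => ρ / ((n : ℝ) + 1)) atTop (𝓝 0) := by
            have h5 := tendsto_one_div_add_atTop_nhds_zero_nat (𝕜 := ℝ)
            have h6 := h5.const_mul ρ
            simpa [div_eq_mul_inv] using h6
          have h7 := (Complex.continuous_ofReal.tendsto 0).comp h4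
          rw [Complex.ofReal_zero] at h7
          exact h7
        exact h2.comp h3
    · refine Eventually.of_forall fun θ hθ x hx => ?_
      apply Complex.norm_deriv_le_of_forall_mem_sphere_norm_le hρ0
      · have hdO : DifferentiableOn ℂ (fun z => FC z θ) (Metric.closedBall x ρ) := by
          intro w hw
          exact (hdiff (w, θ) (hW' ⟨hcb x hx hw, uIoc_subset_uIcc hθ⟩)).differentiableWithinAt
        exact hdO.diffContOnCl_ball (subset_refl _)
      · intro w hw
        exact hC (w, θ) ⟨hcb x hx (Metric.sphere_subset_closedBall hw), uIoc_subset_uIcc hθ⟩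
    · exact intervalIntegrable_const
    · refine Eventually.of_forall fun θ hθ x hx => ?_
      exact (hdiff (x, θ) (hW' ⟨hself x hx, uIoc_subset_uIcc hθ⟩)).hasDerivAt
  exact hdO.analyticAt (Metric.ball_mem_nhds z₀ hρ0)

/-- A real function which is the restriction of a holomorphic function is analytic. -/
theorem analyticAt_of_complex (f : ℝ → ℝ) (g : ℂ → ℂ) (r₀ : ℝ) (hg : AnalyticAt ℂ g (r₀ : ℂ))
    (h : ∀ᶠ r : ℝ in 𝓝 r₀, g r = f r) : AnalyticAt ℝ f r₀ := by
  have h1 : AnalyticAt ℝ g ((Complex.ofRealCLM r₀ : ℂ)) := hg.restrictScalars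
  have h2 : AnalyticAt ℝ (fun r : ℝ => g (Complex.ofRealCLM r)) r₀ :=
    h1.fun_comp (Complex.ofRealCLM.analyticAt r₀)
  have h3 : AnalyticAt ℝ (fun r : ℝ => Complex.reCLM (g (Complex.ofRealCLM r))) r₀ :=
    (Complex.reCLM.analyticAt _).fun_comp h2
  refine h3.congr ?_
  filter_upwards [h] with r hr
  show (g (r : ℂ)).re = f r
  rw [hr, Complex.ofReal_re]

/-! ### Complexification of the explicit orbits -/

/-- complexification of `sg` -/
noncomputable def sgC (z : ℂ) (θ : ℝ) : ℂ := Complex.arctan (z * Real.cos θ)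

/-- complexification of `yy` -/
noncomputable def yyC (z : ℂ) (θ : ℝ) : ℂ := z * Real.sin θ * Complex.cos (sgC z θ)

/-- complexification of `ps` -/
noncomputable def psC (m i : ℕ) (z : ℂ) (θ : ℝ) : ℂ :=
  (dl m i : ℂ) + (-1) ^ (i + 1) * (sgC z θ / m)

theorem sgC_real (r θ : ℝ) : sgC r θ = sg r θ := by
  rw [sgC, sg, Complex.ofReal_arctan]
  push_cast
  rfl

theorem yyC_real (r θ : ℝ) : yyC r θ = yy r θ := by
  rw [yyC, yy, sgC_real]
  push_cast
  rfl

theorem psC_real (m i : ℕ) (r θ : ℝ) : psC m i r θ = ps m i r θ := by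
  rw [psC, ps, sgC_real]
  push_cast
  rfl

/-- the domain on which the complex arctangent is considered -/
def domA : Set ℂ := {w | 1 - w * Complex.I ≠ 0 ∧
  (1 + w * Complex.I) / (1 - w * Complex.I) ∈ Complex.slitPlane}

theorem isOpen_domA : IsOpen domA := by
  have h0 : IsOpen {w : ℂ | 1 - w * Complex.I ≠ 0} :=
    isOpen_ne_fun (by fun_prop) continuous_const
  have h1 : ContinuousOn (fun w : ℂ => (1 + w * Complex.I) / (1 - w * Complex.I))
      {w : ℂ | 1 - w * Complex.I ≠ 0} := by
    apply ContinuousOn.div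
    · fun_prop
    · fun_prop
    · intro w hw
      exact hw
  exact h1.isOpen_inter_preimage h0 Complex.isOpen_slitPlane

theorem differentiableAt_arctanC (w : ℂ) (hw : w ∈ domA) :
    DifferentiableAt ℂ Complex.arctan w := by
  have h1 : DifferentiableAt ℂ (fun w : ℂ => (1 + w * Complex.I) / (1 - w * Complex.I)) w := by
    apply DifferentiableAt.div
    · fun_prop
    · fun_prop
    · exact hw.1
  have h2 := h1.clog hw.2
  exact h2.const_mul _

theorem real_mem_domA (x : ℝ) : (x : ℂ) ∈ domA := by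
  have hpos : (0 : ℝ) < 1 + x ^ 2 := by positivity
  have hne : (1 : ℂ) - x * Complex.I ≠ 0 := by
    intro h
    have := congrArg Complex.re h
    simp at this
  refine ⟨hne, ?_⟩
  have h1 : (1 + (x : ℂ) * Complex.I) / (1 - x * Complex.I) =
      (((1 - x ^ 2) / (1 + x ^ 2) : ℝ) : ℂ) + ((2 * x / (1 + x ^ 2) : ℝ) : ℂ) * Complex.I := by
    rw [div_eq_iff hne]
    have hne2 : ((1 : ℂ) + x ^ 2) ≠ 0 := by exact_mod_cast hpos.ne'
    push_cast
    field_simp
    ring_nf
    simp only [Complex.I_sq]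
    ring
  rw [h1, Complex.mem_slitPlane_iff]
  rcases eq_or_ne x 0 with hx | hx
  · left
    subst hx
    simp
  · right
    simp only [Complex.add_im, Complex.ofReal_im, Complex.mul_im, Complex.ofReal_re,
      Complex.I_im, Complex.I_re, mul_one, mul_zero, add_zero, zero_add]
    exact div_ne_zero (mul_ne_zero two_ne_zero hx) hpos.ne'

theorem differentiableAt_aeval (G : MvPolynomial (Fin 2) ℝ) (u y : ℂ → ℂ) (z : ℂ)
    (hu : DifferentiableAt ℂ u z) (hy : DifferentiableAt ℂ y z) :
    DifferentiableAt ℂ (fun z => MvPolynomial.aeval ![u z, y z] G) z := by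
  induction G using MvPolynomial.induction_on with
  | C a =>
    simp only [MvPolynomial.aeval_C]
    fun_prop
  | add p q hp hq =>
    simp only [map_add]
    exact hp.add hq
  | mul_X p i hp =>
    simp only [map_mul, MvPolynomial.aeval_X]
    refine hp.mul ?_
    fin_cases i
    · exact hu
    · exact hy

theorem continuousOn_aeval {X : Type*} [TopologicalSpace X] (G : MvPolynomial (Fin 2) ℝ)
    (u y : X → ℂ) (s : Set X) (hu : ContinuousOn u s) (hy : ContinuousOn y s) :
    ContinuousOn (fun p => MvPolynomial.aeval ![u p, y p] G) s := by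
  induction G using MvPolynomial.induction_on with
  | C a =>
    simp only [MvPolynomial.aeval_C]
    fun_prop
  | add p q hp hq =>
    simp only [map_add]
    exact hp.add hq
  | mul_X p i hp =>
    simp only [map_mul, MvPolynomial.aeval_X]
    refine hp.mul ?_
    fin_cases i
    · exact hu
    · exact hy

theorem aeval_real (G : MvPolynomial (Fin 2) ℝ) (u y : ℝ) :
    MvPolynomial.aeval ![(u : ℂ), (y : ℂ)] G = ((MvPolynomial.eval ![u, y] G : ℝ) : ℂ) := by
  induction G using MvPolynomial.induction_on with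
  | C a => simp
  | add p q hp hq => simp only [map_add, hp, hq, Complex.ofReal_add]
  | mul_X p i hp =>
    simp only [map_mul, MvPolynomial.aeval_X, MvPolynomial.eval_X, hp, Complex.ofReal_mul]
    congr 1
    fin_cases i <;> rfl

/-- The period functions are analytic. -/
theorem analyticOnNhd_period (m i : ℕ) (G : MvPolynomial (Fin 2) ℝ) (b : ℝ)
    (hpos : ∀ r ∈ Ioo 0 b, ∀ θ,
      0 < MvPolynomial.eval ![(Ga m i r θ).1, (Ga m i r θ).2] G) :
    AnalyticOnNhd ℝ (fun r => ∫ θ in (0 : ℝ)..2 * Real.pi,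
      1 / MvPolynomial.eval ![(Ga m i r θ).1, (Ga m i r θ).2] G) (Ioo 0 b) := by
  intro r₀ hr₀
  -- the domain
  let W1 : Set (ℂ × ℝ) := {p | p.1 * (Real.cos p.2 : ℂ) ∈ domA}
  have hmulc : Continuous fun p : ℂ × ℝ => p.1 * (Real.cos p.2 : ℂ) := by fun_prop
  have hW1 : IsOpen W1 := isOpen_domA.preimage hmulc
  have hsgc : ContinuousOn (fun p : ℂ × ℝ => sgC p.1 p.2) W1 := by
    have h1 : ContinuousOn Complex.arctan domA := fun w hw =>
      (differentiableAt_arctanC w hw).continuousAt.continuousWithinAt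
    exact h1.comp hmulc.continuousOn fun p hp => hp
  have hsgd : ∀ p ∈ W1, DifferentiableAt ℂ (fun z => sgC z p.2) p.1 := by
    intro p hp
    have h1 : DifferentiableAt ℂ (fun z : ℂ => z * (Real.cos p.2 : ℂ)) p.1 := by fun_prop
    exact (differentiableAt_arctanC _ hp).comp p.1 h1
  let H : ℂ × ℝ → ℂ := fun p =>
    MvPolynomial.aeval ![Complex.cos (psC m i p.1 p.2), yyC p.1 p.2] G
  have hHc : ContinuousOn H W1 := by
    apply continuousOn_aeval
    · apply Complex.continuous_cos.comp_continuousOn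
      exact continuousOn_const.add (continuousOn_const.mul (hsgc.div_const _))
    · apply ContinuousOn.mul
      · fun_prop
      · exact Complex.continuous_cos.comp_continuousOn hsgc
  have hHd : ∀ p ∈ W1, DifferentiableAt ℂ (fun z => H (z, p.2)) p.1 := by
    intro p hp
    apply differentiableAt_aeval
    · have h1 : DifferentiableAt ℂ (fun z => psC m i z p.2) p.1 :=
        (((hsgd p hp).div_const _).const_mul _).const_add _
      exact Complex.differentiable_cos.differentiableAt.comp p.1 h1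
    · have h2 : DifferentiableAt ℂ (fun z : ℂ => z * (Real.sin p.2 : ℂ)) p.1 := by fun_prop
      exact h2.mul (Complex.differentiable_cos.differentiableAt.comp p.1 (hsgd p hp))
  have hHreal : ∀ r θ : ℝ, H (r, θ) =
      ((MvPolynomial.eval ![(Ga m i r θ).1, (Ga m i r θ).2] G : ℝ) : ℂ) := by
    intro r θ
    rw [← aeval_real]
    show MvPolynomial.aeval ![Complex.cos (psC m i r θ), yyC r θ] G = _
    rw [psC_real, yyC_real, ← Complex.ofReal_cos]
    rfl
  let W : Set (ℂ × ℝ) := W1 ∩ H ⁻¹' {0}ᶜ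
  have hW : IsOpen W := hHc.isOpen_inter_preimage hW1 isOpen_compl_singleton
  have hmem : ∀ r ∈ Ioo 0 b, ∀ θ : ℝ, (((r : ℝ) : ℂ), θ) ∈ W := by
    intro r hr θ
    refine ⟨?_, ?_⟩
    · show ((r : ℂ) * (Real.cos θ : ℂ)) ∈ domA
      rw [← Complex.ofReal_mul]
      exact real_mem_domA _
    · show H ((r : ℂ), θ) ≠ 0
      rw [hHreal]
      exact_mod_cast (hpos r hr θ).ne'
  have key := differentiableAt_integral_param (fun z θ => 1 / H (z, θ)) (r₀ : ℂ) 0
    (2 * Real.pi) W hW (fun θ _ => hmem r₀ hr₀ θ)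
    (by
      apply ContinuousOn.div continuousOn_const (hHc.mono inter_subset_left)
      intro p hp
      exact hp.2)
    (by
      intro p hp
      exact (differentiableAt_const _).div (hHd p hp.1) hp.2)
  refine analyticAt_of_complex _ _ r₀ key ?_
  filter_upwards [isOpen_Ioo.mem_nhds hr₀] with r hr
  rw [← intervalIntegral.integral_ofReal]
  congr 1
  funext θ
  rw [hHreal]
  push_cast
  rfl

/-- Between points at which the derivative of an analytic function has alternating signs, there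
are isolated zeros of the derivative. -/
theorem exists_isolated_zeros (T : ℝ → ℝ) (b : ℝ) (hT : AnalyticOnNhd ℝ T (Ioo 0 b)) (D : ℕ)
    (s : ℕ → ℝ) (hs : ∀ j ≤ D, s j ∈ Ioo 0 b) (hmono : ∀ j < D, s j < s (j + 1))
    (hsign : ∀ j < D, deriv T (s j) * deriv T (s (j + 1)) < 0) :
    ∃ z : ℕ → ℝ, ∀ j < D, z j ∈ Ioo (s j) (s (j + 1)) ∧ deriv T (z j) = 0 ∧
      (∀ᶠ u in 𝓝[≠] (z j), deriv T u ≠ 0) ∧ (∀ᶠ u in 𝓝 (z j), DifferentiableAt ℝ T u) := by
  have hT' : AnalyticOnNhd ℝ (deriv T) (Ioo 0 b) := hT.deriv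
  have key : ∀ j, ∃ z, j < D → z ∈ Ioo (s j) (s (j + 1)) ∧ deriv T z = 0 ∧
      (∀ᶠ u in 𝓝[≠] z, deriv T u ≠ 0) ∧ (∀ᶠ u in 𝓝 z, DifferentiableAt ℝ T u) := by
    intro j
    by_cases hj : j < D
    · have hsj := hs j hj.le
      have hsj1 := hs (j + 1) hj
      have hlt := hmono j hj
      have hIcc : Icc (s j) (s (j + 1)) ⊆ Ioo 0 b := fun x hx =>
        ⟨lt_of_lt_of_le hsj.1 hx.1, lt_of_le_of_lt hx.2 hsj1.2⟩
      have hcont : ContinuousOn (deriv T) (Icc (s j) (s (j + 1))) :=
        hT'.continuousOn.mono hIcc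
      obtain ⟨z, hz, hz0⟩ : ∃ z ∈ Ioo (s j) (s (j + 1)), deriv T z = 0 := by
        rcases lt_or_ge (deriv T (s j)) 0 with hneg | hpos
        · have hpos1 : 0 < deriv T (s (j + 1)) := by
            by_contra h
            push Not at h
            have := mul_nonneg_of_nonpos_of_nonpos hneg.le h
            linarith [hsign j hj]
          have := intermediate_value_Ioo hlt.le hcont ⟨hneg, hpos1⟩
          exact this
        · have hneg1 : deriv T (s (j + 1)) < 0 := by
            by_contra h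
            push Not at h
            have := mul_nonneg hpos h
            linarith [hsign j hj]
          have hpos' : 0 < deriv T (s j) := by
            rcases hpos.lt_or_eq with h | h
            · exact h
            · have := hsign j hj
              rw [← h, zero_mul] at this
              exact absurd this (lt_irrefl _)
          have := intermediate_value_Ioo' hlt.le hcont ⟨hneg1, hpos'⟩
          exact this
      have hzb : z ∈ Ioo 0 b := hIcc ⟨hz.1.le, hz.2.le⟩
      refine ⟨z, fun _ => ⟨hz, hz0, ?_, ?_⟩⟩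
      · rcases (hT' z hzb).eventually_eq_zero_or_eventually_ne_zero with h | h
        · exfalso
          have h1 := hT'.eqOn_zero_of_preconnected_of_eventuallyEq_zero isPreconnected_Ioo hzb h
          have h2 := h1 hsj
          have h3 := hsign j hj
          rw [h2] at h3
          simp at h3
        · exact h
      · filter_upwards [isOpen_Ioo.mem_nhds hzb] with u hu
        exact (hT u hu).differentiableAt
    · exact ⟨0, fun h => absurd h hj⟩
  choose z hz using key
  exact ⟨z, hz⟩

/-- Between alternating increments of an analytic function there are isolated critical points. -/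
theorem exists_critical (T : ℝ → ℝ) (bb : ℝ) (hT : AnalyticOnNhd ℝ T (Ioo 0 bb)) (D : ℕ)
    (a b : ℕ → ℝ) (ha : ∀ p < D, a p ∈ Ioo 0 bb) (hb : ∀ p < D, b p ∈ Ioo 0 bb)
    (hab : ∀ p < D, a p < b p) (hba : ∀ p, p + 1 < D → b p < a (p + 1)) (c : ℝ)
    (hc : ∀ p < D, 0 < c * (-1) ^ p * (T (b p) - T (a p))) :
    ∃ z : ℕ → ℝ, (∀ p, p + 1 < D → a p < z p ∧ z p < b (p + 1) ∧ z p ∈ Ioo 0 bb ∧
      deriv T (z p) = 0 ∧ (∀ᶠ u in 𝓝 (z p), DifferentiableAt ℝ T u) ∧
      (∀ᶠ u in 𝓝[≠] (z p), deriv T u ≠ 0)) ∧ (∀ p q, p < q → q + 1 < D → z p < z q) := by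
  have h1 : ∀ p, ∃ s, p < D → s ∈ Ioo (a p) (b p) ∧ 0 < c * (-1) ^ p * deriv T s := by
    intro p
    by_cases hp : p < D
    · have hIcc : Icc (a p) (b p) ⊆ Ioo 0 bb := fun x hx =>
        ⟨lt_of_lt_of_le (ha p hp).1 hx.1, lt_of_le_of_lt hx.2 (hb p hp).2⟩
      obtain ⟨s, hs, hds⟩ := exists_deriv_eq_slope T (hab p hp) (hT.continuousOn.mono hIcc)
        (hT.differentiableOn.mono (Ioo_subset_Icc_self.trans hIcc))
      refine ⟨s, fun _ => ⟨hs, ?_⟩⟩
      rw [hds, ← mul_div_assoc]
      exact div_pos (hc p hp) (by linarith [hab p hp])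
    · exact ⟨0, fun h => absurd h hp⟩
  choose s hs using h1
  have hsb : ∀ p < D, s p ∈ Ioo 0 bb := fun p hp =>
    ⟨lt_trans (ha p hp).1 (hs p hp).1.1, lt_trans (hs p hp).1.2 (hb p hp).2⟩
  have hmono : ∀ p, p + 1 < D → s p < s (p + 1) := fun p hp =>
    ((hs p (by omega)).1.2.trans (hba p hp)).trans (hs (p + 1) hp).1.1
  rcases Nat.eq_zero_or_pos D with hD | hD
  · subst hD
    exact ⟨fun _ => 0, fun p hp => absurd hp (by omega), fun p q _ hq => absurd hq (by omega)⟩
  obtain ⟨z, hz⟩ := exists_isolated_zeros T bb hT (D - 1) s (fun j hj => hsb j (by omega))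
    (fun j hj => hmono j (by omega)) (by
      intro j hj
      have e1 := (hs j (by omega)).2
      have e2 := (hs (j + 1) (by omega)).2
      have e3 := mul_pos e1 e2
      have e4 : c * (-1) ^ j * deriv T (s j) * (c * (-1) ^ (j + 1) * deriv T (s (j + 1))) =
          -(c ^ 2 * ((-1) ^ j * (-1) ^ j) * (deriv T (s j) * deriv T (s (j + 1)))) := by
        rw [pow_succ (-1 : ℝ) j]
        ring
      have e5 : ((-1 : ℝ)) ^ j * (-1) ^ j = 1 := by
        rw [← mul_pow]
        norm_num
      rw [e4, e5, mul_one] at e3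
      by_contra h
      push Not at h
      have := mul_nonneg (sq_nonneg c) h
      linarith)
  refine ⟨z, ?_, ?_⟩
  · intro p hp
    obtain ⟨w1, w2, w3, w4⟩ := hz p (by omega)
    have w5 := (hs p (by omega)).1.1
    have w6 := (hs (p + 1) hp).1.2
    exact ⟨w5.trans w1.1, w1.2.trans w6,
      ⟨(hsb p (by omega)).1.trans w1.1, w1.2.trans (hsb (p + 1) hp).2⟩, w2, w4, w3⟩
  · intro p q hpq hq
    have h2 : ∀ d, p + d + 1 < D → s (p + 1) ≤ s (p + d + 1) := by
      intro d
      induction d with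
      | zero => intro _; exact le_rfl
      | succ d ih =>
        intro hd
        exact (ih (by omega)).trans (hmono (p + d + 1) (by omega)).le
    have h3 : s (p + 1) ≤ s q := by
      have := h2 (q - p - 1) (by omega)
      have e : p + (q - p - 1) + 1 = q := by omega
      rwa [e] at this
    exact ((hz p (by omega)).1.2.trans_le h3).trans (hz q (by omega)).1.1

end Pool.Agent.MP48dd78
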