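import Pool.Agent.Lib.MP_48dd78_an.Dyn

/-!
The vector fields as polynomial systems, and the final counting.
-/

set_option autoImplicit false

namespace Pool.Agent.MP48dd78

open Set Filter Topology

/-! ### Degrees -/

theorem totalDegree_aeval_X_le (p : Polynomial ℝ) (i : Fin 2) :
    (Polynomial.aeval (MvPolynomial.X i : MvPolynomial (Fin 2) ℝ) p).totalDegree ≤
      p.natDegree := by
  rw [Polynomial.aeval_eq_sum_range]
  refine (MvPolynomial.totalDegree_finsetSum _ _).trans ?_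
  apply Finset.sup_le
  intro k hk
  rw [Finset.mem_range] at hk
  refine (MvPolynomial.totalDegree_smul_le _ _).trans ?_
  rw [MvPolynomial.totalDegree_X_pow]
  omega

theorem le_totalDegree_aeval_X (p : Polynomial ℝ) (hp : p ≠ 0) (i : Fin 2) :
    p.natDegree ≤
      (Polynomial.aeval (MvPolynomial.X i : MvPolynomial (Fin 2) ℝ) p).totalDegree := by
  have h1 : MvPolynomial.coeff (Finsupp.single i p.natDegree)
      (Polynomial.aeval (MvPolynomial.X i : MvPolynomial (Fin 2) ℝ) p) = p.leadingCoeff := by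
    rw [Polynomial.aeval_eq_sum_range, MvPolynomial.coeff_sum,
      Finset.sum_eq_single p.natDegree]
    · rw [MvPolynomial.coeff_smul, MvPolynomial.coeff_X_pow, if_pos rfl, smul_eq_mul, mul_one]
      rfl
    · intro k _ hk
      rw [MvPolynomial.coeff_smul, MvPolynomial.coeff_X_pow, if_neg, smul_zero]
      intro h
      exact hk (Finsupp.single_injective i h)
    · intro h
      exact absurd (Finset.mem_range.2 (Nat.lt_succ_self _)) h
  have h2 : Finsupp.single i p.natDegree ∈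
      (Polynomial.aeval (MvPolynomial.X i : MvPolynomial (Fin 2) ℝ) p).support := by
    rw [MvPolynomial.mem_support_iff, h1]
    exact Polynomial.leadingCoeff_ne_zero.2 hp
  have h3 := MvPolynomial.le_totalDegree h2
  rwa [Finsupp.sum_single_index rfl] at h3

theorem eval_aeval_X (p : Polynomial ℝ) (i : Fin 2) (v : Fin 2 → ℝ) :
    MvPolynomial.eval v (Polynomial.aeval (MvPolynomial.X i : MvPolynomial (Fin 2) ℝ) p) =
      p.eval (v i) := by
  rw [Polynomial.aeval_eq_sum_range, Polynomial.eval_eq_sum_range, map_sum]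
  apply Finset.sum_congr rfl
  intro k _
  rw [MvPolynomial.smul_eval, map_pow, MvPolynomial.eval_X]

theorem totalDegree_one_add_sq :
    ((1 : MvPolynomial (Fin 2) ℝ) + MvPolynomial.X 1 ^ 2).totalDegree = 2 := by
  rw [MvPolynomial.totalDegree_add_eq_right_of_totalDegree_lt, MvPolynomial.totalDegree_X_pow]
  rw [MvPolynomial.totalDegree_X_pow, MvPolynomial.totalDegree_one]
  norm_num

theorem exists_PQ (m : ℕ) (hm : 0 < m) (G : MvPolynomial (Fin 2) ℝ) (hG : G ≠ 0) :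
    ∃ P Q : MvPolynomial (Fin 2) ℝ,
      (vf P Q = fun z => (MvPolynomial.eval ![z.1, z.2] G) • Zf m z) ∧
      max P.totalDegree Q.totalDegree = G.totalDegree + m + 2 := by
  have hT0 : Polynomial.Chebyshev.T ℝ (m : ℤ) ≠ 0 := by
    intro h
    have := Polynomial.Chebyshev.degree_T ℝ (m : ℤ)
    rw [h, Polynomial.degree_zero] at this
    exact absurd this.symm (by simp)
  have hTdeg : (Polynomial.Chebyshev.T ℝ (m : ℤ)).natDegree = m := by
    rw [Polynomial.Chebyshev.natDegree_T]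
    exact Int.natAbs_natCast m
  have hUdeg : (Polynomial.Chebyshev.U ℝ ((m : ℤ) - 1)).natDegree = m - 1 := by
    have h1 : (m : ℤ) - 1 = ((m - 1 : ℕ) : ℤ) := by omega
    rw [h1, Polynomial.Chebyshev.natDegree_U_natCast]
  set TX : MvPolynomial (Fin 2) ℝ :=
    Polynomial.aeval (MvPolynomial.X 0) (Polynomial.Chebyshev.T ℝ (m : ℤ)) with hTX
  set UX : MvPolynomial (Fin 2) ℝ :=
    Polynomial.aeval (MvPolynomial.X 0) (Polynomial.Chebyshev.U ℝ ((m : ℤ) - 1)) with hUX
  have hTXdeg : TX.totalDegree = m :=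
    le_antisymm ((totalDegree_aeval_X_le _ _).trans hTdeg.le)
      (hTdeg.ge.trans (le_totalDegree_aeval_X _ hT0 _))
  have hUXdeg : UX.totalDegree ≤ m - 1 := (totalDegree_aeval_X_le _ _).trans hUdeg.le
  have hTXne : TX ≠ 0 := by
    intro h
    rw [h, MvPolynomial.totalDegree_zero] at hTXdeg
    omega
  have hone : ((1 : MvPolynomial (Fin 2) ℝ) + MvPolynomial.X 1 ^ 2) ≠ 0 := by
    intro h
    have := totalDegree_one_add_sq
    rw [h, MvPolynomial.totalDegree_zero] at this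
    omega
  set P0 : MvPolynomial (Fin 2) ℝ := MvPolynomial.C (-(1 / (m : ℝ))) *
    (MvPolynomial.X 1 * (1 - MvPolynomial.X 0 ^ 2) * UX) with hP0
  set Q0 : MvPolynomial (Fin 2) ℝ := TX * (1 + MvPolynomial.X 1 ^ 2) with hQ0
  have hQ0deg : Q0.totalDegree = m + 2 := by
    rw [hQ0, MvPolynomial.totalDegree_mul_of_isDomain hTXne hone, hTXdeg,
      totalDegree_one_add_sq]
  have hQ0ne : Q0 ≠ 0 := mul_ne_zero hTXne hone
  have hP0deg : P0.totalDegree ≤ m + 2 := by
    rw [hP0]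
    refine (MvPolynomial.totalDegree_mul _ _).trans ?_
    rw [MvPolynomial.totalDegree_C, zero_add]
    refine (MvPolynomial.totalDegree_mul _ _).trans ?_
    have h1 : (MvPolynomial.X 1 * (1 - MvPolynomial.X 0 ^ 2) :
        MvPolynomial (Fin 2) ℝ).totalDegree ≤ 3 := by
      refine (MvPolynomial.totalDegree_mul _ _).trans ?_
      rw [MvPolynomial.totalDegree_X]
      have h2 := MvPolynomial.totalDegree_sub (1 : MvPolynomial (Fin 2) ℝ)
        (MvPolynomial.X 0 ^ 2)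
      rw [MvPolynomial.totalDegree_one, MvPolynomial.totalDegree_X_pow] at h2
      have h3 : max 0 2 = 2 := by norm_num
      rw [h3] at h2
      omega
    omega
  refine ⟨G * P0, G * Q0, ?_, ?_⟩
  · funext z
    simp only [vf, Zf, map_mul, Prod.smul_mk, smul_eq_mul, hP0, hQ0, hTX, hUX,
      MvPolynomial.eval_C, MvPolynomial.eval_X, eval_aeval_X, map_sub, map_add, map_pow,
      map_one, Prod.mk.injEq]
    constructor
    · simp only [Matrix.cons_val_zero, Matrix.cons_val_one]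
      ring
    · simp only [Matrix.cons_val_zero, Matrix.cons_val_one]
  · rw [MvPolynomial.totalDegree_mul_of_isDomain hG hQ0ne, hQ0deg]
    have h1 := MvPolynomial.totalDegree_mul G P0
    rw [max_eq_right (by omega)]
    omega

/-! ### Counting -/

theorem calT_ge (P Q : MvPolynomial (Fin 2) ℝ) (n : ℕ)
    (hn : max P.totalDegree Q.totalDegree = n) {ι : Type} (S : Finset ι) (D : ι → ℕ)
    (c : ι → Continuum (vf P Q)) (z : ι → ℕ → ℝ)
    (hz : ∀ a ∈ S, ∀ j < D a, (c a).IsCritical (z a j))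
    (hinj : ∀ a ∈ S, ∀ j < D a, ∀ a' ∈ S, ∀ j' < D a', (a, j) ≠ (a', j') →
      range ((c a).γ (z a j)) ≠ range ((c a').γ (z a' j'))) :
    ((∑ a ∈ S, D a : ℕ) : ℕ∞) ≤ calT n := by
  have h1 : (criticalOrbits (vf P Q)).encard ≤ calT n :=
    le_iSup_of_le P (le_iSup_of_le Q (le_iSup_of_le hn le_rfl))
  refine le_trans ?_ h1
  let F : Finset ((_ : ι) × ℕ) := S.sigma fun a => Finset.range (D a)
  let f : ((_ : ι) × ℕ) → Set (ℝ × ℝ) := fun x => range ((c x.1).γ (z x.1 x.2))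
  have hinjF : InjOn f (F : Set ((_ : ι) × ℕ)) := by
    rintro ⟨a, j⟩ hx ⟨a', j'⟩ hx' hff
    have h2 := Finset.mem_sigma.1 (Finset.mem_coe.1 hx)
    have h3 := Finset.mem_sigma.1 (Finset.mem_coe.1 hx')
    by_contra hne
    refine hinj a h2.1 j (Finset.mem_range.1 h2.2) a' h3.1 j' (Finset.mem_range.1 h3.2) ?_ hff
    intro h4
    apply hne
    rw [Prod.mk.injEq] at h4
    obtain ⟨rfl, rfl⟩ := h4
    rfl
  have hsub : f '' (F : Set ((_ : ι) × ℕ)) ⊆ criticalOrbits (vf P Q) := by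
    rintro O ⟨⟨a, j⟩, hx, rfl⟩
    have h2 := Finset.mem_sigma.1 (Finset.mem_coe.1 hx)
    exact ⟨c a, z a j, hz a h2.1 j (Finset.mem_range.1 h2.2), rfl⟩
  refine le_trans (le_of_eq ?_) (Set.encard_le_encard hsub)
  rw [hinjF.encard_image, Set.encard_coe_eq_coe_finsetCard]
  simp [F]

/-! ### The final estimate -/

theorem sum_lower (k : ℕ) :
    (k : ℝ) * 9 ^ k / 6 ≤ ((∑ s ∈ Finset.range k, ∑ _t ∈ Finset.range (3 ^ (k - s - 1)),
      (((3 ^ s + 1) / 2) * (3 ^ k + 1) - 1) : ℕ) : ℝ) := by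
  have h1 : ∀ s ∈ Finset.range k, (9 : ℝ) ^ k / 6 ≤
      ((∑ _t ∈ Finset.range (3 ^ (k - s - 1)),
        (((3 ^ s + 1) / 2) * (3 ^ k + 1) - 1) : ℕ) : ℝ) := by
    intro s hs
    rw [Finset.mem_range] at hs
    rw [Finset.sum_const, Finset.card_range, smul_eq_mul]
    have h2 : ∀ s : ℕ, 2 * ((3 ^ s + 1) / 2) = 3 ^ s + 1 := by
      intro s
      have h3 : 3 ^ s % 2 = 1 := by
        rw [Nat.pow_mod]
        norm_num
      omega
    have h3 := h2 s
    set h := (3 ^ s + 1) / 2 with hh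
    have h4 : 1 ≤ h := by
      have : 1 ≤ 3 ^ s := Nat.one_le_pow _ _ (by norm_num)
      omega
    have h5 : h * 3 ^ k ≤ h * (3 ^ k + 1) - 1 := by
      have : h * (3 ^ k + 1) = h * 3 ^ k + h := by ring
      omega
    have h6 : 3 ^ (k - s - 1) * (h * 3 ^ k) ≤ 3 ^ (k - s - 1) * (h * (3 ^ k + 1) - 1) :=
      Nat.mul_le_mul_left _ h5
    have h7 : (3 ^ (k - s - 1) * (h * 3 ^ k) : ℝ) ≤
        ((3 ^ (k - s - 1) * (h * (3 ^ k + 1) - 1) : ℕ) : ℝ) := by
      exact_mod_cast h6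
    refine le_trans ?_ h7
    have h8 : (2 : ℝ) * h = 3 ^ s + 1 := by exact_mod_cast h3
    have h9 : (3 : ℝ) ^ s / 2 ≤ h := by linarith
    have h10 : (9 : ℝ) ^ k / 6 = 3 ^ (k - s - 1) * (3 ^ s / 2 * 3 ^ k) := by
      have h11 : (9 : ℝ) ^ k = 3 ^ k * 3 ^ k := by
        rw [← mul_pow]
        norm_num
      have h12 : (3 : ℝ) ^ k = 3 ^ (k - s - 1) * 3 ^ s * 3 := by
        rw [← pow_add, ← pow_succ]
        congr 1
        omega
      rw [h11]
      nth_rewrite 1 [h12]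
      ring
    rw [h10]
    gcongr
  have h2 := Finset.sum_le_sum h1
  rw [Finset.sum_const, Finset.card_range, nsmul_eq_mul] at h2
  rw [mul_div_assoc]
  refine h2.trans (le_of_eq ?_)
  push_cast
  rfl

theorem final_arith : ∃ C : ℝ, 0 < C ∧ ∀ᶠ n : ℕ in atTop, ∃ k : ℕ, 4 * 3 ^ k + 3 ≤ n ∧
    C * n ^ 2 * Real.log n ≤ ((∑ s ∈ Finset.range k, ∑ _t ∈ Finset.range (3 ^ (k - s - 1)),
      (((3 ^ s + 1) / 2) * (3 ^ k + 1) - 1) : ℕ) : ℝ) := by
  refine ⟨1 / 10000, by norm_num, ?_⟩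
  filter_upwards [eventually_ge_atTop 15] with n hn
  -- the choice of `k`
  obtain ⟨k, hk1, hk2⟩ : ∃ k : ℕ, 4 * 3 ^ k + 3 ≤ n ∧ n < 4 * 3 ^ (k + 1) + 3 := by
    refine ⟨Nat.log 3 ((n - 3) / 4), ?_, ?_⟩
    · have h1 := Nat.pow_log_le_self 3 (x := (n - 3) / 4) (by omega)
      omega
    · have h1 := Nat.lt_pow_succ_log_self (b := 3) (by norm_num) ((n - 3) / 4)
      have h2 : 3 ^ (Nat.log 3 ((n - 3) / 4) + 1) = 3 ^ (Nat.log 3 ((n - 3) / 4)).succ := rfl
      rw [h2]
      omega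
  refine ⟨k, hk1, ?_⟩
  have hk0 : 1 ≤ k := by
    by_contra h
    have : k = 0 := by omega
    subst this
    norm_num at hk2
    omega
  refine le_trans ?_ (sum_lower k)
  have hx : (1 : ℝ) ≤ 3 ^ k := one_le_pow₀ (by norm_num)
  have hn1 : (n : ℝ) ≤ 14 * 3 ^ k := by
    have h1 : n ≤ 12 * 3 ^ k + 2 := by
      rw [pow_succ] at hk2
      omega
    have h2 : (n : ℝ) ≤ 12 * 3 ^ k + 2 := by exact_mod_cast h1
    linarith
  have hn0 : (0 : ℝ) < n := by
    have : 0 < n := by omega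
    exact_mod_cast this
  have hkr : (1 : ℝ) ≤ k := by exact_mod_cast hk0
  have hlog3 : Real.log 3 ≤ 2 := by
    have := Real.log_le_sub_one_of_pos (x := 3) (by norm_num)
    linarith
  have hlog3' : 0 < Real.log 3 := Real.log_pos (by norm_num)
  have hlog : Real.log n ≤ 8 * k := by
    have h1 : (n : ℝ) ≤ 3 ^ (k + 3) := by
      rw [pow_add]
      linarith
    have h2 := Real.log_le_log hn0 h1
    rw [Real.log_pow] at h2
    push_cast at h2
    nlinarith
  have hlog0 : 0 ≤ Real.log n := Real.log_nonneg (by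
    have : 1 ≤ n := by omega
    exact_mod_cast this)
  have h9 : (9 : ℝ) ^ k = (3 ^ k) ^ 2 := by
    rw [← pow_mul, mul_comm, pow_mul]
    norm_num
  rw [h9]
  have hn2 : (n : ℝ) ^ 2 ≤ (14 * 3 ^ k) ^ 2 := by
    apply pow_le_pow_left₀ hn0.le hn1
  have h3 : 1 / 10000 * (n : ℝ) ^ 2 * Real.log n ≤
      1 / 10000 * (14 * 3 ^ k) ^ 2 * (8 * k) := by
    gcongr
  refine h3.trans ?_
  have h4 : (0 : ℝ) ≤ k * (3 ^ k) ^ 2 := by positivity
  nlinarith

end Pool.Agent.MP48dd78
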