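import Pool.Agent.Lib.MP_48dd78_an.Perturb
import Pool.Agent.Lib.MP_48dd78_an.Anal
import Pool.Agent.Lib.MP_48dd78_an.Count

/-!
The final assembly.
-/

set_option autoImplicit false

namespace Pool.Agent.MP48dd78

open Set Filter Topology MeasureTheory

theorem critical_of_eqOn {X : ℝ × ℝ → ℝ × ℝ} (c : Continuum X) (b : ℝ) (hb : c.b = b)
    (T : ℝ → ℝ) (hT : ∀ r ∈ Ioo 0 b, c.T r = T r) (z : ℝ) (hz : z ∈ Ioo 0 b)
    (hz0 : deriv T z = 0) (hz1 : ∀ᶠ u in 𝓝 z, DifferentiableAt ℝ T u)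
    (hz2 : ∀ᶠ u in 𝓝[≠] z, deriv T u ≠ 0) : c.IsCritical z := by
  have h1 : ∀ u ∈ Ioo 0 b, c.T =ᶠ[𝓝 u] T := by
    intro u hu
    filter_upwards [isOpen_Ioo.mem_nhds hu] with r hr using hT r hr
  have h2 : ∀ᶠ u in 𝓝 z, u ∈ Ioo 0 b := isOpen_Ioo.mem_nhds hz
  refine ⟨by rw [hb]; exact hz, ?_, ?_, ?_⟩
  · filter_upwards [h2, hz1] with u hu hu1
    exact ((h1 u hu).differentiableAt_iff).2 hu1
  · rw [(h1 z hz).deriv_eq]
    exact hz0
  · filter_upwards [h2.filter_mono nhdsWithin_le_nhds, hz2] with u hu hu1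
    rw [(h1 u hu).deriv_eq]
    exact hu1

theorem main_k (k n : ℕ) (hn : 4 * 3 ^ k + 3 ≤ n) :
    ((∑ s ∈ Finset.range k, ∑ _t ∈ Finset.range (3 ^ (k - s - 1)),
      (((3 ^ s + 1) / 2) * (3 ^ k + 1) - 1) : ℕ) : ℕ∞) ≤ calT n := by
  obtain ⟨G, a, b, hG0, hGdeg, hGpos, ha, hb, hab, hba, hPer⟩ := exists_G k n hn
  have hm : 0 < 3 ^ k := by positivity
  have hodd : Odd (3 ^ k) := Odd.pow (by decide)
  obtain ⟨P, Q, hPQ, hdeg⟩ := exists_PQ (3 ^ k) hm G hG0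
  rw [hGdeg] at hdeg
  set S : Finset ((_ : ℕ) × ℕ) :=
    (Finset.range k).sigma fun s => Finset.range (3 ^ (k - s - 1)) with hS
  have hmem : ∀ x ∈ S, x.1 < k ∧ x.2 < 3 ^ (k - x.1 - 1) := by
    intro x hx
    rw [hS, Finset.mem_sigma, Finset.mem_range, Finset.mem_range] at hx
    exact hx
  -- the continua
  have hcont : ∀ x : {x // x ∈ S}, ∃ c : Continuum (vf P Q), c.b = 1 ∧
      (∀ r ∈ Ioo (0 : ℝ) 1, c.T r = Per (3 ^ k) (ci x.1.1 x.1.2) G r) ∧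
      ∀ r ∈ Ioo (0 : ℝ) 1, range (c.γ r) = range (Ga (3 ^ k) (ci x.1.1 x.1.2) r) := by
    intro x
    obtain ⟨h1, h2⟩ := hmem x.1 x.2
    rw [hPQ]
    exact exists_continuum (3 ^ k) hodd (ci x.1.1 x.1.2) (ci_lt k _ _ h1 h2) (ev G)
      (continuous_ev G) 1 one_pos
      (fun r hr θ => hGpos _ (abs_Ga_le _ _ r θ hr).1 (abs_Ga_le _ _ r θ hr).2)
  choose c hcb hcT hcγ using hcont
  -- the critical points
  have hcrit : ∀ x : {x // x ∈ S}, ∃ z : ℕ → ℝ,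
      (∀ p, p + 1 < Vn x.1.1 * (3 ^ k + 1) → z p ∈ Ioo (0 : ℝ) 1 ∧ (c x).IsCritical (z p)) ∧
      (∀ p q, p < q → q + 1 < Vn x.1.1 * (3 ^ k + 1) → z p < z q) := by
    intro x
    obtain ⟨h1, h2⟩ := hmem x.1 x.2
    have han : AnalyticOnNhd ℝ (Per (3 ^ k) (ci x.1.1 x.1.2) G) (Ioo 0 1) :=
      analyticOnNhd_period (3 ^ k) (ci x.1.1 x.1.2) G 1
        (fun r hr θ => hGpos _ (abs_Ga_le _ _ r θ hr).1 (abs_Ga_le _ _ r θ hr).2)
    obtain ⟨z, hz1, hz2⟩ := exists_critical (Per (3 ^ k) (ci x.1.1 x.1.2) G) 1 han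
      (Vn x.1.1 * (3 ^ k + 1)) (a x.1.1) (b x.1.1) (ha x.1.1) (hb x.1.1) (hab x.1.1)
      (hba x.1.1) (-(-1) ^ x.1.2) (by
        intro p hp
        have h3 := hPer x.1.1 h1 x.1.2 h2 p hp
        have h4 : ∀ A B C D : ℝ, -A * B * (C - D) = A * (B * (D - C)) := by
          intro A B C D; ring
        rw [h4]
        exact h3)
    refine ⟨z, fun p hp => ?_, hz2⟩
    obtain ⟨_, _, h5, h6, h7, h8⟩ := hz1 p hp
    exact ⟨h5, critical_of_eqOn (c x) 1 (hcb x) _ (hcT x) (z p) h5 h6 h7 h8⟩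
  choose z hz1 hz2 using hcrit
  -- count
  have hD : ∀ (s j : ℕ), j < Vn s * (3 ^ k + 1) - 1 → j + 1 < Vn s * (3 ^ k + 1) := by
    intro s j hj
    omega
  have hfin := calT_ge P Q n hdeg (ι := {x // x ∈ S}) S.attach
    (fun x => Vn x.1.1 * (3 ^ k + 1) - 1) c z
    (fun x _ j hj => (hz1 x j (hD _ _ hj)).2) ?_
  · have hsum : ∑ x ∈ S.attach, (Vn x.1.1 * (3 ^ k + 1) - 1) =
        ∑ s ∈ Finset.range k, ∑ _t ∈ Finset.range (3 ^ (k - s - 1)),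
          (((3 ^ s + 1) / 2) * (3 ^ k + 1) - 1) := by
      rw [Finset.sum_attach S (fun x => Vn x.1 * (3 ^ k + 1) - 1), hS, Finset.sum_sigma]
      rfl
    rw [hsum] at hfin
    exact hfin
  · intro x _ j hj x' _ j' hj' hne heq
    obtain ⟨h1, h2⟩ := hmem x.1 x.2
    obtain ⟨h1', h2'⟩ := hmem x'.1 x'.2
    have hr := (hz1 x j (hD _ _ hj)).1
    have hr' := (hz1 x' j' (hD _ _ hj')).1
    rw [hcγ x _ hr, hcγ x' _ hr'] at heq
    have hpair : (ci x.1.1 x.1.2, z x j) = (ci x'.1.1 x'.1.2, z x' j') := by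
      by_contra hne2
      have h3 := range_Ga_ne (3 ^ k) hodd (ci x.1.1 x.1.2) (ci x'.1.1 x'.1.2)
        (ci_lt k _ _ h1 h2) (ci_lt k _ _ h1' h2') (z x j) (z x' j') hr.1 hr'.1 hne2
      rw [heq, disjoint_self] at h3
      have h4 : (range (Ga (3 ^ k) (ci x'.1.1 x'.1.2) (z x' j'))).Nonempty :=
        range_nonempty _
      exact h4.ne_empty h3
    rw [Prod.mk.injEq] at hpair
    obtain ⟨h5, h6⟩ := ci_inj _ _ _ _ hpair.1
    have hx : x = x' := by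
      apply Subtype.ext
      exact Sigma.ext h5 (heq_of_eq h6)
    subst hx
    have hj2 : j = j' := by
      rcases lt_trichotomy j j' with h | h | h
      · exact absurd hpair.2 (hz2 x j j' h (hD _ _ hj')).ne
      · exact h
      · exact absurd hpair.2 (hz2 x j' j h (hD _ _ hj)).ne'
    exact hne (by rw [hj2])

theorem main : ∃ C : ℝ, 0 < C ∧ ∀ᶠ n : ℕ in atTop, ∃ N : ℕ,
    C * n ^ 2 * Real.log n ≤ N ∧ (N : ℕ∞) ≤ calT n := by
  obtain ⟨C, hC, h⟩ := final_arith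
  refine ⟨C, hC, ?_⟩
  filter_upwards [h] with n hn
  obtain ⟨k, hk1, hk2⟩ := hn
  exact ⟨_, hk2, main_k k n hk1⟩

end Pool.Agent.MP48dd78
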