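import Pool.Agent.Lib.MP_48dd78_an.Signs

/-!
The averages of the functions `cos (L ψ) y ^ (2 κ)` over the orbits around the `i`-th center.
-/

set_option autoImplicit false

namespace Pool.Agent.MP48dd78

open Set Filter Topology MeasureTheory

theorem sg_pi_sub (r θ : ℝ) : sg r (Real.pi - θ) = - sg r θ := by
  rw [sg, sg, Real.cos_pi_sub, mul_neg, Real.arctan_neg]

theorem yy_pi_sub (r θ : ℝ) : yy r (Real.pi - θ) = yy r θ := by
  rw [yy, yy, sg_pi_sub, Real.cos_neg, Real.sin_pi_sub]

theorem sg_add_two_pi (r θ : ℝ) : sg r (θ + 2 * Real.pi) = sg r θ := by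
  rw [sg, sg, Real.cos_add_two_pi]

theorem yy_add_two_pi (r θ : ℝ) : yy r (θ + 2 * Real.pi) = yy r θ := by
  rw [yy, yy, sg_add_two_pi, Real.sin_add_two_pi]

/-- A `2π`-periodic function with `f (π - θ) = - f θ` has integral zero. -/
theorem integral_eq_zero_of_odd (f : ℝ → ℝ) (hp : Function.Periodic f (2 * Real.pi))
    (hodd : ∀ θ, f (Real.pi - θ) = - f θ) : ∫ θ in (0 : ℝ)..2 * Real.pi, f θ = 0 := by
  have h1 : ∫ θ in (-Real.pi)..Real.pi, f (Real.pi - θ) = ∫ θ in (0 : ℝ)..2 * Real.pi, f θ := by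
    rw [intervalIntegral.integral_comp_sub_left (fun x => f x) Real.pi]
    congr 1 <;> ring
  have h2 : ∫ θ in (-Real.pi)..Real.pi, f θ = ∫ θ in (0 : ℝ)..2 * Real.pi, f θ := by
    have := hp.intervalIntegral_add_eq (-Real.pi) 0
    have e1 : -Real.pi + 2 * Real.pi = Real.pi := by ring
    rw [e1, zero_add] at this
    exact this
  have h3 : ∫ θ in (-Real.pi)..Real.pi, f (Real.pi - θ) =
      - ∫ θ in (-Real.pi)..Real.pi, f θ := by
    rw [← intervalIntegral.integral_neg]
    exact intervalIntegral.integral_congr fun θ _ => hodd θ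
  rw [h1, h2] at h3
  linarith

theorem continuous_sg' (r : ℝ) : Continuous (sg r) := by
  unfold sg
  fun_prop

theorem continuous_yy' (r : ℝ) : Continuous (yy r) := by
  unfold yy sg
  fun_prop

theorem integral_sin_zero (κ : ℕ) (a r : ℝ) :
    ∫ θ in (0 : ℝ)..2 * Real.pi, yy r θ ^ (2 * κ) * Real.sin (a * sg r θ) = 0 := by
  apply integral_eq_zero_of_odd
  · intro θ
    show yy r (θ + 2 * Real.pi) ^ (2 * κ) * Real.sin (a * sg r (θ + 2 * Real.pi)) = _
    rw [sg_add_two_pi, yy_add_two_pi]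
  · intro θ
    rw [sg_pi_sub, yy_pi_sub, mul_neg, Real.sin_neg, mul_neg]

/-- The average of `cos (L ψ) y ^ (2 κ)`. -/
theorem average_cos (m i κ : ℕ) (L r : ℝ) :
    ∫ θ in (0 : ℝ)..2 * Real.pi, Real.cos (L * ps m i r θ) * yy r θ ^ (2 * κ) =
      Real.cos (L * dl m i) * Wl κ r (Cf (L / m)) := by
  have hsg := continuous_sg' r
  have hyy := continuous_yy' r
  have h1 : ∀ θ, Real.cos (L * ps m i r θ) * yy r θ ^ (2 * κ) =
      Real.cos (L * dl m i) * (yy r θ ^ (2 * κ) * Real.cos (L / m * sg r θ)) -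
      (Real.sin (L * dl m i) * (-1) ^ (i + 1)) *
        (yy r θ ^ (2 * κ) * Real.sin (L / m * sg r θ)) := by
    intro θ
    have e1 : L * ps m i r θ = L * dl m i + (-1) ^ (i + 1) * (L / m * sg r θ) := by
      rw [ps]; ring
    rw [e1, Real.cos_add]
    rcases neg_one_pow_eq_or ℝ (i + 1) with h | h
    · rw [h]; simp only [one_mul, mul_one]; ring
    · rw [h]; simp only [neg_one_mul, Real.cos_neg, Real.sin_neg]; ring
  simp only [h1]
  rw [intervalIntegral.integral_sub, intervalIntegral.integral_const_mul,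
    intervalIntegral.integral_const_mul, integral_sin_zero, mul_zero, sub_zero, Wl_apply, W]
  · simp only [Cf_apply]
  · exact Continuous.intervalIntegrable (by fun_prop) _ _
  · exact Continuous.intervalIntegrable (by fun_prop) _ _

end Pool.Agent.MP48dd78
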