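import Mathlib

/-!
Differentiation of parametric integrals with continuous integrands.
-/

set_option autoImplicit false

namespace Pool.Agent.MP48dd78

open Set Filter Topology MeasureTheory

/-- Differentiation under the integral sign for jointly continuous integrands. -/
theorem hasDerivAt_integral_param {𝕜 E : Type*} [RCLike 𝕜] [NormedAddCommGroup E]
    [NormedSpace ℝ E] [NormedSpace 𝕜 E] {U : Set 𝕜} (hU : IsOpen U) (F F' : 𝕜 → ℝ → E)
    (hF : ContinuousOn (Function.uncurry F) (U ×ˢ univ))
    (hF' : ContinuousOn (Function.uncurry F') (U ×ˢ univ))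
    (h : ∀ z ∈ U, ∀ θ, HasDerivAt (fun z => F z θ) (F' z θ) z) (a b : ℝ) (z : 𝕜) (hz : z ∈ U) :
    HasDerivAt (fun z => ∫ θ in a..b, F z θ) (∫ θ in a..b, F' z θ) z := by
  obtain ⟨ρ, hρ, hball⟩ := Metric.isOpen_iff.1 hU z hz
  have hK : IsCompact (Metric.closedBall z (ρ / 2) ×ˢ uIcc a b) :=
    (isCompact_closedBall z (ρ / 2)).prod isCompact_uIcc
  have hsub : Metric.closedBall z (ρ / 2) ⊆ U :=
    (Metric.closedBall_subset_ball (by linarith)).trans hball
  have hKU : Metric.closedBall z (ρ / 2) ×ˢ uIcc a b ⊆ U ×ˢ (univ : Set ℝ) :=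
    Set.prod_mono hsub (subset_univ _)
  obtain ⟨C, hC⟩ := hK.exists_bound_of_continuousOn (hF'.mono hKU)
  have hcont : ∀ w ∈ U, Continuous (F w) := by
    intro w hw
    rw [← continuousOn_univ]
    have : ContinuousOn (Function.uncurry F ∘ fun θ => (w, θ)) univ :=
      hF.comp (by fun_prop) (fun θ _ => ⟨hw, mem_univ _⟩)
    exact this
  have hcont' : ∀ w ∈ U, Continuous (F' w) := by
    intro w hw
    rw [← continuousOn_univ]
    have : ContinuousOn (Function.uncurry F' ∘ fun θ => (w, θ)) univ :=
      hF'.comp (by fun_prop) (fun θ _ => ⟨hw, mem_univ _⟩)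
    exact this
  refine (intervalIntegral.hasDerivAt_integral_of_dominated_loc_of_deriv_le
    (s := Metric.closedBall z (ρ / 2)) (bound := fun _ => C) (Metric.closedBall_mem_nhds z (by linarith))
    ?_ ?_ ?_ ?_ ?_ ?_).2
  · filter_upwards [hU.mem_nhds hz] with w hw
    exact (hcont w hw).aestronglyMeasurable
  · exact (hcont z hz).intervalIntegrable _ _
  · exact (hcont' z hz).aestronglyMeasurable
  · refine Eventually.of_forall fun t ht x hx => ?_
    exact hC (x, t) ⟨hx, uIoc_subset_uIcc ht⟩
  · exact intervalIntegrable_const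
  · exact Eventually.of_forall fun t _ x hx => h x (hsub hx) t

end Pool.Agent.MP48dd78
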