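import Pool.Agent.Lib.MP_48dd78_an.Defs
import Pool.Agent.Lib.MP_48dd78_an.Param

/-!
The averages over the orbits and two identities for them.
-/

set_option autoImplicit false

namespace Pool.Agent.MP48dd78

open Set Filter Topology MeasureTheory

/-! ### Derivatives of the coordinates -/

theorem tan_sg (r θ : ℝ) : Real.tan (sg r θ) = r * Real.cos θ := Real.tan_arctan _

theorem cos_sg_pos (r θ : ℝ) : 0 < Real.cos (sg r θ) := Real.cos_arctan_pos _

theorem sin_sg (r θ : ℝ) : Real.sin (sg r θ) = r * Real.cos θ * Real.cos (sg r θ) := by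
  have h := Real.tan_mul_cos (cos_sg_pos r θ).ne'
  rw [tan_sg] at h
  exact h.symm

theorem one_div_one_add (r θ : ℝ) :
    1 / (1 + (r * Real.cos θ) ^ 2) = Real.cos (sg r θ) ^ 2 := by
  rw [sg, Real.cos_sq_arctan]

theorem hasDerivAt_sg_r (r θ : ℝ) :
    HasDerivAt (fun r => sg r θ) (Real.cos θ * Real.cos (sg r θ) ^ 2) r := by
  have h1 : HasDerivAt (fun r : ℝ => r * Real.cos θ) (Real.cos θ) r := by
    simpa using (hasDerivAt_id r).mul_const (Real.cos θ)
  have h2 := h1.arctan
  rw [one_div_one_add] at h2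
  rw [mul_comm]
  exact h2

theorem hasDerivAt_sg_θ (r θ : ℝ) :
    HasDerivAt (fun θ => sg r θ) (-(yy r θ * Real.cos (sg r θ))) θ := by
  have h1 : HasDerivAt (fun θ : ℝ => r * Real.cos θ) (r * -Real.sin θ) θ :=
    (Real.hasDerivAt_cos θ).const_mul r
  have h2 := h1.arctan
  rw [one_div_one_add] at h2
  have : -(yy r θ * Real.cos (sg r θ)) = Real.cos (sg r θ) ^ 2 * (r * -Real.sin θ) := by
    rw [yy]; ring
  rw [this]
  exact h2

theorem hasDerivAt_yy_r (r θ : ℝ) :
    HasDerivAt (fun r => yy r θ) (Real.sin θ * Real.cos (sg r θ) -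
      r * Real.sin θ * (Real.sin (sg r θ) * (Real.cos θ * Real.cos (sg r θ) ^ 2))) r := by
  have h1 : HasDerivAt (fun r : ℝ => r * Real.sin θ) (Real.sin θ) r := by
    simpa using (hasDerivAt_id r).mul_const (Real.sin θ)
  have h2 := (hasDerivAt_sg_r r θ).cos
  have h3 := h1.mul h2
  have : Real.sin θ * Real.cos (sg r θ) -
      r * Real.sin θ * (Real.sin (sg r θ) * (Real.cos θ * Real.cos (sg r θ) ^ 2)) =
      Real.sin θ * Real.cos (sg r θ) +
        r * Real.sin θ * (-Real.sin (sg r θ) * (Real.cos θ * Real.cos (sg r θ) ^ 2)) := by ring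
  rw [this]
  exact h3

theorem hasDerivAt_yy_θ (r θ : ℝ) :
    HasDerivAt (fun θ => yy r θ) (Real.sin (sg r θ) * (1 + yy r θ ^ 2)) θ := by
  have h1 : HasDerivAt (fun θ : ℝ => r * Real.sin θ) (r * Real.cos θ) θ :=
    (Real.hasDerivAt_sin θ).const_mul r
  have h2 := (hasDerivAt_sg_θ r θ).cos
  have h3 := h1.mul h2
  have : Real.sin (sg r θ) * (1 + yy r θ ^ 2) =
      r * Real.cos θ * Real.cos (sg r θ) +
        r * Real.sin θ * (-Real.sin (sg r θ) * -(yy r θ * Real.cos (sg r θ))) := by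
    have h4 := sin_sg r θ
    rw [← h4, yy]
    ring
  rw [this]
  exact h3

theorem continuous_sg : Continuous (Function.uncurry sg) := by
  unfold Function.uncurry sg
  fun_prop

theorem continuous_yy : Continuous (Function.uncurry yy) := by
  unfold Function.uncurry yy sg
  fun_prop

/-! ### The averages -/

/-- The average of `φ(σ) y ^ (2 κ)` over the orbit with parameter `r`. -/
noncomputable def W (κ : ℕ) (φ : ℝ → ℝ) (r : ℝ) : ℝ :=
  ∫ θ in (0 : ℝ)..2 * Real.pi, yy r θ ^ (2 * κ) * φ (sg r θ)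

/-- The operator `M`. -/
noncomputable def Mop (κ : ℕ) (φ : ℝ → ℝ) (σ : ℝ) : ℝ :=
  Real.sin σ * Real.cos σ * deriv φ σ + 2 * κ * Real.cos σ ^ 2 * φ σ

theorem W_hasDerivAt (κ : ℕ) (φ : ℝ → ℝ) (hφ : ContDiff ℝ 1 φ) (r : ℝ) (hr : 0 < r) :
    HasDerivAt (W κ φ) (r⁻¹ * W κ (Mop κ φ) r) r := by
  have hφc : Continuous φ := hφ.continuous
  have hφ' : Continuous (deriv φ) := hφ.continuous_deriv (le_refl _)
  have hφd : ∀ σ, HasDerivAt φ (deriv φ σ) σ := fun σ =>
    (hφ.differentiable (by norm_num) σ).hasDerivAt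
  have hsg := continuous_sg
  have hyy := continuous_yy
  have hMc : Continuous (Mop κ φ) := by
    unfold Mop
    fun_prop
  have h := hasDerivAt_integral_param (𝕜 := ℝ) (U := Ioi 0) isOpen_Ioi
    (fun r θ => yy r θ ^ (2 * κ) * φ (sg r θ))
    (fun r θ => r⁻¹ * (yy r θ ^ (2 * κ) * Mop κ φ (sg r θ)))
    ?_ ?_ ?_ 0 (2 * Real.pi) r hr
  · rw [intervalIntegral.integral_const_mul] at h
    exact h
  · apply Continuous.continuousOn
    unfold Function.uncurry at hsg hyy ⊢
    fun_prop
  · unfold Function.uncurry at hsg hyy ⊢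
    apply ContinuousOn.mul
    · apply ContinuousOn.inv₀
      · fun_prop
      · rintro ⟨x, y⟩ ⟨hx, _⟩
        have hx' : (0 : ℝ) < x := hx
        exact hx'.ne'
    · apply Continuous.continuousOn
      fun_prop
  · intro r hr θ
    have hr' : r ≠ 0 := by
      have : (0 : ℝ) < r := hr
      exact this.ne'
    have h1 := (hasDerivAt_yy_r r θ).pow (2 * κ)
    have h2 := (hφd (sg r θ)).comp r (hasDerivAt_sg_r r θ)
    have h3 := h1.mul h2
    refine h3.congr_deriv ?_
    have hs := sin_sg r θ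
    simp only [Mop, Pi.pow_apply, Function.comp_apply]
    set c : ℝ := Real.cos (sg r θ) with hc
    set s : ℝ := Real.sin (sg r θ) with hs'
    set d : ℝ := deriv φ (sg r θ) with hd
    set f : ℝ := φ (sg r θ) with hf
    have hsc : s ^ 2 + c ^ 2 = 1 := Real.sin_sq_add_cos_sq _
    have hy : yy r θ = r * Real.sin θ * c := rfl
    have hA : r * (Real.sin θ * c - r * Real.sin θ * (s * (Real.cos θ * c ^ 2))) =
        yy r θ * c ^ 2 := by
      have : r * Real.cos θ * c = s := hs.symm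
      calc r * (Real.sin θ * c - r * Real.sin θ * (s * (Real.cos θ * c ^ 2)))
          = r * Real.sin θ * c * (1 - s * (r * Real.cos θ * c)) := by ring
        _ = r * Real.sin θ * c * (s ^ 2 + c ^ 2 - s * s) := by rw [this, hsc]
        _ = yy r θ * c ^ 2 := by rw [hy]; ring
    have hB : r * (Real.cos θ * c ^ 2) = s * c := by
      rw [hs]; ring
    rw [eq_inv_mul_iff_mul_eq₀ hr']
    generalize Real.sin θ * c - r * Real.sin θ * (s * (Real.cos θ * c ^ 2)) = Dy at hA ⊢
    generalize Real.cos θ * c ^ 2 = Ds at hB ⊢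
    rcases Nat.eq_zero_or_pos κ with hκ | hκ
    · subst hκ
      simp only [mul_zero, pow_zero, Nat.cast_zero, zero_mul]
      linear_combination d * hB
    · obtain ⟨k, rfl⟩ : ∃ k, κ = k + 1 := ⟨κ - 1, by omega⟩
      have e1 : 2 * (k + 1) - 1 = 2 * k + 1 := by omega
      rw [e1]
      push_cast
      linear_combination (2 * ((k : ℝ) + 1) * yy r θ ^ (2 * k + 1) * f) * hA +
        yy r θ ^ (2 * (k + 1)) * d * hB

theorem continuous_sg_right (r : ℝ) : Continuous (sg r) :=
  continuous_sg.comp (by fun_prop : Continuous fun θ : ℝ => (r, θ))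

theorem continuous_yy_right (r : ℝ) : Continuous (yy r) :=
  continuous_yy.comp (by fun_prop : Continuous fun θ : ℝ => (r, θ))

theorem W_integrable (κ : ℕ) (φ : ℝ → ℝ) (hφ : Continuous φ) (r : ℝ) :
    IntervalIntegrable (fun θ => yy r θ ^ (2 * κ) * φ (sg r θ)) volume
      0 (2 * Real.pi) := by
  apply Continuous.intervalIntegrable
  have h1 := continuous_sg_right r
  have h2 := continuous_yy_right r
  fun_prop

theorem W_add (κ : ℕ) (φ ψ : ℝ → ℝ) (hφ : Continuous φ) (hψ : Continuous ψ) (r : ℝ) :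
    W κ (fun σ => φ σ + ψ σ) r = W κ φ r + W κ ψ r := by
  unfold W
  rw [← intervalIntegral.integral_add (W_integrable κ φ hφ r) (W_integrable κ ψ hψ r)]
  congr 1
  funext θ
  ring

theorem W_smul (κ : ℕ) (c : ℝ) (φ : ℝ → ℝ) (r : ℝ) :
    W κ (fun σ => c * φ σ) r = c * W κ φ r := by
  unfold W
  rw [← intervalIntegral.integral_const_mul]
  congr 1
  funext θ
  ring

theorem W_parts (κ : ℕ) (φ : ℝ → ℝ) (hφ : ContDiff ℝ 1 φ) (r : ℝ) :
    W (κ + 1) (fun σ => Mop (κ + 1) φ σ - (2 * κ + 1) * φ σ) r =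
      (2 * κ + 1) * W κ (fun σ => Real.sin σ ^ 2 * φ σ) r := by
  have hφc : Continuous φ := hφ.continuous
  have hφ' : Continuous (deriv φ) := hφ.continuous_deriv (le_refl _)
  have hφd : ∀ σ, HasDerivAt φ (deriv φ σ) σ := fun σ =>
    (hφ.differentiable (by norm_num) σ).hasDerivAt
  have h1 := continuous_sg_right r
  have h2 := continuous_yy_right r
  have hMc : Continuous (Mop (κ + 1) φ) := by
    unfold Mop
    fun_prop
  have key : ∫ θ in (0 : ℝ)..2 * Real.pi,
      ((2 * κ + 1) * (yy r θ ^ (2 * κ) * (Real.sin (sg r θ) ^ 2 * φ (sg r θ))) -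
      yy r θ ^ (2 * (κ + 1)) *
        (Mop (κ + 1) φ (sg r θ) - (2 * κ + 1) * φ (sg r θ))) = 0 := by
    have hd : ∀ θ ∈ uIcc (0 : ℝ) (2 * Real.pi), HasDerivAt
        (fun θ => yy r θ ^ (2 * κ + 1) * (Real.sin (sg r θ) * φ (sg r θ)))
        ((2 * κ + 1) * (yy r θ ^ (2 * κ) * (Real.sin (sg r θ) ^ 2 * φ (sg r θ))) -
      yy r θ ^ (2 * (κ + 1)) *
        (Mop (κ + 1) φ (sg r θ) - (2 * κ + 1) * φ (sg r θ))) θ := by
      intro θ _
      have d1 := (hasDerivAt_yy_θ r θ).pow (2 * κ + 1)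
      have d2 := (hasDerivAt_sg_θ r θ).sin
      have d3 := (hφd (sg r θ)).comp θ (hasDerivAt_sg_θ r θ)
      have d4 := d1.mul (d2.mul d3)
      refine d4.congr_deriv ?_
      simp only [Mop, Pi.pow_apply, Pi.mul_apply, Function.comp_apply]
      have hsc : Real.sin (sg r θ) ^ 2 + Real.cos (sg r θ) ^ 2 = 1 :=
        Real.sin_sq_add_cos_sq _
      push_cast
      generalize Real.sin (sg r θ) = s at hsc ⊢
      generalize Real.cos (sg r θ) = c at hsc ⊢
      generalize φ (sg r θ) = f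
      generalize deriv φ (sg r θ) = f'
      generalize yy r θ = y
      linear_combination ((2 * (κ : ℝ) + 1) * y ^ (2 * κ + 2) * f) * hsc
    rw [intervalIntegral.integral_eq_sub_of_hasDerivAt hd]
    · have e1 : yy r (2 * Real.pi) = 0 := by simp [yy]
      have e2 : yy r 0 = 0 := by simp [yy]
      rw [e1, e2]
      simp
    · apply Continuous.intervalIntegrable
      fun_prop
  rw [intervalIntegral.integral_sub] at key
  · rw [intervalIntegral.integral_const_mul] at key
    unfold W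
    exact (sub_eq_zero.1 key).symm
  · apply Continuous.intervalIntegrable
    fun_prop
  · apply Continuous.intervalIntegrable
    fun_prop

end Pool.Agent.MP48dd78
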