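import Pool.Agent.Lib.MP_48dd78_an.Incr

/-!
The choice of the small parameters `η` and `ε`.
-/

set_option autoImplicit false

namespace Pool.Agent.MP48dd78

open Set Filter Topology MeasureTheory

theorem eventually_eta (x : ℕ → ℝ) (s N : ℕ) (hs : s < N) (h0 : ∀ j < s, x j = 0)
    (hx : 0 < x s) : ∀ᶠ η in 𝓝[>] (0 : ℝ), 0 < ∑ j ∈ Finset.range N, η ^ j * x j := by
  have h1 : ∀ η : ℝ, ∑ j ∈ Finset.range N, η ^ j * x j =
      η ^ s * ∑ j ∈ Finset.Ico s N, η ^ (j - s) * x j := by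
    intro η
    rw [← Finset.sum_range_add_sum_Ico _ hs.le, Finset.mul_sum]
    rw [Finset.sum_eq_zero (s := Finset.range s) (fun j hj => by
      rw [h0 j (Finset.mem_range.1 hj), mul_zero]), zero_add]
    refine Finset.sum_congr rfl fun j hj => ?_
    rw [← mul_assoc, ← pow_add]
    congr 2
    have := (Finset.mem_Ico.1 hj).1
    omega
  have h2 : Continuous fun η : ℝ => ∑ j ∈ Finset.Ico s N, η ^ (j - s) * x j := by fun_prop
  have h3 : ∑ j ∈ Finset.Ico s N, (0 : ℝ) ^ (j - s) * x j = x s := by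
    rw [Finset.sum_eq_single s]
    · rw [Nat.sub_self, pow_zero, one_mul]
    · intro j hj hjs
      have := (Finset.mem_Ico.1 hj).1
      rw [zero_pow (by omega), zero_mul]
    · intro h
      exact absurd (Finset.mem_Ico.2 ⟨le_refl _, hs⟩) h
  have h4 : ∀ᶠ η in 𝓝 (0 : ℝ), 0 < ∑ j ∈ Finset.Ico s N, η ^ (j - s) * x j := by
    have := h2.tendsto 0
    rw [h3] at this
    exact this.eventually_const_lt hx
  filter_upwards [h4.filter_mono nhdsWithin_le_nhds, self_mem_nhdsWithin] with η h5 h6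
  rw [h1]
  exact mul_pos (pow_pos h6 _) h5

theorem hasDerivAt_eps (Q : ℝ → ℝ) (hQ : Continuous Q) (M : ℝ) (hM : ∀ θ, |Q θ| ≤ M) :
    HasDerivAt (fun ε => ∫ θ in (0 : ℝ)..2 * Real.pi, 1 / (1 + ε * Q θ))
      (-∫ θ in (0 : ℝ)..2 * Real.pi, Q θ) 0 := by
  have hM0 : 0 ≤ M := (abs_nonneg _).trans (hM 0)
  have hpos : ∀ ε ∈ Ioo (-(1 / (M + 1))) (1 / (M + 1)), ∀ θ, 0 < 1 + ε * Q θ := by
    intro ε hε θ
    have h1 : |ε| < 1 / (M + 1) := abs_lt.2 hε
    have h2 : |ε * Q θ| ≤ |ε| * M := by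
      rw [abs_mul]
      exact mul_le_mul_of_nonneg_left (hM θ) (abs_nonneg _)
    have h3 : |ε| * (M + 1) < 1 := (lt_div_iff₀ (by linarith)).1 h1
    have h4 : |ε * Q θ| < 1 := by nlinarith [abs_nonneg ε]
    have h5 := (abs_lt.1 h4).1
    linarith
  have h := hasDerivAt_integral_param (𝕜 := ℝ) (U := Ioo (-(1 / (M + 1))) (1 / (M + 1)))
    isOpen_Ioo (fun ε θ => 1 / (1 + ε * Q θ)) (fun ε θ => -Q θ / (1 + ε * Q θ) ^ 2)
    ?_ ?_ ?_ 0 (2 * Real.pi) 0 ?_
  · have e1 : ∫ θ in (0 : ℝ)..2 * Real.pi, -Q θ / (1 + 0 * Q θ) ^ 2 =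
        -∫ θ in (0 : ℝ)..2 * Real.pi, Q θ := by
      rw [← intervalIntegral.integral_neg]
      refine intervalIntegral.integral_congr fun θ _ => ?_
      simp
    rw [e1] at h
    exact h
  · apply ContinuousOn.div
    · fun_prop
    · fun_prop
    · rintro ⟨ε, θ⟩ ⟨hε, _⟩
      exact (hpos ε hε θ).ne'
  · apply ContinuousOn.div
    · fun_prop
    · fun_prop
    · rintro ⟨ε, θ⟩ ⟨hε, _⟩
      exact pow_ne_zero _ (hpos ε hε θ).ne'
  · intro ε hε θ
    have h1 : HasDerivAt (fun ε : ℝ => 1 + ε * Q θ) (Q θ) ε := by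
      simpa using ((hasDerivAt_id ε).mul_const (Q θ)).const_add 1
    have h2 := h1.fun_inv (hpos ε hε θ).ne'
    simp only [one_div]
    exact h2
  · constructor
    · have : 0 < 1 / (M + 1) := by positivity
      linarith
    · positivity

end Pool.Agent.MP48dd78
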