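import Mathlib

/-!
Definitions for the lower bound `T(n) ≥ C n² log n` for the maximal number of critical periods of
planar polynomial systems of degree `n` (problem MP_48dd78_an).
-/

set_option autoImplicit false

namespace Pool.Agent.MP48dd78

open Set Filter Topology

/-- The planar polynomial vector field `(x, y) ↦ (P (x, y), Q (x, y))`. -/
noncomputable def vf (P Q : MvPolynomial (Fin 2) ℝ) (z : ℝ × ℝ) : ℝ × ℝ :=
  (MvPolynomial.eval ![z.1, z.2] P, MvPolynomial.eval ![z.1, z.2] Q)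

/-- `φ` is a (non-constant) periodic solution of `z' = X z` with minimal period `T`. -/
structure IsPeriodicSol (X : ℝ × ℝ → ℝ × ℝ) (φ : ℝ → ℝ × ℝ) (T : ℝ) : Prop where
  sol : ∀ t, HasDerivAt φ (X (φ t)) t
  pos : 0 < T
  per : ∀ t, φ (t + T) = φ t
  min : ∀ S, 0 < S → (∀ t, φ (t + S) = φ t) → T ≤ S

/-- A smooth one-parameter continuum of periodic orbits `γ s`, `s ∈ (0, b)`, of `z' = X z`, which
ends (as `s → 0`) at the equilibrium `p` (a center), with its period function `T` (`T s` is the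
minimal period of `γ s`). The starting points `γ s 0` form a smooth (even real analytic) arc
transversal to `X`, and different parameters give disjoint orbits. -/
structure Continuum (X : ℝ × ℝ → ℝ × ℝ) where
  /-- the equilibrium (the center) -/
  p : ℝ × ℝ
  /-- the parameters are those in `(0, b)` -/
  b : ℝ
  /-- `γ s` is a periodic solution -/
  γ : ℝ → ℝ → ℝ × ℝ
  /-- the period function -/
  T : ℝ → ℝ
  equilibrium : X p = 0
  b_pos : 0 < b
  periodic : ∀ s ∈ Ioo 0 b, IsPeriodicSol X (γ s) (T s)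
  smooth : ContDiffOn ℝ ⊤ (fun s => γ s 0) (Ioo 0 b)
  transversal : ∀ s ∈ Ioo 0 b, LinearIndependent ℝ ![deriv (fun s => γ s 0) s, X (γ s 0)]
  disjoint : ∀ s ∈ Ioo 0 b, ∀ s' ∈ Ioo 0 b, s ≠ s' → Disjoint (range (γ s)) (range (γ s'))
  ends : ∀ U ∈ 𝓝 p, ∀ᶠ s in 𝓝[>] 0, range (γ s) ⊆ U

/-- `s` is an isolated zero of the derivative `T'` of the period function. -/
def Continuum.IsCritical {X : ℝ × ℝ → ℝ × ℝ} (c : Continuum X) (s : ℝ) : Prop :=
  s ∈ Ioo 0 c.b ∧ (∀ᶠ u in 𝓝 s, DifferentiableAt ℝ c.T u) ∧ deriv c.T s = 0 ∧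
    ∀ᶠ u in 𝓝[≠] s, deriv c.T u ≠ 0

/-- The periodic orbits of `z' = X z` at which some period function has an isolated critical
point. -/
def criticalOrbits (X : ℝ × ℝ → ℝ × ℝ) : Set (Set (ℝ × ℝ)) :=
  {O | ∃ (c : Continuum X) (s : ℝ), c.IsCritical s ∧ O = range (c.γ s)}

/-- The maximal number of critical periods of planar polynomial systems of degree `n`. -/
noncomputable def calT (n : ℕ) : ℕ∞ :=
  ⨆ (P : MvPolynomial (Fin 2) ℝ) (Q : MvPolynomial (Fin 2) ℝ)
    (_ : max P.totalDegree Q.totalDegree = n), (criticalOrbits (vf P Q)).encard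

/-! ### The explicit centers -/

/-- The angle `σ = arctan (r cos θ)`. -/
noncomputable def sg (r θ : ℝ) : ℝ := Real.arctan (r * Real.cos θ)

/-- The second coordinate `y = r sin θ cos σ`. -/
noncomputable def yy (r θ : ℝ) : ℝ := r * Real.sin θ * Real.cos (sg r θ)

/-- The angle of the `i`-th center. -/
noncomputable def dl (m i : ℕ) : ℝ := (2 * i + 1) * Real.pi / (2 * m)

/-- The angle of the first coordinate. -/
noncomputable def ps (m i : ℕ) (r θ : ℝ) : ℝ := dl m i + (-1) ^ (i + 1) * (sg r θ / m)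

/-- The periodic orbits around the `i`-th center. -/
noncomputable def Ga (m i : ℕ) (r θ : ℝ) : ℝ × ℝ := (Real.cos (ps m i r θ), yy r θ)

/-- The folded isochronous vector field. -/
noncomputable def Zf (m : ℕ) (z : ℝ × ℝ) : ℝ × ℝ :=
  (-(z.2 * (1 - z.1 ^ 2) * (Polynomial.Chebyshev.U ℝ (m - 1)).eval z.1) / m,
    (Polynomial.Chebyshev.T ℝ m).eval z.1 * (1 + z.2 ^ 2))

end Pool.Agent.MP48dd78
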