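import Pool.Agent.Lib.MP_48dd78_an.Defs
import Pool.Agent.Lib.MP_48dd78_an.Avg

/-!
The dynamics: the orbits of the vector fields `g • Zf m` around the explicit centers, and their
minimal periods.
-/

set_option autoImplicit false

namespace Pool.Agent.MP48dd78

open Set Filter Topology MeasureTheory

/-! ### Change of time -/

/-- The time change `Θ' = h (Θ)` for a positive periodic function `h`. -/
theorem exists_time_change (h : ℝ → ℝ) (P : ℝ) (hP : 0 < P) (hc : Continuous h)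
    (hpos : ∀ θ, 0 < h θ) (hper : Function.Periodic h P) :
    ∃ Θ : ℝ → ℝ, Θ 0 = 0 ∧ (∀ t, HasDerivAt Θ (h (Θ t)) t) ∧ Function.Surjective Θ ∧
      StrictMono Θ ∧ 0 < (∫ θ in (0 : ℝ)..P, 1 / h θ) ∧
      ∀ t, Θ (t + ∫ θ in (0 : ℝ)..P, 1 / h θ) = Θ t + P := by
  have hne : ∀ θ, h θ ≠ 0 := fun θ => (hpos θ).ne'
  have hc1 : Continuous fun θ => 1 / h θ := continuous_const.div hc hne
  have hpos1 : ∀ θ, 0 < 1 / h θ := fun θ => one_div_pos.2 (hpos θ)
  have hper1 : Function.Periodic (fun θ => 1 / h θ) P := by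
    intro θ
    show 1 / h (θ + P) = 1 / h θ
    rw [hper θ]
  have hF : ∀ θ, HasDerivAt (fun θ => ∫ t in (0 : ℝ)..θ, 1 / h t) (1 / h θ) θ := fun θ =>
    intervalIntegral.integral_hasDerivAt_right (hc1.intervalIntegrable _ _)
      hc1.stronglyMeasurable.stronglyMeasurableAtFilter hc1.continuousAt
  have hmono : StrictMono fun θ => ∫ t in (0 : ℝ)..θ, 1 / h t :=
    strictMono_of_hasDerivAt_pos hF hpos1
  have hTpos : 0 < ∫ θ in (0 : ℝ)..P, 1 / h θ := by
    have h1 := hmono hP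
    simpa using h1
  have hcont : Continuous fun θ => ∫ t in (0 : ℝ)..θ, 1 / h t :=
    continuous_iff_continuousAt.2 fun θ => (hF θ).continuousAt
  have hsurj : Function.Surjective fun θ => ∫ t in (0 : ℝ)..θ, 1 / h t :=
    hcont.surjective (hper1.tendsto_atTop_intervalIntegral_of_pos hTpos hP)
      (hper1.tendsto_atBot_intervalIntegral_of_pos hTpos hP)
  let e : ℝ ≃o ℝ := hmono.orderIsoOfSurjective _ hsurj
  have he : ∀ θ, e θ = ∫ t in (0 : ℝ)..θ, 1 / h t := fun θ => rfl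
  refine ⟨e.symm, ?_, ?_, e.symm.surjective, e.symm.strictMono, hTpos, ?_⟩
  · rw [OrderIso.symm_apply_eq, he]
    simp
  · intro t
    have h1 := HasDerivAt.of_local_left_inverse (f := fun θ => ∫ t in (0 : ℝ)..θ, 1 / h t)
      (g := e.symm) (a := t) (e.symm.continuous.continuousAt) (hF (e.symm t))
      (hpos1 _).ne' (Eventually.of_forall fun y => e.apply_symm_apply y)
    simpa using h1
  · intro t
    rw [OrderIso.symm_apply_eq, he]
    have h2 : (∫ x in (0 : ℝ)..e.symm t + P, 1 / h x) =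
        (∫ x in (0 : ℝ)..e.symm t, 1 / h x) + ∫ x in (e.symm t)..e.symm t + P, 1 / h x :=
      (intervalIntegral.integral_add_adjacent_intervals (hc1.intervalIntegrable _ _)
        (hc1.intervalIntegrable _ _)).symm
    rw [h2, hper1.intervalIntegral_add_eq (e.symm t) 0, zero_add, ← he (e.symm t),
      OrderIso.apply_symm_apply]

/-! ### The explicit orbits -/

theorem abs_arctan_le (x : ℝ) : |Real.arctan x| ≤ |x| := by
  have key : ∀ y : ℝ, 0 ≤ y → Real.arctan y ≤ y := by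
    intro y hy
    have h1 : MonotoneOn (fun y : ℝ => y - Real.arctan y) (Ici 0) := by
      apply monotoneOn_of_deriv_nonneg (convex_Ici 0)
      · exact (continuous_id.sub Real.continuous_arctan).continuousOn
      · exact (differentiable_id.sub Real.differentiable_arctan).differentiableOn
      · intro y _
        have h2 : HasDerivAt (fun y : ℝ => y - Real.arctan y) (1 - 1 / (1 + y ^ 2)) y :=
          (hasDerivAt_id y).sub (Real.hasDerivAt_arctan y)
        rw [h2.deriv]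
        have h3 : 1 / (1 + y ^ 2) ≤ 1 := by
          rw [div_le_one (by positivity)]
          nlinarith [sq_nonneg y]
        linarith
    have h4 := h1 (mem_Ici.2 le_rfl) (mem_Ici.2 hy) hy
    simp only [Real.arctan_zero] at h4
    linarith
  rcases le_total 0 x with hx | hx
  · rw [abs_of_nonneg hx, abs_of_nonneg (Real.arctan_nonneg.2 hx)]
    exact key x hx
  · have h5 := key (-x) (by linarith)
    rw [Real.arctan_neg] at h5
    rw [abs_of_nonpos hx, abs_of_nonpos (Real.arctan_le_zero.2 hx)]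
    exact h5

theorem abs_sg_le (r θ : ℝ) : |sg r θ| ≤ |r| := by
  refine (abs_arctan_le _).trans ?_
  rw [abs_mul]
  exact mul_le_of_le_one_right (abs_nonneg _) (Real.abs_cos_le_one _)

theorem abs_yy_le (r θ : ℝ) : |yy r θ| ≤ |r| := by
  rw [yy, abs_mul, abs_mul, mul_assoc]
  refine mul_le_of_le_one_right (abs_nonneg _) ?_
  exact mul_le_one₀ (Real.abs_sin_le_one _) (abs_nonneg _) (Real.abs_cos_le_one _)

theorem abs_sg_lt (r θ : ℝ) : |sg r θ| < Real.pi / 2 := by
  rw [abs_lt]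
  exact ⟨Real.neg_pi_div_two_lt_arctan _, Real.arctan_lt_pi_div_two _⟩

theorem abs_neg_one_pow_mul (i : ℕ) (x : ℝ) : |(-1) ^ i * x| = |x| := by
  rw [abs_mul, abs_pow, abs_neg, abs_one, one_pow, one_mul]

theorem ps_bounds (m i : ℕ) (hm : 0 < m) (r θ : ℝ) :
    (i : ℝ) * Real.pi < m * ps m i r θ ∧ m * ps m i r θ < (i + 1) * Real.pi := by
  have hm' : (0 : ℝ) < m := by exact_mod_cast hm
  have h1 : (m : ℝ) * ps m i r θ = (2 * i + 1) * Real.pi / 2 + (-1) ^ (i + 1) * sg r θ := by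
    rw [ps, dl]
    field_simp
  have h2 : |(-1) ^ (i + 1) * sg r θ| < Real.pi / 2 := by
    rw [abs_neg_one_pow_mul]
    exact abs_sg_lt r θ
  rw [abs_lt] at h2
  rw [h1]
  constructor <;> linarith [h2.1, h2.2]

theorem m_mul_ps (m i : ℕ) (hm : 0 < m) (r θ : ℝ) :
    (m : ℝ) * ps m i r θ = (2 * i + 1) * Real.pi / 2 + (-1) ^ (i + 1) * sg r θ := by
  have hm' : (0 : ℝ) < m := by exact_mod_cast hm
  rw [ps, dl]
  field_simp

theorem ps_mem (m i : ℕ) (hi : i < m) (r θ : ℝ) : ps m i r θ ∈ Icc 0 Real.pi := by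
  have hm : 0 < m := by omega
  have hm' : (0 : ℝ) < m := by exact_mod_cast hm
  obtain ⟨h1, h2⟩ := ps_bounds m i hm r θ
  constructor
  · have h3 : (0 : ℝ) ≤ i * Real.pi := by positivity
    by_contra h4
    push Not at h4
    nlinarith
  · have h5 : ((i : ℝ) + 1) ≤ m := by exact_mod_cast hi
    have h6 : ((i : ℝ) + 1) * Real.pi ≤ m * Real.pi :=
      mul_le_mul_of_nonneg_right h5 Real.pi_pos.le
    have h7 : (m : ℝ) * ps m i r θ ≤ m * Real.pi := by linarith
    exact le_of_mul_le_mul_left h7 hm'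

theorem cos_half (i : ℕ) : Real.cos ((2 * i + 1) * Real.pi / 2) = 0 := by
  rw [Real.cos_eq_zero_iff]
  exact ⟨i, by push_cast; ring⟩

theorem sin_half (i : ℕ) : Real.sin ((2 * i + 1) * Real.pi / 2) = (-1) ^ i := by
  induction i with
  | zero => simp
  | succ n ih =>
    have : (2 * ((n + 1 : ℕ) : ℝ) + 1) * Real.pi / 2 = (2 * n + 1) * Real.pi / 2 + Real.pi := by
      push_cast
      ring
    rw [this, Real.sin_add_pi, ih, pow_succ]
    ring

theorem neg_one_pow_succ_mul (i : ℕ) : ((-1 : ℝ)) ^ i * (-1) ^ (i + 1) = -1 := by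
  rw [← pow_add]
  have : i + (i + 1) = 2 * i + 1 := by ring
  rw [this, pow_succ, pow_mul]
  norm_num

theorem cos_neg_one_pow_mul (i : ℕ) (x : ℝ) : Real.cos ((-1) ^ i * x) = Real.cos x := by
  rcases neg_one_pow_eq_or ℝ i with h | h <;> rw [h] <;> simp

theorem sin_neg_one_pow_mul (i : ℕ) (x : ℝ) :
    Real.sin ((-1) ^ i * x) = (-1) ^ i * Real.sin x := by
  rcases neg_one_pow_eq_or ℝ i with h | h <;> rw [h] <;> simp

theorem sin_m_ps (m i : ℕ) (hm : 0 < m) (r θ : ℝ) :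
    Real.sin (m * ps m i r θ) = (-1) ^ i * Real.cos (sg r θ) := by
  rw [m_mul_ps m i hm, Real.sin_add, sin_half, cos_half, cos_neg_one_pow_mul]
  ring

theorem cos_m_ps (m i : ℕ) (hm : 0 < m) (r θ : ℝ) :
    Real.cos (m * ps m i r θ) = Real.sin (sg r θ) := by
  rw [m_mul_ps m i hm, Real.cos_add, sin_half, cos_half, sin_neg_one_pow_mul]
  have := neg_one_pow_succ_mul i
  linear_combination (-Real.sin (sg r θ)) * this

theorem Zf_Ga (m i : ℕ) (hm : 0 < m) (r θ : ℝ) :
    Zf m (Ga m i r θ) =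
      ((-1) ^ (i + 1) * (Real.sin (ps m i r θ) * (yy r θ * Real.cos (sg r θ))) / m,
        Real.sin (sg r θ) * (1 + yy r θ ^ 2)) := by
  have h1 := Polynomial.Chebyshev.U_real_cos (ps m i r θ) ((m : ℤ) - 1)
  have h2 := Polynomial.Chebyshev.T_real_cos (ps m i r θ) (m : ℤ)
  have h3 : ((((m : ℤ) - 1 : ℤ) : ℝ) + 1) = (m : ℝ) := by push_cast; ring
  have h4 : (((m : ℤ)) : ℝ) = (m : ℝ) := by push_cast; rfl
  rw [h3, sin_m_ps m i hm] at h1
  rw [h4, cos_m_ps m i hm] at h2
  have h5 : 1 - Real.cos (ps m i r θ) ^ 2 = Real.sin (ps m i r θ) ^ 2 := by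
    have := Real.sin_sq_add_cos_sq (ps m i r θ)
    linarith
  rw [Zf, Ga, Prod.mk.injEq]
  constructor
  · show -(yy r θ * (1 - Real.cos (ps m i r θ) ^ 2) *
      Polynomial.eval (Real.cos (ps m i r θ)) (Polynomial.Chebyshev.U ℝ ((m : ℤ) - 1))) / m = _
    rw [h5]
    congr 1
    rw [pow_succ (-1 : ℝ) i]
    linear_combination (-(yy r θ * Real.sin (ps m i r θ))) * h1
  · show Polynomial.eval (Real.cos (ps m i r θ)) (Polynomial.Chebyshev.T ℝ (m : ℤ)) *
      (1 + yy r θ ^ 2) = _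
    rw [h2]

theorem hasDerivAt_Ga (m i : ℕ) (hm : 0 < m) (r θ : ℝ) :
    HasDerivAt (Ga m i r) (Zf m (Ga m i r θ)) θ := by
  rw [Zf_Ga m i hm]
  have h1 : HasDerivAt (fun θ => ps m i r θ)
      ((-1) ^ (i + 1) * (-(yy r θ * Real.cos (sg r θ)) / m)) θ := by
    have := (((hasDerivAt_sg_θ r θ).div_const (m : ℝ)).const_mul
      ((-1 : ℝ) ^ (i + 1))).const_add (dl m i)
    exact this
  have h2 := h1.cos
  have h3 := h2.prodMk (hasDerivAt_yy_θ r θ)
  refine h3.congr_deriv ?_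
  rw [Prod.mk.injEq]
  refine ⟨?_, rfl⟩
  ring

theorem Ga_periodic (m i : ℕ) (r : ℝ) : Function.Periodic (Ga m i r) (2 * Real.pi) := by
  intro θ
  simp only [Ga, ps, yy, sg, Real.cos_add_two_pi, Real.sin_add_two_pi]

theorem continuous_Ga (m i : ℕ) (hm : 0 < m) (r : ℝ) : Continuous (Ga m i r) :=
  continuous_iff_continuousAt.2 fun θ => (hasDerivAt_Ga m i hm r θ).continuousAt

theorem Ga_inj (m i j : ℕ) (hi : i < m) (hj : j < m) (r s θ θ' : ℝ)
    (h : Ga m i r θ = Ga m j s θ') :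
    i = j ∧ r * Real.cos θ = s * Real.cos θ' ∧ r * Real.sin θ = s * Real.sin θ' := by
  have hm : 0 < m := by omega
  have hm' : (0 : ℝ) < m := by exact_mod_cast hm
  rw [Ga, Ga, Prod.mk.injEq] at h
  have h1 : ps m i r θ = ps m j s θ' :=
    Real.injOn_cos (ps_mem m i hi r θ) (ps_mem m j hj s θ') h.1
  obtain ⟨a1, a2⟩ := ps_bounds m i hm r θ
  obtain ⟨b1, b2⟩ := ps_bounds m j hm s θ'
  have hij : i = j := by
    rw [h1] at a1 a2
    have c1 : (i : ℝ) * Real.pi < (j + 1) * Real.pi := a1.trans b2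
    have c2 : (j : ℝ) * Real.pi < (i + 1) * Real.pi := b1.trans a2
    have d1 : (i : ℝ) < j + 1 := lt_of_mul_lt_mul_right c1 Real.pi_pos.le
    have d2 : (j : ℝ) < i + 1 := lt_of_mul_lt_mul_right c2 Real.pi_pos.le
    have e1 : i < j + 1 := by exact_mod_cast d1
    have e2 : j < i + 1 := by exact_mod_cast d2
    omega
  subst hij
  have h2 : (m : ℝ) * ps m i r θ = m * ps m i s θ' := by rw [h1]
  rw [m_mul_ps m i hm, m_mul_ps m i hm, add_right_inj] at h2
  have h3 : sg r θ = sg s θ' :=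
    mul_left_cancel₀ (pow_ne_zero _ (by norm_num : (-1 : ℝ) ≠ 0)) h2
  have h4 : r * Real.cos θ = s * Real.cos θ' := Real.arctan_injective h3
  have h5 := h.2
  rw [yy, yy, h3] at h5
  exact ⟨rfl, h4, mul_right_cancel₀ (cos_sg_pos s θ').ne' h5⟩

theorem range_Ga_ne (m : ℕ) (_hm : Odd m) (i j : ℕ) (hi : i < m) (hj : j < m) (r s : ℝ)
    (hr : 0 < r) (hs : 0 < s) (h : (i, r) ≠ (j, s)) :
    Disjoint (range (Ga m i r)) (range (Ga m j s)) := by
  rw [Set.disjoint_left]
  rintro z ⟨θ, hθ⟩ ⟨θ', hθ'⟩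
  obtain ⟨h1, h2, h3⟩ := Ga_inj m i j hi hj r s θ θ' (hθ.trans hθ'.symm)
  apply h
  rw [Prod.mk.injEq]
  refine ⟨h1, ?_⟩
  have h4 : r ^ 2 = s ^ 2 := by
    have e1 := Real.sin_sq_add_cos_sq θ
    have e2 := Real.sin_sq_add_cos_sq θ'
    calc r ^ 2 = (r * Real.cos θ) ^ 2 + (r * Real.sin θ) ^ 2 := by
          linear_combination (-(r ^ 2)) * e1
      _ = (s * Real.cos θ') ^ 2 + (s * Real.sin θ') ^ 2 := by rw [h2, h3]
      _ = s ^ 2 := by linear_combination (s ^ 2) * e2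
  exact (pow_left_inj₀ hr.le hs.le (by norm_num)).1 h4

/-- The orbits, with their minimal periods. -/
theorem isPeriodicSol_Ga (m i : ℕ) (hi : i < m) (g : ℝ × ℝ → ℝ) (hg : Continuous g) (r : ℝ)
    (hr : 0 < r) (hpos : ∀ θ, 0 < g (Ga m i r θ)) :
    ∃ φ : ℝ → ℝ × ℝ, φ 0 = Ga m i r 0 ∧ range φ = range (Ga m i r) ∧
      IsPeriodicSol (fun z => g z • Zf m z) φ
        (∫ θ in (0 : ℝ)..2 * Real.pi, 1 / g (Ga m i r θ)) := by
  have hm : 0 < m := by omega
  obtain ⟨Θ, h0, hd, hsurj, hmono, hT, hper⟩ := exists_time_change (fun θ => g (Ga m i r θ))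
    (2 * Real.pi) Real.two_pi_pos (hg.comp (continuous_Ga m i hm r)) hpos
    (by
      intro θ
      show g (Ga m i r (θ + 2 * Real.pi)) = g (Ga m i r θ)
      rw [Ga_periodic m i r θ])
  refine ⟨fun t => Ga m i r (Θ t), ?_, ?_, ?_⟩
  · show Ga m i r (Θ 0) = Ga m i r 0
    rw [h0]
  · exact hsurj.range_comp (Ga m i r)
  · refine ⟨?_, hT, ?_, ?_⟩
    · intro t
      exact (hasDerivAt_Ga m i hm r (Θ t)).scomp t (hd t)
    · intro t
      show Ga m i r (Θ (t + _)) = Ga m i r (Θ t)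
      rw [hper t]
      exact Ga_periodic m i r (Θ t)
    · intro S hS hSper
      have h1 : Ga m i r (Θ S) = Ga m i r 0 := by
        have := hSper 0
        simp only [zero_add, h0] at this
        exact this
      obtain ⟨-, h2, -⟩ := Ga_inj m i i hi hi r r (Θ S) 0 h1
      have h3 : Real.cos (Θ S) = 1 := by
        have := mul_left_cancel₀ hr.ne' h2
        rwa [Real.cos_zero] at this
      obtain ⟨n, hn⟩ := (Real.cos_eq_one_iff _).1 h3
      have h4 : 0 < Θ S := by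
        rw [← h0]
        exact hmono hS
      have h5 : (0 : ℝ) < n := by
        rw [← hn] at h4
        exact (mul_pos_iff_of_pos_right Real.two_pi_pos).1 h4
      have h6 : (1 : ℤ) ≤ n := by
        have : (0 : ℤ) < n := by exact_mod_cast h5
        omega
      have h7 : (1 : ℝ) ≤ n := by exact_mod_cast h6
      have h8 : 2 * Real.pi ≤ Θ S := by
        rw [← hn]
        exact le_mul_of_one_le_left Real.two_pi_pos.le h7
      have h9 := hper 0
      rw [h0, zero_add, zero_add] at h9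
      rw [← h9] at h8
      exact hmono.le_iff_le.1 h8

theorem section_eq (m i : ℕ) (r : ℝ) :
    Ga m i r 0 = (Real.cos (dl m i + (-1) ^ (i + 1) * (Real.arctan r / m)), 0) := by
  simp [Ga, ps, sg, yy]

theorem hasDerivAt_section (m i : ℕ) (r : ℝ) :
    HasDerivAt (fun r => Ga m i r 0)
      (-Real.sin (ps m i r 0) * ((-1) ^ (i + 1) * (1 / (1 + r ^ 2) / m)), 0) r := by
  have h0 : (fun r => Ga m i r 0) = fun r =>
      (Real.cos (dl m i + (-1) ^ (i + 1) * (Real.arctan r / m)), (0 : ℝ)) := by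
    funext r
    exact section_eq m i r
  rw [h0]
  have h1 : HasDerivAt (fun r : ℝ => dl m i + (-1) ^ (i + 1) * (Real.arctan r / m))
      ((-1) ^ (i + 1) * (1 / (1 + r ^ 2) / m)) r :=
    (((Real.hasDerivAt_arctan r).div_const (m : ℝ)).const_mul ((-1 : ℝ) ^ (i + 1))).const_add _
  have h2 := h1.cos.prodMk (hasDerivAt_const r (0 : ℝ))
  refine h2.congr_deriv ?_
  simp [ps, sg]

theorem contDiff_section (m i : ℕ) : ContDiff ℝ ⊤ (fun r => Ga m i r 0) := by
  have h0 : (fun r => Ga m i r 0) = fun r =>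
      (Real.cos (dl m i + (-1) ^ (i + 1) * (Real.arctan r / m)), (0 : ℝ)) := by
    funext r
    exact section_eq m i r
  rw [h0]
  have h1 : ContDiff ℝ ⊤ Real.arctan := Real.contDiff_arctan
  have h2 : ContDiff ℝ ⊤ (fun r : ℝ => dl m i + (-1) ^ (i + 1) * (Real.arctan r / m)) :=
    contDiff_const.add (contDiff_const.mul (h1.div_const _))
  exact (Real.contDiff_cos.comp h2).prodMk contDiff_const

theorem sin_ps_pos (m i : ℕ) (hi : i < m) (r θ : ℝ) : 0 < Real.sin (ps m i r θ) := by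
  have hm : 0 < m := by omega
  have hm' : (0 : ℝ) < m := by exact_mod_cast hm
  obtain ⟨h1, h2⟩ := ps_bounds m i hm r θ
  apply Real.sin_pos_of_pos_of_lt_pi
  · have h3 : (0 : ℝ) ≤ i * Real.pi := by positivity
    have h4 : 0 < (m : ℝ) * ps m i r θ := by linarith
    exact (mul_pos_iff_of_pos_left hm').1 h4
  · have h5 : ((i : ℝ) + 1) ≤ m := by exact_mod_cast hi
    have h6 : ((i : ℝ) + 1) * Real.pi ≤ m * Real.pi :=
      mul_le_mul_of_nonneg_right h5 Real.pi_pos.le
    have h7 : (m : ℝ) * ps m i r θ < m * Real.pi := by linarith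
    exact lt_of_mul_lt_mul_left h7 hm'.le

theorem exists_continuum (m : ℕ) (_hm : Odd m) (i : ℕ) (hi : i < m) (g : ℝ × ℝ → ℝ)
    (hg : Continuous g) (b : ℝ) (hb : 0 < b)
    (hpos : ∀ r ∈ Ioo 0 b, ∀ θ, 0 < g (Ga m i r θ)) :
    ∃ c : Continuum (fun z => g z • Zf m z), c.b = b ∧
      (∀ r ∈ Ioo 0 b, c.T r = ∫ θ in (0 : ℝ)..2 * Real.pi, 1 / g (Ga m i r θ)) ∧
      ∀ r ∈ Ioo 0 b, range (c.γ r) = range (Ga m i r) := by
  have hm : 0 < m := by omega
  have hm' : (0 : ℝ) < m := by exact_mod_cast hm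
  have hex : ∀ r : ℝ, ∃ φ : ℝ → ℝ × ℝ, r ∈ Ioo 0 b → φ 0 = Ga m i r 0 ∧
      range φ = range (Ga m i r) ∧ IsPeriodicSol (fun z => g z • Zf m z) φ
        (∫ θ in (0 : ℝ)..2 * Real.pi, 1 / g (Ga m i r θ)) := by
    intro r
    by_cases hr : r ∈ Ioo 0 b
    · obtain ⟨φ, h⟩ := isPeriodicSol_Ga m i hi g hg r hr.1 (hpos r hr)
      exact ⟨φ, fun _ => h⟩
    · exact ⟨fun _ => 0, fun h => absurd h hr⟩
  choose γ hγ using hex
  have hEq : EqOn (fun s => γ s 0) (fun s => Ga m i s 0) (Ioo 0 b) := fun s hs => (hγ s hs).1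
  refine ⟨{
      p := (Real.cos (dl m i), 0)
      b := b
      γ := γ
      T := fun r => ∫ θ in (0 : ℝ)..2 * Real.pi, 1 / g (Ga m i r θ)
      equilibrium := ?_
      b_pos := hb
      periodic := fun s hs => (hγ s hs).2.2
      smooth := ?_
      transversal := ?_
      disjoint := ?_
      ends := ?_ }, rfl, fun r _ => rfl, fun r hr => (hγ r hr).2.1⟩
  · have h1 : Ga m i 0 0 = (Real.cos (dl m i), 0) := by
      simp [section_eq]
    have h2 : Zf m (Real.cos (dl m i), 0) = 0 := by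
      rw [← h1, Zf_Ga m i hm]
      simp [sg, yy]
    show g _ • Zf m (Real.cos (dl m i), 0) = 0
    rw [h2, smul_zero]
  · exact (contDiff_section m i).contDiffOn.congr hEq
  · intro s hs
    have hnhds : Ioo 0 b ∈ 𝓝 s := isOpen_Ioo.mem_nhds hs
    have h1 : deriv (fun s => γ s 0) s =
        (-Real.sin (ps m i s 0) * ((-1) ^ (i + 1) * (1 / (1 + s ^ 2) / m)), 0) := by
      rw [Filter.EventuallyEq.deriv_eq (hEq.eventuallyEq_of_mem hnhds)]
      exact (hasDerivAt_section m i s).deriv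
    have h2 : γ s 0 = Ga m i s 0 := hEq hs
    have h3 : yy s 0 = 0 := by simp [yy]
    rw [LinearIndependent.pair_iff]
    intro x y hxy
    rw [h1] at hxy
    have h4 : g (γ s 0) • Zf m (γ s 0) = (0, g (Ga m i s 0) * Real.sin (sg s 0)) := by
      rw [h2, Zf_Ga m i hm, h3]
      simp
    have hxy' : x • ((-Real.sin (ps m i s 0) * ((-1) ^ (i + 1) * (1 / (1 + s ^ 2) / m)) : ℝ),
        (0 : ℝ)) + y • (g (γ s 0) • Zf m (γ s 0)) = 0 := hxy
    rw [h4] at hxy'
    have e1 := congrArg Prod.fst hxy'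
    have e2 := congrArg Prod.snd hxy'
    simp only [Prod.smul_mk, Prod.mk_add_mk, smul_eq_mul, mul_zero, add_zero, zero_add,
      Prod.fst_zero, Prod.snd_zero] at e1 e2
    have n1 : -Real.sin (ps m i s 0) * ((-1) ^ (i + 1) * (1 / (1 + s ^ 2) / m)) ≠ 0 := by
      refine mul_ne_zero (neg_ne_zero.2 (sin_ps_pos m i hi s 0).ne') (mul_ne_zero ?_ ?_)
      · exact pow_ne_zero _ (by norm_num)
      · positivity
    have n2 : g (Ga m i s 0) * Real.sin (sg s 0) ≠ 0 := by
      refine mul_ne_zero (hpos s hs 0).ne' ?_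
      rw [sin_sg, Real.cos_zero, mul_one]
      exact mul_ne_zero hs.1.ne' (cos_sg_pos s 0).ne'
    exact ⟨(mul_eq_zero.1 e1).resolve_right n1, (mul_eq_zero.1 e2).resolve_right n2⟩
  · intro s hs s' hs' hne
    rw [(hγ s hs).2.1, (hγ s' hs').2.1]
    exact range_Ga_ne m _hm i i hi hi s s' hs.1 hs'.1 (by
      intro h
      exact hne (Prod.mk.inj h).2)
  · intro U hU
    obtain ⟨ε, hε, hball⟩ := Metric.mem_nhds_iff.1 hU
    have h1 : Ioo 0 (min b ε) ∈ 𝓝[>] (0 : ℝ) := Ioo_mem_nhdsGT (lt_min hb hε)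
    filter_upwards [h1] with s hs
    have hs1 : s ∈ Ioo 0 b := ⟨hs.1, lt_of_lt_of_le hs.2 (min_le_left _ _)⟩
    have hs2 : s < ε := lt_of_lt_of_le hs.2 (min_le_right _ _)
    rw [(hγ s hs1).2.1]
    rintro z ⟨θ, rfl⟩
    apply hball
    rw [Metric.mem_ball, Prod.dist_eq, max_lt_iff]
    constructor
    · show dist (Real.cos (ps m i s θ)) (Real.cos (dl m i)) < ε
      rw [Real.dist_eq]
      refine lt_of_le_of_lt (Real.abs_cos_sub_cos_le _ _) ?_
      have h2 : ps m i s θ - dl m i = (-1) ^ (i + 1) * (sg s θ / m) := by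
        rw [ps]
        ring
      rw [h2, abs_neg_one_pow_mul, abs_div, Nat.abs_cast]
      have h3 : |sg s θ| / m ≤ |sg s θ| := by
        apply div_le_self (abs_nonneg _)
        exact_mod_cast hm
      have h4 := abs_sg_le s θ
      rw [abs_of_pos hs.1] at h4
      linarith
    · show dist (yy s θ) 0 < ε
      rw [Real.dist_eq, sub_zero]
      have h4 := abs_yy_le s θ
      rw [abs_of_pos hs.1] at h4
      linarith

end Pool.Agent.MP48dd78
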