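import Pool.Agent.Lib.MP_48dd78_an.Average

/-!
The averages can be given increments of alternating signs on disjoint intervals.
-/

set_option autoImplicit false

namespace Pool.Agent.MP48dd78

open Set Filter Topology MeasureTheory

/-- The number of frequencies of level `s`. -/
def Vn (s : ℕ) : ℕ := (3 ^ s + 1) / 2

/-- The frequencies of level `s`. -/
noncomputable def mu (s v : ℕ) : ℝ := (6 * v + 1 : ℕ) / (3 ^ (s + 1) : ℕ)

theorem three_pow_mod_two (s : ℕ) : 3 ^ s % 2 = 1 := by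
  induction s with
  | zero => rfl
  | succ n ih => rw [pow_succ]; omega

theorem six_mul_lt (s v : ℕ) (hv : v < Vn s) : 6 * v + 1 < 3 ^ (s + 1) := by
  have h1 := three_pow_mod_two s
  unfold Vn at hv
  rw [pow_succ]
  omega

theorem mu_mem (s v : ℕ) (hv : v < Vn s) : mu s v ∈ Ioo (0 : ℝ) 1 := by
  have h := six_mul_lt s v hv
  unfold mu
  constructor
  · positivity
  · rw [div_lt_one (by positivity)]
    exact_mod_cast h

theorem mu_inj (s v w : ℕ) (h : mu s v = mu s w) : v = w := by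
  unfold mu at h
  have h3 : ((3 ^ (s + 1) : ℕ) : ℝ) ≠ 0 := by positivity
  rw [div_left_inj' h3] at h
  have h4 : 6 * v + 1 = 6 * w + 1 := by exact_mod_cast h
  omega

theorem pos_eventually_gt (F : ℝ → ℝ) (F' x : ℝ) (hF : HasDerivAt F F' x) (hF' : 0 < F') :
    ∀ᶠ δ in 𝓝[>] (0 : ℝ), 0 < F (x + δ) - F x := by
  have h1 : Tendsto (slope F x) (𝓝[≠] x) (𝓝 F') := hasDerivAt_iff_tendsto_slope.1 hF
  have h2 : ∀ᶠ y in 𝓝[≠] x, 0 < slope F x y := h1.eventually_const_lt hF'
  have h3 : Tendsto (fun δ : ℝ => x + δ) (𝓝[>] (0 : ℝ)) (𝓝[≠] x) := by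
    apply tendsto_nhdsWithin_iff.2
    constructor
    · have : Tendsto (fun δ : ℝ => x + δ) (𝓝 0) (𝓝 (x + 0)) :=
        (continuous_const.add continuous_id).tendsto 0
      rw [add_zero] at this
      exact this.mono_left nhdsWithin_le_nhds
    · filter_upwards [self_mem_nhdsWithin] with δ hδ
      have : (0 : ℝ) < δ := hδ
      simp [this.ne']
  filter_upwards [h3.eventually h2, self_mem_nhdsWithin] with δ h4 hδ
  have hδ' : (0 : ℝ) < δ := hδ
  rw [slope_def_field, add_sub_cancel_left] at h4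
  exact (div_pos_iff_of_pos_right hδ').1 h4

/-- The averages of level `s` can be given increments of alternating signs. -/
theorem exists_increments (s K : ℕ) : ∃ (c : ℕ → ℕ → ℝ) (a b : ℕ → ℝ),
    (∀ p < Vn s * (K + 1), a p ∈ Ioo (0 : ℝ) 1) ∧ (∀ p < Vn s * (K + 1), b p ∈ Ioo (0 : ℝ) 1) ∧
    (∀ p < Vn s * (K + 1), a p < b p) ∧ (∀ p, p + 1 < Vn s * (K + 1) → b p < a (p + 1)) ∧
    ∀ p < Vn s * (K + 1), 0 < (-1) ^ p *
      ((∑ v ∈ Finset.range (Vn s), ∑ κ ∈ Finset.range (K + 1),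
          c v κ * Wl κ (b p) (Cf (mu s v))) -
        ∑ v ∈ Finset.range (Vn s), ∑ κ ∈ Finset.range (K + 1),
          c v κ * Wl κ (a p) (Cf (mu s v))) := by
  classical
  have hcos : ∀ v < Vn s, mu s v * Real.pi ∈ Icc 0 Real.pi := by
    intro v hv
    obtain ⟨h1, h2⟩ := mu_mem s v hv
    constructor
    · exact mul_nonneg h1.le Real.pi_pos.le
    · nlinarith [Real.pi_pos]
  have hc0 : ∀ v : Fin (Vn s), Real.cos (mu s v * Real.pi) ≠ 1 := by
    intro v h
    rw [← Real.cos_zero] at h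
    have h1 := Real.injOn_cos (hcos v v.2) ⟨le_refl _, Real.pi_pos.le⟩ h
    rcases mul_eq_zero.1 h1 with h2 | h2
    · exact (mu_mem s v v.2).1.ne' h2
    · exact Real.pi_ne_zero h2
  have hc1 : ∀ v w : Fin (Vn s), v ≠ w →
      Real.cos (mu s v * Real.pi) ≠ Real.cos (mu s w * Real.pi) := by
    intro v w hvw h
    have h1 := Real.injOn_cos (hcos v v.2) (hcos w w.2) h
    have h2 := mul_right_cancel₀ Real.pi_ne_zero h1
    exact hvw (Fin.ext (mu_inj s v w h2))
  obtain ⟨t, ht, htI, c, hc⟩ := exists_alternating (ι := Fin (Vn s)) (fun v => mu s v) hc0 hc1 K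
  set D : ℕ := Vn s * (K + 1) with hD
  have hcard : Fintype.card (Fin (Vn s)) * (K + 1) = D := by rw [Fintype.card_fin]
  -- the function
  set F : ℝ → ℝ := fun r => ∑ v : Fin (Vn s), ∑ κ ∈ Finset.range (K + 1),
    c v κ * Wl κ r (Cf (mu s v)) with hF
  have hFd : ∀ k : Fin (Fintype.card (Fin (Vn s)) * (K + 1)), HasDerivAt F ((-1) ^ (k : ℕ)) (t k) := by
    intro k
    rw [← hc k]
    refine HasDerivAt.fun_sum fun v _ => HasDerivAt.fun_sum fun κ _ => ?_
    exact (Wl_hasDerivAt κ (Cf (mu s v)) (t k) (htI k).1).const_mul (c v κ)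
  have hev1 : ∀ᶠ δ in 𝓝[>] (0 : ℝ), ∀ k : Fin (Fintype.card (Fin (Vn s)) * (K + 1)), 0 < (-1) ^ (k : ℕ) * (F (t k + δ) - F (t k)) := by
    rw [eventually_all]
    intro k
    have h1 : HasDerivAt (fun r => (-1) ^ (k : ℕ) * F r) ((-1) ^ (k : ℕ) * (-1) ^ (k : ℕ)) (t k) :=
      (hFd k).const_mul _
    have h2 : (0 : ℝ) < (-1) ^ (k : ℕ) * (-1) ^ (k : ℕ) := by
      rcases neg_one_pow_eq_or ℝ (k : ℕ) with h | h <;> rw [h] <;> norm_num
    filter_upwards [pos_eventually_gt _ _ _ h1 h2] with δ hδ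
    rw [mul_sub]
    exact hδ
  have hev2 : ∀ᶠ δ in 𝓝[>] (0 : ℝ), ∀ k, t k + δ < 1 := by
    rw [eventually_all]
    intro k
    have h1 : ∀ᶠ δ in 𝓝 (0 : ℝ), t k + δ < 1 := by
      have : Tendsto (fun δ : ℝ => t k + δ) (𝓝 0) (𝓝 (t k + 0)) :=
        (continuous_const.add continuous_id).tendsto 0
      rw [add_zero] at this
      exact this.eventually_lt_const (htI k).2
    exact h1.filter_mono nhdsWithin_le_nhds
  have hev3 : ∀ᶠ δ in 𝓝[>] (0 : ℝ), ∀ k l, k < l → t k + δ < t l := by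
    rw [eventually_all]
    intro k
    rw [eventually_all]
    intro l
    by_cases hkl : k < l
    · have h1 : ∀ᶠ δ in 𝓝 (0 : ℝ), t k + δ < t l := by
        have : Tendsto (fun δ : ℝ => t k + δ) (𝓝 0) (𝓝 (t k + 0)) :=
          (continuous_const.add continuous_id).tendsto 0
        rw [add_zero] at this
        exact this.eventually_lt_const (ht hkl)
      filter_upwards [h1.filter_mono nhdsWithin_le_nhds] with δ hδ _ using hδ
    · exact Eventually.of_forall fun δ h => absurd h hkl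
  obtain ⟨δ, ⟨⟨h1, h2⟩, h3⟩, hδ⟩ :=
    (((hev1.and hev2).and hev3).and self_mem_nhdsWithin).exists
  have hδ' : (0 : ℝ) < δ := hδ
  -- extend to `ℕ`
  let T : ℕ → ℝ := fun p => if h : p < Fintype.card (Fin (Vn s)) * (K + 1) then t ⟨p, h⟩ else 0
  have hT : ∀ p (h : p < Fintype.card (Fin (Vn s)) * (K + 1)), T p = t ⟨p, h⟩ := fun p h => by
    simp only [T, dif_pos h]
  let c' : ℕ → ℕ → ℝ := fun v κ => if h : v < Vn s then c ⟨v, h⟩ κ else 0
  have hF' : ∀ r, ∑ v ∈ Finset.range (Vn s), ∑ κ ∈ Finset.range (K + 1),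
      c' v κ * Wl κ r (Cf (mu s v)) = F r := by
    intro r
    rw [Finset.sum_range, hF]
    refine Finset.sum_congr rfl fun v _ => Finset.sum_congr rfl fun κ _ => ?_
    simp only [c', dif_pos v.2]
  refine ⟨c', T, fun p => T p + δ, ?_, ?_, ?_, ?_, ?_⟩
  · intro p hp
    rw [← hcard] at hp
    rw [hT p hp]
    exact htI _
  · intro p hp
    rw [← hcard] at hp
    simp only [hT p hp]
    exact ⟨by have := (htI ⟨p, hp⟩).1; linarith, h2 _⟩
  · intro p hp
    linarith
  · intro p hp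
    rw [← hcard] at hp
    have hp' : p < Fintype.card (Fin (Vn s)) * (K + 1) := by omega
    simp only [hT p hp', hT (p + 1) hp]
    exact h3 _ _ (by simp [Fin.lt_def])
  · intro p hp
    rw [← hcard] at hp
    simp only [hF', hT p hp]
    exact h1 ⟨p, hp⟩

end Pool.Agent.MP48dd78
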