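import Pool.Agent.Lib.MP_48dd78_an.Reduce

/-!
Linear independence of the averages.
-/

set_option autoImplicit false

namespace Pool.Agent.MP48dd78

open Set Filter Topology MeasureTheory Polynomial

/-- The reflection `σ ↦ -σ`. -/
noncomputable def Rl : Module.End ℝ AA where
  toFun φ := ⟨fun σ => φ.1 (-σ), by
    intro σ _
    have h1 : AnalyticAt ℝ (fun σ : ℝ => -σ) σ := analyticAt_id.neg
    exact AnalyticAt.fun_comp (g := φ.1) (f := fun σ : ℝ => -σ)
      ((AAanalytic φ) (-σ) (mem_univ _)) h1⟩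
  map_add' φ ψ := by
    ext σ
    simp only [Submodule.coe_add, Pi.add_apply]
  map_smul' c φ := by
    ext σ
    simp only [Submodule.coe_smul, Pi.smul_apply, smul_eq_mul, RingHom.id_apply]

theorem Rl_apply (φ : AA) (σ : ℝ) : (Rl φ).1 σ = φ.1 (-σ) := rfl

theorem Rl_Sl (φ : AA) : Rl (Sl φ) = Sl (Rl φ) := by
  ext σ
  simp only [Rl_apply, Sl_apply, Real.sin_neg]
  ring

theorem Rl_Mlin (κ : ℕ) (φ : AA) : Rl (Mlin κ φ) = Mlin κ (Rl φ) := by
  ext σ
  have h : deriv (Rl φ).1 σ = - deriv φ.1 (-σ) := by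
    have : (Rl φ).1 = fun σ => φ.1 (-σ) := rfl
    rw [this, deriv_comp_neg]
  simp only [Rl_apply, Mlin_apply, Mop, Real.sin_neg, Real.cos_neg, h]
  ring

theorem comm_aeval (E : Module.End ℝ AA) (κ : ℕ) (hE : ∀ φ, E (Mlin κ φ) = Mlin κ (E φ))
    (p : ℝ[X]) (φ : AA) : E (aeval (Mlin κ) p φ) = aeval (Mlin κ) p (E φ) := by
  induction p using Polynomial.induction_on' with
  | add p q hp hq => simp [map_add, LinearMap.add_apply, hp, hq]
  | monomial n a =>
    rw [← C_mul_X_pow_eq_monomial]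
    simp only [map_mul, aeval_C, map_pow, aeval_X, Module.End.mul_apply,
      Module.algebraMap_end_apply, map_smul]
    congr 1
    induction n generalizing φ with
    | zero => simp
    | succ n ih =>
      rw [pow_succ, Module.End.mul_apply, Module.End.mul_apply, ih, hE]

theorem comm_Sl_pow (E : Module.End ℝ AA) (hE : ∀ φ, E (Sl φ) = Sl (E φ)) (n : ℕ) (φ : AA) :
    E ((Sl ^ n) φ) = (Sl ^ n) (E φ) := by
  induction n generalizing φ with
  | zero => simp
  | succ n ih => rw [pow_succ, Module.End.mul_apply, Module.End.mul_apply, ih, hE]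

theorem comm_red (E : Module.End ℝ AA) (hM : ∀ κ φ, E (Mlin κ φ) = Mlin κ (E φ))
    (hS : ∀ φ, E (Sl φ) = Sl (E φ)) (K : ℕ) (φ : ℕ → AA) :
    E (red K φ) = red K (fun κ => E (φ κ)) := by
  unfold red
  rw [map_sum]
  refine Finset.sum_congr rfl fun κ _ => ?_
  rw [map_smul, comm_aeval E 0 (hM 0), comm_Sl_pow E hS]

/-! ### Injectivity of the average -/

theorem abs_arctan_le_abs (x : ℝ) : |Real.arctan x| ≤ |x| := by
  have key : ∀ y : ℝ, 0 ≤ y → |Real.arctan y| ≤ |y| := by
    intro y hy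
    have h1 : 0 ≤ Real.arctan y := Real.arctan_nonneg.2 hy
    rw [abs_of_nonneg h1, abs_of_nonneg hy]
    have := Real.le_tan h1 (Real.arctan_lt_pi_div_two y)
    rwa [Real.tan_arctan] at this
  rcases le_total 0 x with hx | hx
  · exact key x hx
  · have := key (-x) (by linarith)
    rwa [Real.arctan_neg, abs_neg, abs_neg] at this

theorem Wl_zero_injective (Φ : AA) (heven : ∀ σ, Φ.1 (-σ) = Φ.1 σ) (r₀ : ℝ) (hr₀ : 0 < r₀)
    (h : ∀ r ∈ Ioo 0 r₀, Wl 0 r Φ = 0) : Φ = 0 := by
  by_contra hne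
  have hnz : ¬ ∀ᶠ z in 𝓝 (0 : ℝ), Φ.1 z = 0 := by
    intro hz
    apply hne
    have h1 := (AAanalytic Φ).eqOn_zero_of_preconnected_of_eventuallyEq_zero
      isPreconnected_univ (mem_univ (0 : ℝ)) hz
    ext σ
    exact h1 (mem_univ σ)
  obtain ⟨n, G, hG, hG0, hev⟩ :=
    ((AAanalytic Φ) 0 (mem_univ _)).exists_eventuallyEq_pow_smul_nonzero_iff.2 hnz
  simp only [sub_zero, smul_eq_mul] at hev
  have hGc : ContinuousAt G 0 := hG.continuousAt
  -- `n` is even
  have hn : Even n := by
    by_contra hodd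
    rw [Nat.not_even_iff_odd] at hodd
    have hev' : ∀ᶠ z in 𝓝 (0 : ℝ), Φ.1 (-z) = (-z) ^ n * G (-z) := by
      have : Tendsto (fun z : ℝ => -z) (𝓝 0) (𝓝 0) := by
        simpa using (continuous_neg.tendsto (0 : ℝ))
      exact this.eventually hev
    have h1 : ∀ᶠ z in 𝓝[≠] (0 : ℝ), G z + G (-z) = 0 := by
      filter_upwards [hev.filter_mono nhdsWithin_le_nhds, hev'.filter_mono nhdsWithin_le_nhds,
        self_mem_nhdsWithin] with z h1 h2 h3
      have h4 : z ^ n ≠ 0 := pow_ne_zero _ h3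
      rw [heven, h1, hodd.neg_pow] at h2
      have : z ^ n * (G z + G (-z)) = 0 := by linarith
      exact (mul_eq_zero.1 this).resolve_left h4
    have h2 : Tendsto (fun z => G z + G (-z)) (𝓝[≠] (0 : ℝ)) (𝓝 (G 0 + G 0)) := by
      have t1 : Tendsto G (𝓝[≠] (0 : ℝ)) (𝓝 (G 0)) := hGc.tendsto.mono_left nhdsWithin_le_nhds
      have t2 : Tendsto (fun z : ℝ => G (-z)) (𝓝[≠] (0 : ℝ)) (𝓝 (G 0)) := by
        have t3 : Tendsto (fun z : ℝ => -z) (𝓝[≠] 0) (𝓝 0) := by
          have := (continuous_neg.tendsto (0 : ℝ)).mono_left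
            (nhdsWithin_le_nhds (s := {0}ᶜ))
          simpa using this
        exact hGc.tendsto.comp t3
      exact t1.add t2
    have h3 : G 0 + G 0 = 0 :=
      tendsto_nhds_unique (h2.congr' h1) tendsto_const_nhds
    exact hG0 (by linarith)
  -- positivity near 0
  have hpos : ∀ᶠ z in 𝓝 (0 : ℝ), 0 < G z * G 0 := by
    have : Tendsto (fun z => G z * G 0) (𝓝 (0 : ℝ)) (𝓝 (G 0 * G 0)) :=
      hGc.tendsto.mul tendsto_const_nhds
    exact this.eventually (lt_mem_nhds (mul_self_pos.2 hG0))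
  obtain ⟨ε, hε, hball⟩ := Metric.eventually_nhds_iff.1 (hev.and hpos)
  set r : ℝ := min r₀ ε / 2 with hr
  have hr1 : 0 < r := by positivity
  have hr2 : r < r₀ := by
    have := min_le_left r₀ ε
    have h5 : 0 < min r₀ ε := by positivity
    linarith
  have hr3 : r < ε := by
    have := min_le_right r₀ ε
    have h5 : 0 < min r₀ ε := by positivity
    linarith
  have habs : ∀ θ, |sg r θ| ≤ r := by
    intro θ
    have h1 : |Real.arctan (r * Real.cos θ)| ≤ |r * Real.cos θ| := abs_arctan_le_abs _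
    calc |sg r θ| ≤ |r * Real.cos θ| := h1
      _ = r * |Real.cos θ| := by rw [abs_mul, abs_of_pos hr1]
      _ ≤ r * 1 := mul_le_mul_of_nonneg_left (Real.abs_cos_le_one θ) hr1.le
      _ = r := mul_one r
  have hθ : ∀ θ, Φ.1 (sg r θ) = sg r θ ^ n * G (sg r θ) ∧ 0 < G (sg r θ) * G 0 := by
    intro θ
    apply hball
    rw [Real.dist_eq, sub_zero]
    exact (habs θ).trans_lt hr3
  have h1 : Wl 0 r Φ = 0 := h r ⟨hr1, hr2⟩
  have h2 : 0 < ∫ θ in (0 : ℝ)..2 * Real.pi, Φ.1 (sg r θ) * G 0 := by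
    apply intervalIntegral.integral_pos (by positivity)
    · have c1 := continuous_sg_right r
      have c2 := AAcont Φ
      exact ((c2.comp c1).mul continuous_const).continuousOn
    · intro θ _
      rw [(hθ θ).1, mul_assoc]
      exact mul_nonneg (hn.pow_nonneg _) (hθ θ).2.le
    · refine ⟨0, ⟨le_refl _, by positivity⟩, ?_⟩
      rw [(hθ 0).1, mul_assoc]
      apply mul_pos _ (hθ 0).2
      apply pow_pos
      unfold sg
      rw [Real.cos_zero, mul_one]
      exact Real.arctan_pos.2 hr1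
  rw [intervalIntegral.integral_mul_const] at h2
  rw [Wl_apply, W] at h1
  simp only [mul_zero, pow_zero, one_mul] at h1
  rw [h1, zero_mul] at h2
  exact lt_irrefl _ h2

/-! ### A single frequency -/

theorem Sl_pow_aeval (κ : ℕ) (p : ℝ[X]) (φ : AA) :
    aeval (Mlin 0) p ((Sl ^ κ) φ) = (Sl ^ κ) (aeval (Mlin κ) p φ) := by
  induction κ generalizing φ with
  | zero => simp
  | succ κ ih =>
    rw [pow_succ, Module.End.mul_apply, Module.End.mul_apply, ih, Sl_aeval]

theorem Sl_pow_apply (κ : ℕ) (φ : AA) (σ : ℝ) :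
    ((Sl ^ κ) φ).1 σ = (Real.sin σ ^ 2) ^ κ * φ.1 σ := by
  induction κ generalizing φ with
  | zero => simp
  | succ κ ih =>
    rw [pow_succ, Module.End.mul_apply, ih, Sl_apply]
    ring

theorem coeff_zero (N : ℕ) : ∀ (b : ℕ → ℝ) (Ψ : ℕ → ℝ → ℝ), (∀ κ, Continuous (Ψ κ)) →
    (∀ κ, Ψ κ 0 ≠ 0) →
    (∀ᶠ σ in 𝓝 (0 : ℝ), ∑ κ ∈ Finset.range N, (Real.sin σ ^ 2) ^ κ * (b κ * Ψ κ σ) = 0) →
    ∀ κ < N, b κ = 0 := by
  induction N with
  | zero => intro b Ψ _ _ _ κ hκ; omega
  | succ N ih =>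
    intro b Ψ hc h0 h κ hκ
    have hb0 : b 0 = 0 := by
      have h1 := h.self_of_nhds
      rw [Finset.sum_range_succ'] at h1
      simp only [Real.sin_zero, ne_eq, OfNat.ofNat_ne_zero, not_false_eq_true, zero_pow,
        Nat.succ_ne_zero, zero_mul, Finset.sum_const_zero, pow_zero, one_mul, zero_add] at h1
      exact (mul_eq_zero.1 h1).resolve_right (h0 0)
    rcases Nat.eq_zero_or_pos κ with rfl | hκ0
    · exact hb0
    have key := ih (fun κ => b (κ + 1)) (fun κ => Ψ (κ + 1)) (fun κ => hc _) (fun κ => h0 _) ?_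
      (κ - 1) (by omega)
    · have e : κ - 1 + 1 = κ := by omega
      simp only [e] at key
      exact key
    · have hs : ∀ᶠ σ in 𝓝[≠] (0 : ℝ), Real.sin σ ≠ 0 := by
        have h1 : Ioo (-1 : ℝ) 1 ∈ 𝓝 (0 : ℝ) := Ioo_mem_nhds (by norm_num) (by norm_num)
        filter_upwards [nhdsWithin_le_nhds h1, self_mem_nhdsWithin] with σ h2 h3
        have hpi := Real.pi_gt_three
        rcases lt_or_gt_of_ne (show σ ≠ 0 from h3) with h4 | h4
        · exact (Real.sin_neg_of_neg_of_neg_pi_lt h4 (by linarith [h2.1])).ne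
        · exact (Real.sin_pos_of_pos_of_lt_pi h4 (by linarith [h2.2])).ne'
      have hg : ∀ᶠ σ in 𝓝[≠] (0 : ℝ),
          ∑ κ ∈ Finset.range N, (Real.sin σ ^ 2) ^ κ * (b (κ + 1) * Ψ (κ + 1) σ) = 0 := by
        filter_upwards [nhdsWithin_le_nhds h, hs] with σ h1 h2
        rw [Finset.sum_range_succ', hb0, zero_mul, mul_zero, add_zero] at h1
        have h3 : Real.sin σ ^ 2 *
            ∑ κ ∈ Finset.range N, (Real.sin σ ^ 2) ^ κ * (b (κ + 1) * Ψ (κ + 1) σ) = 0 := by
          rw [Finset.mul_sum, ← h1]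
          refine Finset.sum_congr rfl fun j _ => ?_
          ring
        exact (mul_eq_zero.1 h3).resolve_left (pow_ne_zero _ h2)
      have hcont : Continuous fun σ : ℝ =>
          ∑ κ ∈ Finset.range N, (Real.sin σ ^ 2) ^ κ * (b (κ + 1) * Ψ (κ + 1) σ) := by
        have := fun κ => hc (κ + 1)
        fun_prop
      have hz : ∑ κ ∈ Finset.range N,
          (Real.sin (0 : ℝ) ^ 2) ^ κ * (b (κ + 1) * Ψ (κ + 1) 0) = 0 := by
        have t1 := (hcont.tendsto (0 : ℝ)).mono_left (nhdsWithin_le_nhds (s := {0}ᶜ))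
        exact tendsto_nhds_unique (t1.congr' hg) tendsto_const_nhds
      rw [eventually_nhdsWithin_iff] at hg
      filter_upwards [hg] with σ h1
      by_cases h2 : σ = 0
      · rw [h2]; exact hz
      · exact h1 h2

theorem red_single (K : ℕ) (φ : AA) (h0 : φ.1 0 ≠ 0) (c : ℕ → ℝ)
    (h : red K (fun κ => c κ • φ) = 0) : ∀ κ ≤ K, c κ = 0 := by
  have key := coeff_zero (K + 1) (fun κ => df κ * c κ)
    (fun κ => (aeval (Mlin κ) (highP κ K) φ).1) (fun κ => AAcont _)
    (fun κ => by
      rw [aeval_zero]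
      exact mul_ne_zero (highP_eval κ K) h0) ?_
  · intro κ hκ
    have := key κ (by omega)
    exact (mul_eq_zero.1 this).resolve_left (df_pos κ).ne'
  · refine Eventually.of_forall fun σ => ?_
    have h1 : (red K (fun κ => c κ • φ)).1 σ = 0 := by
      rw [h]
      rfl
    rw [← h1, red, Submodule.coe_sum, Finset.sum_apply]
    refine Finset.sum_congr rfl fun κ _ => ?_
    rw [Sl_pow_aeval, map_smul, Submodule.coe_smul, Pi.smul_apply, Sl_pow_apply,
      Submodule.coe_smul, Pi.smul_apply, smul_eq_mul, smul_eq_mul]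
    ring

/-! ### Several frequencies -/

/-- The function `cos (μ σ)`. -/
noncomputable def Cf (μ : ℝ) : AA :=
  ⟨fun σ => Real.cos (μ * σ), by
    intro σ _
    have h1 : AnalyticAt ℝ (fun σ : ℝ => μ * σ) σ := analyticAt_const.mul analyticAt_id
    exact AnalyticAt.fun_comp (g := Real.cos) (f := fun σ : ℝ => μ * σ)
      (analytic_cos (μ * σ) (mem_univ _)) h1⟩

theorem Cf_apply (μ σ : ℝ) : (Cf μ).1 σ = Real.cos (μ * σ) := rfl

/-- The polynomial `X² - 2 c X + 1`. -/
noncomputable def qp (c : ℝ) : ℝ[X] := X ^ 2 - C (2 * c) * X + 1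

theorem qp_coprime (c d : ℝ) (h : c ≠ d) : IsCoprime (qp c) (qp d) := by
  have h1 : 2 * (d - c) ≠ 0 := mul_ne_zero two_ne_zero (sub_ne_zero.2 (Ne.symm h))
  refine ⟨1 - C ((2 * (d - c))⁻¹) * (X - C (2 * c)), C ((2 * (d - c))⁻¹) * (X - C (2 * c)), ?_⟩
  have e1 : qp c - qp d = C (2 * (d - c)) * X := by
    unfold qp
    simp only [map_mul, map_sub]
    ring
  have e2 : C ((2 * (d - c))⁻¹) * C (2 * (d - c)) = (1 : ℝ[X]) := by
    rw [← C_mul, inv_mul_cancel₀ h1, C_1]
  have e3 : qp c = X * (X - C (2 * c)) + 1 := by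
    unfold qp; ring
  calc (1 - C ((2 * (d - c))⁻¹) * (X - C (2 * c))) * qp c +
        C ((2 * (d - c))⁻¹) * (X - C (2 * c)) * qp d
      = qp c - C ((2 * (d - c))⁻¹) * (X - C (2 * c)) * (qp c - qp d) := by ring
    _ = qp c - (C ((2 * (d - c))⁻¹) * C (2 * (d - c))) * (X * (X - C (2 * c))) := by
      rw [e1]; ring
    _ = 1 := by rw [e2, e3]; ring

theorem qp_Cf (μ : ℝ) : aeval Tl (qp (Real.cos (μ * Real.pi))) (Cf μ) = 0 := by
  ext σ
  unfold qp
  simp only [map_add, map_sub, aeval_X, map_mul, aeval_C, map_one,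
    LinearMap.add_apply, LinearMap.sub_apply, Module.End.mul_apply,
    Module.algebraMap_end_apply, Module.End.one_apply, pow_two, Submodule.coe_add,
    Submodule.coe_sub, Pi.add_apply, Pi.sub_apply, Submodule.coe_smul, Pi.smul_apply,
    smul_eq_mul, Submodule.coe_zero, Pi.zero_apply, Tl_apply, Cf_apply]
  have e1 : μ * (σ + Real.pi + Real.pi) = μ * (σ + Real.pi) + μ * Real.pi := by ring
  have e2 : μ * σ = μ * (σ + Real.pi) - μ * Real.pi := by ring
  rw [e1, e2, Real.cos_add, Real.cos_sub]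
  ring

theorem indep {ι : Type} [Fintype ι] [DecidableEq ι] (μ : ι → ℝ)
    (hμ : ∀ i j, i ≠ j → Real.cos (μ i * Real.pi) ≠ Real.cos (μ j * Real.pi)) (K : ℕ)
    (c : ι → ℕ → ℝ) (r₀ : ℝ) (hr₀ : 0 < r₀)
    (h : ∀ r ∈ Ioo 0 r₀, ∑ i, ∑ κ ∈ Finset.range (K + 1), c i κ * Wl κ r (Cf (μ i)) = 0) :
    ∀ i, ∀ κ ≤ K, c i κ = 0 := by
  -- the reduced functions
  set F : ι → AA := fun i => red K (fun κ => c i κ • Cf (μ i)) with hF
  have hsum : ∑ i, F i = 0 := by
    have e1 : ∑ i, F i = red K (fun κ => ∑ i, c i κ • Cf (μ i)) := by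
      simp only [hF, red]
      rw [Finset.sum_comm]
      refine Finset.sum_congr rfl fun κ _ => ?_
      rw [map_sum, map_sum, Finset.smul_sum]
    rw [e1]
    apply Wl_zero_injective _ _ r₀ hr₀
    · apply Wl_red
      intro r hr
      rw [← h r hr, Finset.sum_comm]
      refine Finset.sum_congr rfl fun κ _ => ?_
      rw [map_sum]
      refine Finset.sum_congr rfl fun i _ => ?_
      rw [map_smul, smul_eq_mul]
    · intro σ
      have h1 := comm_red Rl Rl_Mlin Rl_Sl K (fun κ => ∑ i, c i κ • Cf (μ i))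
      have h2 : (fun κ => Rl (∑ i, c i κ • Cf (μ i))) = fun κ => ∑ i, c i κ • Cf (μ i) := by
        funext κ
        rw [map_sum]
        refine Finset.sum_congr rfl fun i _ => ?_
        rw [map_smul]
        congr 1
        ext σ
        rw [Rl_apply, Cf_apply, Cf_apply, mul_neg, Real.cos_neg]
      rw [h2] at h1
      have h3 := congrArg (fun φ : AA => φ.1 σ) h1
      simpa only [Rl_apply] using h3
  -- each of them is annihilated by a polynomial in the shift
  have hker : ∀ i, F i ∈ LinearMap.ker (aeval Tl (qp (Real.cos (μ i * Real.pi)))) := by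
    intro i
    rw [LinearMap.mem_ker]
    have hcomm : ∀ (p : ℝ[X]) (φ : ℕ → AA), aeval Tl p (red K φ) =
        red K (fun κ => aeval Tl p (φ κ)) := by
      intro p φ
      apply comm_red
      · intro κ ψ
        induction p using Polynomial.induction_on' with
        | add p q hp hq => simp [map_add, LinearMap.add_apply, hp, hq]
        | monomial n a =>
          rw [← C_mul_X_pow_eq_monomial]
          simp only [map_mul, aeval_C, map_pow, aeval_X, Module.End.mul_apply,
            Module.algebraMap_end_apply, map_smul]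
          congr 1
          induction n generalizing ψ with
          | zero => simp
          | succ n ih =>
            rw [pow_succ, Module.End.mul_apply, Module.End.mul_apply, Tl_Mlin, ih]
      · intro ψ
        induction p using Polynomial.induction_on' with
        | add p q hp hq => simp [map_add, LinearMap.add_apply, hp, hq]
        | monomial n a =>
          rw [← C_mul_X_pow_eq_monomial]
          simp only [map_mul, aeval_C, map_pow, aeval_X, Module.End.mul_apply,
            Module.algebraMap_end_apply, map_smul]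
          congr 1
          induction n generalizing ψ with
          | zero => simp
          | succ n ih =>
            rw [pow_succ, Module.End.mul_apply, Module.End.mul_apply, Tl_Sl, ih]
    rw [hF]
    simp only
    rw [hcomm]
    have : (fun κ => aeval Tl (qp (Real.cos (μ i * Real.pi))) (c i κ • Cf (μ i))) =
        fun _ => 0 := by
      funext κ
      rw [map_smul, qp_Cf, smul_zero]
    rw [this]
    simp [red]
  have hzero : ∀ i, F i = 0 := by
    intro i
    have hcop : IsCoprime (qp (Real.cos (μ i * Real.pi)))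
        (∏ j ∈ Finset.univ.erase i, qp (Real.cos (μ j * Real.pi))) := by
      apply IsCoprime.prod_right
      intro j hj
      exact qp_coprime _ _ (hμ i j (Finset.ne_of_mem_erase hj).symm)
    have hdis := Polynomial.disjoint_ker_aeval_of_isCoprime Tl hcop
    have h2 : F i ∈ LinearMap.ker (aeval Tl
        (∏ j ∈ Finset.univ.erase i, qp (Real.cos (μ j * Real.pi)))) := by
      have e1 : F i = - ∑ j ∈ Finset.univ.erase i, F j := by
        rw [← Finset.add_sum_erase _ _ (Finset.mem_univ i)] at hsum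
        exact eq_neg_of_add_eq_zero_left hsum
      rw [e1]
      apply neg_mem
      apply Submodule.sum_mem
      intro j hj
      rw [LinearMap.mem_ker, ← Finset.prod_erase_mul _ _ hj, map_mul, Module.End.mul_apply,
        LinearMap.mem_ker.1 (hker j), map_zero]
    exact Submodule.disjoint_def.1 hdis _ (hker i) h2
  intro i κ hκ
  refine red_single K (Cf (μ i)) ?_ (c i) (hzero i) κ hκ
  rw [Cf_apply, mul_zero, Real.cos_zero]
  exact one_ne_zero

end Pool.Agent.MP48dd78
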