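import Pool.Agent.Lib.MP_48dd78_an.Avg

/-!
The operators on the space of real analytic functions and the reduction to `κ = 0`.
-/

set_option autoImplicit false

namespace Pool.Agent.MP48dd78

open Set Filter Topology MeasureTheory Polynomial

/-- The space of real analytic functions. -/
def AA : Submodule ℝ (ℝ → ℝ) where
  carrier := {φ | AnalyticOnNhd ℝ φ univ}
  add_mem' := fun ha hb => ha.add hb
  zero_mem' := analyticOnNhd_const
  smul_mem' := fun c _ hf => analyticOnNhd_const.smul hf (f := fun _ => c)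

theorem AAanalytic (φ : AA) : AnalyticOnNhd ℝ φ.1 univ := φ.2

theorem AAcontDiff (φ : AA) : ContDiff ℝ 1 φ.1 := by
  rw [← contDiffOn_univ]
  exact (AAanalytic φ).contDiffOn uniqueDiffOn_univ

theorem AAdiff (φ : AA) : Differentiable ℝ φ.1 :=
  (AAcontDiff φ).differentiable (by norm_num)

theorem AAcont (φ : AA) : Continuous φ.1 := (AAcontDiff φ).continuous

theorem analytic_sin : AnalyticOnNhd ℝ Real.sin univ := Real.analyticOnNhd_sin.mono (subset_univ _)
theorem analytic_cos : AnalyticOnNhd ℝ Real.cos univ := Real.analyticOnNhd_cos.mono (subset_univ _)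

theorem Mop_analytic (κ : ℕ) (φ : AA) : AnalyticOnNhd ℝ (Mop κ φ.1) univ := by
  have h1 := (AAanalytic φ).deriv
  exact ((analytic_sin.mul analytic_cos).mul h1).add
    ((analyticOnNhd_const.mul (analytic_cos.pow 2)).mul (AAanalytic φ))

/-- The operator `M` on analytic functions. -/
noncomputable def Mlin (κ : ℕ) : Module.End ℝ AA where
  toFun φ := ⟨Mop κ φ.1, Mop_analytic κ φ⟩
  map_add' φ ψ := by
    ext σ
    have h : deriv (φ.1 + ψ.1) σ = deriv φ.1 σ + deriv ψ.1 σ :=
      deriv_add (AAdiff φ σ) (AAdiff ψ σ)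
    simp only [Mop, Submodule.coe_add, Pi.add_apply, h]
    ring
  map_smul' c φ := by
    ext σ
    have h : deriv (c • φ.1) σ = c * deriv φ.1 σ := by
      have := deriv_const_smul c (AAdiff φ σ)
      simpa using this
    simp only [Mop, Submodule.coe_smul, Pi.smul_apply, smul_eq_mul, h, RingHom.id_apply]
    ring

theorem Mlin_apply (κ : ℕ) (φ : AA) (σ : ℝ) : (Mlin κ φ).1 σ = Mop κ φ.1 σ := rfl

/-- Multiplication by `sin²`. -/
noncomputable def Sl : Module.End ℝ AA where
  toFun φ := ⟨fun σ => Real.sin σ ^ 2 * φ.1 σ, by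
    have := (analytic_sin.pow 2).mul (AAanalytic φ)
    exact this⟩
  map_add' φ ψ := by
    ext σ
    simp only [Submodule.coe_add, Pi.add_apply]
    ring
  map_smul' c φ := by
    ext σ
    simp only [Submodule.coe_smul, Pi.smul_apply, smul_eq_mul, RingHom.id_apply]
    ring

theorem Sl_apply (φ : AA) (σ : ℝ) : (Sl φ).1 σ = Real.sin σ ^ 2 * φ.1 σ := rfl

/-- The shift by `π`. -/
noncomputable def Tl : Module.End ℝ AA where
  toFun φ := ⟨fun σ => φ.1 (σ + Real.pi), by
    intro σ _
    have h1 : AnalyticAt ℝ (fun σ : ℝ => σ + Real.pi) σ := analyticAt_id.add analyticAt_const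
    exact AnalyticAt.fun_comp (g := φ.1) (f := fun σ : ℝ => σ + Real.pi)
      ((AAanalytic φ) (σ + Real.pi) (mem_univ _)) h1⟩
  map_add' φ ψ := by
    ext σ
    simp only [Submodule.coe_add, Pi.add_apply]
  map_smul' c φ := by
    ext σ
    simp only [Submodule.coe_smul, Pi.smul_apply, smul_eq_mul, RingHom.id_apply]

theorem Tl_apply (φ : AA) (σ : ℝ) : (Tl φ).1 σ = φ.1 (σ + Real.pi) := rfl

theorem Tl_Sl (φ : AA) : Tl (Sl φ) = Sl (Tl φ) := by
  ext σ
  simp only [Tl_apply, Sl_apply, Real.sin_add_pi]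
  ring

theorem Tl_Mlin (κ : ℕ) (φ : AA) : Tl (Mlin κ φ) = Mlin κ (Tl φ) := by
  ext σ
  have h : deriv (Tl φ).1 σ = deriv φ.1 (σ + Real.pi) := by
    have : (Tl φ).1 = fun σ => φ.1 (σ + Real.pi) := rfl
    rw [this, deriv_comp_add_const]
  simp only [Tl_apply, Mlin_apply, Mop, Real.sin_add_pi, Real.cos_add_pi, h]
  ring

theorem Sl_Mlin (κ : ℕ) (φ : AA) : Sl (Mlin (κ + 1) φ) = Mlin κ (Sl φ) := by
  ext σ
  have h : deriv (Sl φ).1 σ =
      2 * Real.sin σ * Real.cos σ * φ.1 σ + Real.sin σ ^ 2 * deriv φ.1 σ := by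
    have h1 : HasDerivAt (fun σ => Real.sin σ ^ 2 * φ.1 σ)
        ((2 * Real.sin σ ^ 1 * Real.cos σ) * φ.1 σ + Real.sin σ ^ 2 * deriv φ.1 σ) σ :=
      ((Real.hasDerivAt_sin σ).pow 2).mul (AAdiff φ σ).hasDerivAt
    have h2 := h1.deriv
    rw [pow_one] at h2
    exact h2
  simp only [Sl_apply, Mlin_apply, Mop, h]
  push_cast
  ring

theorem Sl_aeval (κ : ℕ) (p : ℝ[X]) (φ : AA) :
    Sl (aeval (Mlin (κ + 1)) p φ) = aeval (Mlin κ) p (Sl φ) := by
  induction p using Polynomial.induction_on' with
  | add p q hp hq => simp [map_add, LinearMap.add_apply, hp, hq]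
  | monomial n a =>
    rw [← C_mul_X_pow_eq_monomial]
    simp only [map_mul, aeval_C, map_pow, aeval_X, Module.End.mul_apply,
      Module.algebraMap_end_apply, map_smul]
    congr 1
    induction n generalizing φ with
    | zero => simp
    | succ n ih =>
      rw [pow_succ, pow_succ, Module.End.mul_apply, Module.End.mul_apply, ih, Sl_Mlin]

theorem Tl_aeval (κ : ℕ) (p : ℝ[X]) (φ : AA) :
    Tl (aeval (Mlin κ) p φ) = aeval (Mlin κ) p (Tl φ) := by
  induction p using Polynomial.induction_on' with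
  | add p q hp hq => simp [map_add, LinearMap.add_apply, hp, hq]
  | monomial n a =>
    rw [← C_mul_X_pow_eq_monomial]
    simp only [map_mul, aeval_C, map_pow, aeval_X, Module.End.mul_apply,
      Module.algebraMap_end_apply, map_smul]
    congr 1
    induction n generalizing φ with
    | zero => simp
    | succ n ih =>
      rw [pow_succ, Module.End.mul_apply, Module.End.mul_apply, ih, Tl_Mlin]

/-- The value at `0` is an eigenfunctional. -/
theorem aeval_zero (κ : ℕ) (p : ℝ[X]) (φ : AA) :
    (aeval (Mlin κ) p φ).1 0 = p.eval (2 * κ : ℝ) * φ.1 0 := by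
  induction p using Polynomial.induction_on' with
  | add p q hp hq =>
    simp only [map_add, LinearMap.add_apply, Submodule.coe_add, Pi.add_apply, hp, hq, eval_add]
    ring
  | monomial n a =>
    rw [← C_mul_X_pow_eq_monomial]
    simp only [map_mul, aeval_C, map_pow, aeval_X, Module.End.mul_apply,
      Module.algebraMap_end_apply, eval_mul, eval_C, eval_pow, eval_X,
      Submodule.coe_smul, Pi.smul_apply, smul_eq_mul]
    rw [mul_assoc]
    congr 1
    induction n generalizing φ with
    | zero => simp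
    | succ n ih =>
      rw [pow_succ, Module.End.mul_apply, ih, Mlin_apply, Mop]
      simp
      ring

end Pool.Agent.MP48dd78
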