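import Pool.Agent.Lib.MP_48dd78_an.PolyQ

/-!
The choice of the perturbation.
-/

set_option autoImplicit false

namespace Pool.Agent.MP48dd78

open Set Filter Topology MeasureTheory

theorem eventually_lt_all {α : Type} (l : Filter α) (n : ℕ) (P : ℕ → α → Prop)
    (h : ∀ i < n, ∀ᶠ x in l, P i x) : ∀ᶠ x in l, ∀ i < n, P i x := by
  induction n with
  | zero => exact Eventually.of_forall fun x i hi => absurd hi (Nat.not_lt_zero i)
  | succ n ih =>
    filter_upwards [ih (fun i hi => h i (hi.trans (Nat.lt_succ_self n))),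
      h n (Nat.lt_succ_self n)] with x h1 h2 i hi
    rcases Nat.lt_succ_iff_lt_or_eq.1 hi with h3 | h3
    · exact h1 i h3
    · rw [h3]; exact h2

/-- The period of the orbit with parameter `r` around the `i`-th center of `G • Zf`. -/
noncomputable def Per (m i : ℕ) (G : MvPolynomial (Fin 2) ℝ) (r : ℝ) : ℝ :=
  ∫ θ in (0 : ℝ)..2 * Real.pi, 1 / ev G (Ga m i r θ)

theorem abs_Ga_le (m i : ℕ) (r θ : ℝ) (hr : r ∈ Ioo (0 : ℝ) 1) :
    |(Ga m i r θ).1| ≤ 1 ∧ |(Ga m i r θ).2| ≤ 1 := by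
  constructor
  · exact Real.abs_cos_le_one _
  · refine (abs_yy_le r θ).trans ?_
    rw [abs_of_pos hr.1]
    exact hr.2.le

theorem exists_bound (q : MvPolynomial (Fin 2) ℝ) :
    ∃ M : ℝ, 0 ≤ M ∧ ∀ z : ℝ × ℝ, |z.1| ≤ 1 → |z.2| ≤ 1 → |ev q z| ≤ M := by
  have hK : IsCompact (Icc (-1 : ℝ) 1 ×ˢ Icc (-1 : ℝ) 1) := isCompact_Icc.prod isCompact_Icc
  obtain ⟨C, hC⟩ := hK.exists_bound_of_continuousOn (continuous_ev q).continuousOn
  refine ⟨|C|, abs_nonneg _, fun z h1 h2 => ?_⟩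
  exact (hC z ⟨abs_le.1 h1, abs_le.1 h2⟩).trans (le_abs_self _)

theorem Per_eps (m i : ℕ) (hm : 0 < m) (q : MvPolynomial (Fin 2) ℝ) (r : ℝ)
    (hr : r ∈ Ioo (0 : ℝ) 1) :
    HasDerivAt (fun ε => Per m i (1 + MvPolynomial.C ε * q) r) (-Iav m i q r) 0 := by
  obtain ⟨M, _, hM⟩ := exists_bound q
  have h1 := hasDerivAt_eps (fun θ => ev q (Ga m i r θ))
    ((continuous_ev q).comp (continuous_Ga m i hm r)) M
    (fun θ => hM _ (abs_Ga_le m i r θ hr).1 (abs_Ga_le m i r θ hr).2)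
  have h2 : (fun ε => Per m i (1 + MvPolynomial.C ε * q) r) =
      fun ε => ∫ θ in (0 : ℝ)..2 * Real.pi, 1 / (1 + ε * ev q (Ga m i r θ)) := by
    funext ε
    unfold Per
    have h3 : ∀ z, ev (1 + MvPolynomial.C ε * q) z = 1 + ε * ev q z := by
      intro z
      rw [ev_add, ev_C_mul]
      congr 1
      simp [ev]
    simp only [h3]
  rw [h2]
  exact h1

theorem Per_zero (m i : ℕ) (q : MvPolynomial (Fin 2) ℝ) (r : ℝ) :
    Per m i (1 + MvPolynomial.C 0 * q) r = 2 * Real.pi := by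
  have h1 : (1 : MvPolynomial (Fin 2) ℝ) + MvPolynomial.C 0 * q = 1 := by simp
  rw [h1]
  unfold Per ev
  simp

/-- The existence of the perturbation. -/
theorem exists_G (k n : ℕ) (hn : 4 * 3 ^ k + 3 ≤ n) :
    ∃ (G : MvPolynomial (Fin 2) ℝ) (a b : ℕ → ℕ → ℝ), G ≠ 0 ∧
      G.totalDegree + 3 ^ k + 2 = n ∧
      (∀ z : ℝ × ℝ, |z.1| ≤ 1 → |z.2| ≤ 1 → 0 < ev G z) ∧
      (∀ s, ∀ p < Vn s * (3 ^ k + 1), a s p ∈ Ioo (0 : ℝ) 1) ∧
      (∀ s, ∀ p < Vn s * (3 ^ k + 1), b s p ∈ Ioo (0 : ℝ) 1) ∧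
      (∀ s, ∀ p < Vn s * (3 ^ k + 1), a s p < b s p) ∧
      (∀ s, ∀ p, p + 1 < Vn s * (3 ^ k + 1) → b s p < a s (p + 1)) ∧
      ∀ s < k, ∀ t < 3 ^ (k - s - 1), ∀ p < Vn s * (3 ^ k + 1),
        0 < (-1) ^ t * ((-1) ^ p *
          (Per (3 ^ k) (ci s t) G (a s p) - Per (3 ^ k) (ci s t) G (b s p))) := by
  choose c a b ha hb hab hba hinc using fun s => exists_increments s (3 ^ k)
  have hm : 0 < 3 ^ k := by positivity
  set N' : ℕ := n - 3 ^ k - 2 with hN'
  have hN'1 : 3 ^ k + 2 * 3 ^ k < N' := by omega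
  have hN'2 : N' + 3 ^ k + 2 = n := by omega
  -- the terms of the perturbation
  let Q : ℕ → MvPolynomial (Fin 2) ℝ := fun j =>
    if j < k then qper k (3 ^ k) j (c j) else MvPolynomial.X 1 ^ N'
  -- the increments of the averages
  let x : ℕ → ℕ → ℕ → ℕ → ℝ := fun s t p j =>
    (-1) ^ t * ((-1) ^ p * (Iav (3 ^ k) (ci s t) (Q j) (b s p) -
      Iav (3 ^ k) (ci s t) (Q j) (a s p)))
  have hx0 : ∀ s < k, ∀ t p, ∀ j < s, x s t p j = 0 := by
    intro s hs t p j hj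
    have hjk : j < k := hj.trans hs
    simp only [x, Q, if_pos hjk]
    rw [Iav_qper_zero k (3 ^ k) j (c j) s t hs hj, Iav_qper_zero k (3 ^ k) j (c j) s t hs hj]
    ring
  have hxs : ∀ s < k, ∀ t, ∀ p < Vn s * (3 ^ k + 1), 0 < x s t p s := by
    intro s hs t p hp
    simp only [x, Q, if_pos hs]
    rw [Iav_qper_same k (3 ^ k) s (c s) t hs, Iav_qper_same k (3 ^ k) s (c s) t hs]
    have h1 := hinc s p hp
    have h2 : (0 : ℝ) < √3 / 2 := by positivity
    have h3 : (-1 : ℝ) ^ t * (-1) ^ t = 1 := by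
      rcases neg_one_pow_eq_or ℝ t with h | h <;> rw [h] <;> norm_num
    have h4 := mul_pos h2 h1
    rw [← mul_sub]
    have h5 : ∀ A B D : ℝ, A * (B * (A * (√3 / 2) * D)) = (A * A) * (√3 / 2 * (B * D)) := by
      intro A B D; ring
    rw [h5, h3, one_mul]
    exact h4
  have hη : ∀ᶠ η in 𝓝[>] (0 : ℝ), ∀ s < k, ∀ t < 3 ^ (k - s - 1),
      ∀ p < Vn s * (3 ^ k + 1), 0 < ∑ j ∈ Finset.range (k + 1), η ^ j * x s t p j := by
    refine eventually_lt_all _ _ _ fun s hs => eventually_lt_all _ _ _ fun t ht =>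
      eventually_lt_all _ _ _ fun p hp => ?_
    exact eventually_eta (x s t p) s (k + 1) (by omega) (hx0 s hs t p) (hxs s hs t p hp)
  obtain ⟨η, hη1, hη0⟩ := (hη.and self_mem_nhdsWithin).exists
  have hη0' : (0 : ℝ) < η := hη0
  -- the perturbation
  let q : MvPolynomial (Fin 2) ℝ := ∑ j ∈ Finset.range (k + 1), MvPolynomial.C (η ^ j) * Q j
  have hIq : ∀ i r, Iav (3 ^ k) i q r =
      ∑ j ∈ Finset.range (k + 1), η ^ j * Iav (3 ^ k) i (Q j) r := by
    intro i r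
    rw [Iav_sum _ _ hm]
    exact Finset.sum_congr rfl fun j _ => Iav_C_mul _ _ _ _ _
  have hIx : ∀ s < k, ∀ t < 3 ^ (k - s - 1), ∀ p < Vn s * (3 ^ k + 1),
      0 < (-1) ^ t * ((-1) ^ p * (Iav (3 ^ k) (ci s t) q (b s p) -
        Iav (3 ^ k) (ci s t) q (a s p))) := by
    intro s hs t ht p hp
    have h1 := hη1 s hs t ht p hp
    have h2 : ∑ j ∈ Finset.range (k + 1), η ^ j * x s t p j =
        (-1) ^ t * ((-1) ^ p * (Iav (3 ^ k) (ci s t) q (b s p) -
        Iav (3 ^ k) (ci s t) q (a s p))) := by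
      rw [hIq, hIq, ← Finset.sum_sub_distrib, Finset.mul_sum, Finset.mul_sum]
      refine Finset.sum_congr rfl fun j _ => ?_
      simp only [x]
      ring
    rw [← h2]
    exact h1
  -- the choice of `ε`
  obtain ⟨M, hM0, hM⟩ := exists_bound q
  have hε1 : ∀ᶠ ε in 𝓝[>] (0 : ℝ), ∀ s < k, ∀ t < 3 ^ (k - s - 1),
      ∀ p < Vn s * (3 ^ k + 1), 0 < (-1) ^ t * ((-1) ^ p *
        (Per (3 ^ k) (ci s t) (1 + MvPolynomial.C ε * q) (a s p) -
          Per (3 ^ k) (ci s t) (1 + MvPolynomial.C ε * q) (b s p))) := by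
    refine eventually_lt_all _ _ _ fun s hs => eventually_lt_all _ _ _ fun t ht =>
      eventually_lt_all _ _ _ fun p hp => ?_
    have h1 := Per_eps (3 ^ k) (ci s t) hm q (a s p) (ha s p hp)
    have h2 := Per_eps (3 ^ k) (ci s t) hm q (b s p) (hb s p hp)
    have h3 := ((h1.sub h2).const_mul ((-1) ^ p)).const_mul ((-1) ^ t)
    have h4 := hIx s hs t ht p hp
    have h5 : (-1) ^ t * ((-1) ^ p * (-Iav (3 ^ k) (ci s t) q (a s p) -
        -Iav (3 ^ k) (ci s t) q (b s p))) = (-1) ^ t * ((-1) ^ p *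
        (Iav (3 ^ k) (ci s t) q (b s p) - Iav (3 ^ k) (ci s t) q (a s p))) := by ring
    rw [h5] at h3
    filter_upwards [pos_eventually_gt _ _ _ h3 h4] with ε hε
    rw [zero_add] at hε
    simp only [Pi.sub_apply, Per_zero, sub_self, mul_zero, sub_zero] at hε
    exact hε
  have hε2 : ∀ᶠ ε in 𝓝[>] (0 : ℝ), ε * M < 1 := by
    have h1 : Tendsto (fun ε : ℝ => ε * M) (𝓝 0) (𝓝 (0 * M)) :=
      (continuous_id.mul continuous_const).tendsto 0
    rw [zero_mul] at h1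
    exact (h1.eventually_lt_const one_pos).filter_mono nhdsWithin_le_nhds
  obtain ⟨ε, ⟨hε3, hε4⟩, hε0⟩ := ((hε1.and hε2).and self_mem_nhdsWithin).exists
  have hε0' : (0 : ℝ) < ε := hε0
  have hdeg : (1 + MvPolynomial.C ε * q : MvPolynomial (Fin 2) ℝ).totalDegree = N' := by
    have h1 : (1 + MvPolynomial.C ε * q : MvPolynomial (Fin 2) ℝ) =
        (1 + MvPolynomial.C ε * ∑ j ∈ Finset.range k, MvPolynomial.C (η ^ j) * Q j) +
          MvPolynomial.C (ε * η ^ k) * MvPolynomial.X 1 ^ N' := by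
      have h2 : Q k = MvPolynomial.X 1 ^ N' := by simp [Q]
      simp only [q]
      rw [Finset.sum_range_succ, h2, map_mul]
      ring
    have h3 : (MvPolynomial.C (ε * η ^ k) * MvPolynomial.X 1 ^ N' :
        MvPolynomial (Fin 2) ℝ).totalDegree = N' := by
      rw [MvPolynomial.totalDegree_mul_of_isDomain, MvPolynomial.totalDegree_C,
        MvPolynomial.totalDegree_X_pow, zero_add]
      · rw [Ne, MvPolynomial.C_eq_zero]
        positivity
      · exact pow_ne_zero _ (MvPolynomial.X_ne_zero _)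
    have h4 : (1 + MvPolynomial.C ε * ∑ j ∈ Finset.range k, MvPolynomial.C (η ^ j) * Q j :
        MvPolynomial (Fin 2) ℝ).totalDegree < 3 ^ k + 2 * 3 ^ k := by
      have hpos : 0 < 3 ^ k + 2 * 3 ^ k := by positivity
      refine lt_of_le_of_lt (MvPolynomial.totalDegree_add _ _) (max_lt ?_ ?_)
      · rw [MvPolynomial.totalDegree_one]
        exact hpos
      · refine lt_of_le_of_lt (MvPolynomial.totalDegree_mul _ _) ?_
        rw [MvPolynomial.totalDegree_C, zero_add]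
        refine lt_of_le_of_lt (MvPolynomial.totalDegree_finsetSum _ _) ?_
        rw [Finset.sup_lt_iff (by simp)]
        intro j hj
        refine lt_of_le_of_lt (MvPolynomial.totalDegree_mul _ _) ?_
        rw [MvPolynomial.totalDegree_C, zero_add]
        have hjk := Finset.mem_range.1 hj
        simp only [Q, if_pos hjk]
        exact totalDegree_qper k (3 ^ k) j (c j) hjk
    rw [h1, MvPolynomial.totalDegree_add_eq_right_of_totalDegree_lt (by rw [h3]; omega), h3]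
  refine ⟨1 + MvPolynomial.C ε * q, a, b, ?_, ?_, ?_, ha, hb, hab, hba, hε3⟩
  · intro h0
    rw [h0, MvPolynomial.totalDegree_zero] at hdeg
    omega
  · rw [hdeg]
    exact hN'2
  · intro z h1 h2
    have h3 : ev (1 + MvPolynomial.C ε * q) z = 1 + ε * ev q z := by
      rw [ev_add, ev_C_mul]
      congr 1
      simp [ev]
    rw [h3]
    have h4 := hM z h1 h2
    have h5 : |ε * ev q z| ≤ ε * M := by
      rw [abs_mul, abs_of_pos hε0']
      exact mul_le_mul_of_nonneg_left h4 hε0'.le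
    have h6 := (abs_lt.1 (lt_of_le_of_lt h5 hε4)).1
    linarith

end Pool.Agent.MP48dd78
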