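import Pool.Agent.Lib.MP_48dd78_an.Choose
import Pool.Agent.Lib.MP_48dd78_an.Dyn

/-!
The perturbing polynomials and their averages over the orbits.
-/

set_option autoImplicit false

namespace Pool.Agent.MP48dd78

open Set Filter Topology MeasureTheory

/-- Evaluation of a polynomial in two variables at a point of the plane. -/
noncomputable def ev (q : MvPolynomial (Fin 2) ℝ) (z : ℝ × ℝ) : ℝ :=
  MvPolynomial.eval ![z.1, z.2] q

theorem continuous_ev (q : MvPolynomial (Fin 2) ℝ) : Continuous (ev q) := by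
  have h1 : Continuous fun z : ℝ × ℝ => (![z.1, z.2] : Fin 2 → ℝ) := by
    refine continuous_pi fun i => ?_
    fin_cases i
    · exact continuous_fst
    · exact continuous_snd
  exact (MvPolynomial.continuous_eval q).comp h1

/-- The integral of a polynomial over the orbit with parameter `r` around the `i`-th center. -/
noncomputable def Iav (m i : ℕ) (q : MvPolynomial (Fin 2) ℝ) (r : ℝ) : ℝ :=
  ∫ θ in (0 : ℝ)..2 * Real.pi, ev q (Ga m i r θ)

theorem ev_add (p q : MvPolynomial (Fin 2) ℝ) (z : ℝ × ℝ) : ev (p + q) z = ev p z + ev q z := by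
  simp [ev]

theorem ev_C_mul (c : ℝ) (q : MvPolynomial (Fin 2) ℝ) (z : ℝ × ℝ) :
    ev (MvPolynomial.C c * q) z = c * ev q z := by
  simp [ev]

theorem ev_sum {ι : Type} (s : Finset ι) (f : ι → MvPolynomial (Fin 2) ℝ) (z : ℝ × ℝ) :
    ev (∑ i ∈ s, f i) z = ∑ i ∈ s, ev (f i) z := by
  simp [ev]

theorem ii_ev (m i : ℕ) (hm : 0 < m) (q : MvPolynomial (Fin 2) ℝ) (r a b : ℝ) :
    IntervalIntegrable (fun θ => ev q (Ga m i r θ)) volume a b :=
  ((continuous_ev q).comp (continuous_Ga m i hm r)).intervalIntegrable _ _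

theorem Iav_add (m i : ℕ) (hm : 0 < m) (p q : MvPolynomial (Fin 2) ℝ) (r : ℝ) :
    Iav m i (p + q) r = Iav m i p r + Iav m i q r := by
  unfold Iav
  rw [← intervalIntegral.integral_add (ii_ev m i hm p r _ _) (ii_ev m i hm q r _ _)]
  simp only [ev_add]

theorem Iav_C_mul (m i : ℕ) (c : ℝ) (q : MvPolynomial (Fin 2) ℝ) (r : ℝ) :
    Iav m i (MvPolynomial.C c * q) r = c * Iav m i q r := by
  unfold Iav
  rw [← intervalIntegral.integral_const_mul]
  simp only [ev_C_mul]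

theorem Iav_sum {ι : Type} (m i : ℕ) (hm : 0 < m) (s : Finset ι)
    (f : ι → MvPolynomial (Fin 2) ℝ) (r : ℝ) :
    Iav m i (∑ j ∈ s, f j) r = ∑ j ∈ s, Iav m i (f j) r := by
  unfold Iav
  rw [← intervalIntegral.integral_finsetSum fun j _ => ii_ev m i hm (f j) r _ _]
  simp only [ev_sum]

/-- The polynomial `T_L(u) y ^ (2 κ)`. -/
noncomputable def mono (L κ : ℕ) : MvPolynomial (Fin 2) ℝ :=
  Polynomial.aeval (MvPolynomial.X 0 : MvPolynomial (Fin 2) ℝ) (Polynomial.Chebyshev.T ℝ L) *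
    MvPolynomial.X 1 ^ (2 * κ)

theorem totalDegree_aeval_le (p : Polynomial ℝ) (i : Fin 2) :
    (Polynomial.aeval (MvPolynomial.X i : MvPolynomial (Fin 2) ℝ) p).totalDegree ≤
      p.natDegree := by
  rw [Polynomial.aeval_eq_sum_range]
  refine (MvPolynomial.totalDegree_finsetSum _ _).trans (Finset.sup_le fun j hj => ?_)
  refine (MvPolynomial.totalDegree_smul_le _ _).trans ?_
  refine (MvPolynomial.totalDegree_pow _ _).trans ?_
  rw [MvPolynomial.totalDegree_X, mul_one]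
  have := Finset.mem_range.1 hj
  omega

theorem totalDegree_mono_le (L κ : ℕ) : (mono L κ).totalDegree ≤ L + 2 * κ := by
  unfold mono
  refine (MvPolynomial.totalDegree_mul _ _).trans ?_
  refine add_le_add ?_ ?_
  · refine (totalDegree_aeval_le _ _).trans ?_
    rw [Polynomial.Chebyshev.natDegree_T]
    simp
  · refine (MvPolynomial.totalDegree_pow _ _).trans ?_
    rw [MvPolynomial.totalDegree_X, mul_one]

theorem ev_aeval (p : Polynomial ℝ) (z : ℝ × ℝ) :
    ev (Polynomial.aeval (MvPolynomial.X 0 : MvPolynomial (Fin 2) ℝ) p) z = p.eval z.1 := by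
  unfold ev
  have h1 : MvPolynomial.eval ![z.1, z.2]
      (Polynomial.aeval (MvPolynomial.X 0 : MvPolynomial (Fin 2) ℝ) p) =
      Polynomial.aeval (MvPolynomial.eval ![z.1, z.2] (MvPolynomial.X 0)) p := by
    rw [← MvPolynomial.coe_aeval_eq_eval]
    exact (Polynomial.aeval_algHom_apply (MvPolynomial.aeval ![z.1, z.2])
      (MvPolynomial.X 0 : MvPolynomial (Fin 2) ℝ) p).symm
  rw [h1, MvPolynomial.eval_X]
  simp [Polynomial.aeval_def, Polynomial.eval₂_eq_eval_map]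

theorem ev_mono (L κ : ℕ) (m i : ℕ) (r θ : ℝ) :
    ev (mono L κ) (Ga m i r θ) = Real.cos (L * ps m i r θ) * yy r θ ^ (2 * κ) := by
  have h1 : ev (mono L κ) (Ga m i r θ) =
      ev (Polynomial.aeval (MvPolynomial.X 0 : MvPolynomial (Fin 2) ℝ)
        (Polynomial.Chebyshev.T ℝ L)) (Ga m i r θ) * (Ga m i r θ).2 ^ (2 * κ) := by
    unfold mono ev
    simp
  rw [h1, ev_aeval]
  unfold Ga
  simp only
  rw [Polynomial.Chebyshev.T_real_cos]
  simp

theorem Iav_mono (L κ m i : ℕ) (r : ℝ) :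
    Iav m i (mono L κ) r = Real.cos (L * dl m i) * Wl κ r (Cf (L / m)) := by
  unfold Iav
  simp only [ev_mono]
  exact average_cos m i κ L r

/-- The index of the center `(s, t)`. -/
def ci (s t : ℕ) : ℕ := (3 ^ s * (6 * t + 1) - 1) / 2

theorem two_ci (s t : ℕ) : 2 * ci s t + 1 = 3 ^ s * (6 * t + 1) := by
  have h1 : 3 ^ s * (6 * t + 1) % 2 = 1 := by
    rw [Nat.mul_mod, three_pow_mod_two]
    omega
  unfold ci
  omega

theorem ci_lt (k s t : ℕ) (hs : s < k) (ht : t < 3 ^ (k - s - 1)) : ci s t < 3 ^ k := by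
  have h1 := two_ci s t
  have h2 : 3 ^ k = 3 ^ s * (3 * 3 ^ (k - s - 1)) := by
    rw [← pow_succ', ← pow_add]
    congr 1
    omega
  have h3 : 3 ^ s * (6 * t + 1) < 3 ^ s * (6 * 3 ^ (k - s - 1)) :=
    Nat.mul_lt_mul_of_pos_left (by omega) (by positivity)
  have h4 : 3 ^ s * (6 * 3 ^ (k - s - 1)) = 2 * 3 ^ k := by rw [h2]; ring
  omega

theorem ci_inj (s t s' t' : ℕ) (h : ci s t = ci s' t') : s = s' ∧ t = t' := by
  have h1 := two_ci s t
  have h2 := two_ci s' t'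
  rw [h] at h1
  have h3 : 3 ^ s * (6 * t + 1) = 3 ^ s' * (6 * t' + 1) := h1.symm.trans h2
  have hs : s = s' := by
    rcases lt_trichotomy s s' with hlt | heq | hgt
    · exfalso
      obtain ⟨d, rfl⟩ := Nat.exists_eq_add_of_lt hlt
      have h4 : 3 ^ s * (6 * t + 1) = 3 ^ s * (3 ^ (d + 1) * (6 * t' + 1)) := by
        rw [h3, add_assoc, pow_add 3 s, mul_assoc]
      have h5 := Nat.eq_of_mul_eq_mul_left (by positivity) h4
      rw [pow_succ', mul_assoc] at h5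
      omega
    · exact heq
    · exfalso
      obtain ⟨d, rfl⟩ := Nat.exists_eq_add_of_lt hgt
      have h4 : 3 ^ s' * (3 ^ (d + 1) * (6 * t + 1)) = 3 ^ s' * (6 * t' + 1) := by
        rw [← h3, add_assoc, pow_add 3 s', mul_assoc]
      have h5 := Nat.eq_of_mul_eq_mul_left (by positivity) h4
      rw [pow_succ', mul_assoc] at h5
      omega
  subst hs
  have h5 := Nat.eq_of_mul_eq_mul_left (by positivity) h3
  exact ⟨rfl, by omega⟩

/-- The frequency `(6 v + 1) 3^(k - j - 1)`. -/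
def fr (k j v : ℕ) : ℕ := (6 * v + 1) * 3 ^ (k - j - 1)

theorem fr_div (k j v : ℕ) (hj : j < k) : ((fr k j v : ℕ) : ℝ) / ((3 ^ k : ℕ) : ℝ) = mu j v := by
  have h2 : 3 ^ k = 3 ^ (k - j - 1) * 3 ^ (j + 1) := by
    rw [← pow_add]
    congr 1
    omega
  unfold fr mu
  rw [h2]
  push_cast
  have : (3 : ℝ) ^ (k - j - 1) ≠ 0 := by positivity
  field_simp

theorem fr_dl (k j v s t : ℕ) (hj : j < k) :
    (fr k j v : ℝ) * dl (3 ^ k) (ci s t) =
      (((6 * v + 1) * (6 * t + 1) * 3 ^ s : ℕ) : ℝ) * Real.pi / (2 * 3 ^ (j + 1)) := by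
  have h1 : ((2 * ci s t + 1 : ℕ) : ℝ) = ((3 ^ s * (6 * t + 1) : ℕ) : ℝ) := by
    rw [two_ci]
  have h2 : (3 : ℝ) ^ k = 3 ^ (k - j - 1) * 3 ^ (j + 1) := by
    rw [← pow_add]
    congr 1
    omega
  unfold dl fr
  push_cast at h1 ⊢
  rw [h1, h2]
  have : (3 : ℝ) ^ (k - j - 1) ≠ 0 := by positivity
  field_simp

theorem cos_odd_mul (a : ℕ) (ha : a % 2 = 1) : Real.cos (a * Real.pi / 2) = 0 := by
  have h1 : a = 2 * (a / 2) + 1 := by omega
  rw [h1]
  push_cast
  exact cos_half (a / 2)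

theorem cos_fr_zero (k j v s t : ℕ) (hs : s < k) (hj : j < s) :
    Real.cos ((fr k j v : ℝ) * dl (3 ^ k) (ci s t)) = 0 := by
  rw [fr_dl k j v s t (hj.trans hs)]
  have h1 : (((6 * v + 1) * (6 * t + 1) * 3 ^ s : ℕ) : ℝ) * Real.pi / (2 * 3 ^ (j + 1)) =
      (((6 * v + 1) * (6 * t + 1) * 3 ^ (s - (j + 1)) : ℕ) : ℝ) * Real.pi / 2 := by
    have h2 : (3 : ℝ) ^ s = 3 ^ (s - (j + 1)) * 3 ^ (j + 1) := by
      rw [← pow_add]
      congr 1
      omega
    push_cast
    rw [h2]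
    field_simp
  rw [h1]
  apply cos_odd_mul
  rw [Nat.mul_mod, Nat.mul_mod (6 * v + 1), three_pow_mod_two]
  have e1 : (6 * v + 1) % 2 = 1 := by omega
  have e2 : (6 * t + 1) % 2 = 1 := by omega
  rw [e1, e2]

theorem cos_add_nat_mul_pi (x : ℝ) (n : ℕ) :
    Real.cos (x + n * Real.pi) = (-1) ^ n * Real.cos x := Real.cos_add_nat_mul_pi x n

theorem cos_fr_same (k v s t : ℕ) (hs : s < k) :
    Real.cos ((fr k s v : ℝ) * dl (3 ^ k) (ci s t)) = (-1) ^ (v + t) * (√3 / 2) := by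
  rw [fr_dl k s v s t hs]
  have h1 : (((6 * v + 1) * (6 * t + 1) * 3 ^ s : ℕ) : ℝ) * Real.pi / (2 * 3 ^ (s + 1)) =
      Real.pi / 6 + ((6 * v * t + (v + t) : ℕ) : ℝ) * Real.pi := by
    push_cast
    rw [pow_succ]
    field_simp
    ring
  rw [h1, cos_add_nat_mul_pi, Real.cos_pi_div_six]
  congr 1
  rw [pow_add]
  have h2 : (-1 : ℝ) ^ (6 * v * t) = 1 := by
    have : 6 * v * t = 2 * (3 * v * t) := by ring
    rw [this, pow_mul]
    norm_num
  rw [h2, one_mul]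

/-- The perturbation of level `j`. -/
noncomputable def qper (k K j : ℕ) (c : ℕ → ℕ → ℝ) : MvPolynomial (Fin 2) ℝ :=
  ∑ v ∈ Finset.range (Vn j), ∑ κ ∈ Finset.range (K + 1),
    MvPolynomial.C ((-1) ^ v * c v κ) * mono (fr k j v) κ

theorem Iav_qper (k K j : ℕ) (c : ℕ → ℕ → ℝ) (hj : j < k) (i : ℕ) (r : ℝ) :
    Iav (3 ^ k) i (qper k K j c) r =
      ∑ v ∈ Finset.range (Vn j), ∑ κ ∈ Finset.range (K + 1),
        (-1) ^ v * c v κ * (Real.cos ((fr k j v : ℝ) * dl (3 ^ k) i) *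
          Wl κ r (Cf (mu j v))) := by
  have hm : 0 < 3 ^ k := by positivity
  unfold qper
  rw [Iav_sum _ _ hm]
  refine Finset.sum_congr rfl fun v _ => ?_
  rw [Iav_sum _ _ hm]
  refine Finset.sum_congr rfl fun κ _ => ?_
  rw [Iav_C_mul, Iav_mono, fr_div k j v hj]

theorem Iav_qper_zero (k K j : ℕ) (c : ℕ → ℕ → ℝ) (s t : ℕ) (hs : s < k) (hj : j < s) (r : ℝ) :
    Iav (3 ^ k) (ci s t) (qper k K j c) r = 0 := by
  rw [Iav_qper k K j c (hj.trans hs)]
  refine Finset.sum_eq_zero fun v _ => Finset.sum_eq_zero fun κ _ => ?_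
  rw [cos_fr_zero k j v s t hs hj]
  ring

theorem Iav_qper_same (k K s : ℕ) (c : ℕ → ℕ → ℝ) (t : ℕ) (hs : s < k) (r : ℝ) :
    Iav (3 ^ k) (ci s t) (qper k K s c) r = (-1) ^ t * (√3 / 2) *
      ∑ v ∈ Finset.range (Vn s), ∑ κ ∈ Finset.range (K + 1), c v κ * Wl κ r (Cf (mu s v)) := by
  rw [Iav_qper k K s c hs, Finset.mul_sum]
  refine Finset.sum_congr rfl fun v _ => ?_
  rw [Finset.mul_sum]
  refine Finset.sum_congr rfl fun κ _ => ?_
  rw [cos_fr_same k v s t hs, pow_add]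
  have h1 : (-1 : ℝ) ^ v * (-1) ^ v = 1 := by
    rcases neg_one_pow_eq_or ℝ v with h | h <;> rw [h] <;> norm_num
  linear_combination (c v κ * (-1) ^ t * (√3 / 2) * Wl κ r (Cf (mu s v))) * h1

theorem totalDegree_qper (k K j : ℕ) (c : ℕ → ℕ → ℝ) (hj : j < k) :
    (qper k K j c).totalDegree < 3 ^ k + 2 * K := by
  have hpos : 0 < 3 ^ k + 2 * K := by positivity
  unfold qper
  refine lt_of_le_of_lt (MvPolynomial.totalDegree_finsetSum _ _) ?_
  rw [Finset.sup_lt_iff (by simp)]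
  intro v hv
  refine lt_of_le_of_lt (MvPolynomial.totalDegree_finsetSum _ _) ?_
  rw [Finset.sup_lt_iff (by simp)]
  intro κ hκ
  refine lt_of_le_of_lt (MvPolynomial.totalDegree_mul _ _) ?_
  rw [MvPolynomial.totalDegree_C, zero_add]
  refine lt_of_le_of_lt (totalDegree_mono_le _ _) ?_
  have h1 := six_mul_lt j v (Finset.mem_range.1 hv)
  have h2 : 3 ^ k = 3 ^ (j + 1) * 3 ^ (k - j - 1) := by
    rw [← pow_add]
    congr 1
    omega
  have h3 : fr k j v < 3 ^ k := by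
    rw [h2, fr]
    exact Nat.mul_lt_mul_of_pos_right h1 (by positivity)
  have h4 := Finset.mem_range.1 hκ
  omega

end Pool.Agent.MP48dd78
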