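import Pool.Agent.Lib.MP_48dd78_an.Oper

/-!
Reduction of a linear relation between averages to a relation with `κ = 0`.
-/

set_option autoImplicit false

namespace Pool.Agent.MP48dd78

open Set Filter Topology MeasureTheory Polynomial

/-- The average as a linear functional. -/
noncomputable def Wl (κ : ℕ) (r : ℝ) : AA →ₗ[ℝ] ℝ where
  toFun φ := W κ φ.1 r
  map_add' φ ψ := W_add κ φ.1 ψ.1 (AAcont φ) (AAcont ψ) r
  map_smul' c φ := W_smul κ c φ.1 r

theorem Wl_apply (κ : ℕ) (r : ℝ) (φ : AA) : Wl κ r φ = W κ φ.1 r := rfl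

theorem Wl_hasDerivAt (κ : ℕ) (φ : AA) (r : ℝ) (hr : 0 < r) :
    HasDerivAt (fun r => Wl κ r φ) (r⁻¹ * Wl κ r (Mlin κ φ)) r :=
  W_hasDerivAt κ φ.1 (AAcontDiff φ) r hr

theorem Wl_parts (κ : ℕ) (φ : AA) (r : ℝ) :
    Wl (κ + 1) r (Mlin (κ + 1) φ) - (2 * κ + 1) * Wl (κ + 1) r φ =
      (2 * κ + 1) * Wl κ r (Sl φ) := by
  have h := W_parts κ φ.1 (AAcontDiff φ) r
  rw [Wl_apply κ, ← smul_eq_mul (2 * (κ : ℝ) + 1) (Wl (κ + 1) r φ), ← map_smul, ← map_sub]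
  exact h

theorem Wl_pow (K : ℕ) (r₀ : ℝ) (n : ℕ) : ∀ (φ : ℕ → AA),
    (∀ r ∈ Ioo 0 r₀, ∑ κ ∈ Finset.range K, Wl κ r (φ κ) = 0) →
    ∀ r ∈ Ioo 0 r₀, ∑ κ ∈ Finset.range K, Wl κ r ((Mlin κ ^ n) (φ κ)) = 0 := by
  induction n with
  | zero => intro φ h; simpa using h
  | succ n ih =>
    intro φ h
    have h1 : ∀ r ∈ Ioo 0 r₀, ∑ κ ∈ Finset.range K, Wl κ r (Mlin κ (φ κ)) = 0 := by
      intro r hr
      have hd : HasDerivAt (fun r => ∑ κ ∈ Finset.range K, Wl κ r (φ κ))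
          (∑ κ ∈ Finset.range K, r⁻¹ * Wl κ r (Mlin κ (φ κ))) r :=
        HasDerivAt.fun_sum fun κ _ => Wl_hasDerivAt κ (φ κ) r hr.1
      have hz : (fun r => ∑ κ ∈ Finset.range K, Wl κ r (φ κ)) =ᶠ[𝓝 r] fun _ => (0 : ℝ) := by
        filter_upwards [isOpen_Ioo.mem_nhds hr] with u hu using h u hu
      have h2 : (∑ κ ∈ Finset.range K, r⁻¹ * Wl κ r (Mlin κ (φ κ))) = 0 :=
        (hd.congr_of_eventuallyEq hz.symm).unique (hasDerivAt_const r (0 : ℝ))
      rw [← Finset.mul_sum] at h2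
      exact (mul_eq_zero.1 h2).resolve_left (inv_ne_zero hr.1.ne')
    have h3 := ih (fun κ => Mlin κ (φ κ)) h1
    intro r hr
    rw [← h3 r hr]
    refine Finset.sum_congr rfl fun κ _ => ?_
    rw [pow_succ, Module.End.mul_apply]

theorem Wl_aeval (K : ℕ) (r₀ : ℝ) (φ : ℕ → AA)
    (h : ∀ r ∈ Ioo 0 r₀, ∑ κ ∈ Finset.range K, Wl κ r (φ κ) = 0) (p : ℝ[X]) :
    ∀ r ∈ Ioo 0 r₀, ∑ κ ∈ Finset.range K, Wl κ r (aeval (Mlin κ) p (φ κ)) = 0 := by
  induction p using Polynomial.induction_on' with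
  | add p q hp hq =>
    intro r hr
    simp only [map_add, LinearMap.add_apply, Finset.sum_add_distrib, hp r hr, hq r hr, add_zero]
  | monomial n a =>
    intro r hr
    have h1 := Wl_pow K r₀ n φ h r hr
    rw [← C_mul_X_pow_eq_monomial]
    simp only [map_mul, aeval_C, map_pow, aeval_X, Module.End.mul_apply,
      Module.algebraMap_end_apply, map_smul, smul_eq_mul]
    rw [← Finset.mul_sum, h1, mul_zero]

/-- The product `∏_{j < κ} (X - (2j+1))`. -/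
noncomputable def lowP (κ : ℕ) : ℝ[X] := ∏ j ∈ Finset.range κ, (X - C (2 * (j : ℝ) + 1))

/-- The product `∏_{κ ≤ j < K} (X - (2j+1))`. -/
noncomputable def highP (κ K : ℕ) : ℝ[X] := ∏ j ∈ Finset.Ico κ K, (X - C (2 * (j : ℝ) + 1))

/-- The double factorial. -/
noncomputable def df (κ : ℕ) : ℝ := ∏ j ∈ Finset.range κ, (2 * (j : ℝ) + 1)

theorem df_pos (κ : ℕ) : 0 < df κ := Finset.prod_pos fun j _ => by positivity

theorem high_mul_low (κ K : ℕ) (h : κ ≤ K) : highP κ K * lowP κ = lowP K := by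
  unfold highP lowP
  rw [mul_comm, Finset.prod_range_mul_prod_Ico _ h]

theorem highP_eval (κ K : ℕ) : (highP κ K).eval (2 * κ : ℝ) ≠ 0 := by
  unfold highP
  rw [eval_prod, Finset.prod_ne_zero_iff]
  intro j hj
  simp only [eval_sub, eval_X, eval_C]
  rw [Finset.mem_Ico] at hj
  have : (κ : ℝ) ≤ j := by exact_mod_cast hj.1
  intro h
  linarith

theorem Wl_low (κ : ℕ) : ∀ (q : ℝ[X]) (φ : AA) (r : ℝ),
    Wl κ r (aeval (Mlin κ) (q * lowP κ) φ) =
      df κ * Wl 0 r (aeval (Mlin 0) q ((Sl ^ κ) φ)) := by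
  induction κ with
  | zero => intro q φ r; simp [lowP, df]
  | succ κ ih =>
    intro q φ r
    have e1 : q * lowP (κ + 1) = (X - C (2 * (κ : ℝ) + 1)) * (q * lowP κ) := by
      unfold lowP
      rw [Finset.prod_range_succ]
      ring
    have e2 : df (κ + 1) = df κ * (2 * (κ : ℝ) + 1) := by
      unfold df
      rw [Finset.prod_range_succ]
    rw [e1, map_mul, Module.End.mul_apply, map_sub, aeval_X, aeval_C, LinearMap.sub_apply,
      Module.algebraMap_end_apply, map_sub, map_smul, smul_eq_mul, Wl_parts, Sl_aeval, ih, e2,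
      pow_succ, Module.End.mul_apply]
    ring

/-- The reduced function. -/
noncomputable def red (K : ℕ) (φ : ℕ → AA) : AA :=
  ∑ κ ∈ Finset.range (K + 1), df κ • aeval (Mlin 0) (highP κ K) ((Sl ^ κ) (φ κ))

theorem Wl_red (K : ℕ) (r₀ : ℝ) (φ : ℕ → AA)
    (h : ∀ r ∈ Ioo 0 r₀, ∑ κ ∈ Finset.range (K + 1), Wl κ r (φ κ) = 0) :
    ∀ r ∈ Ioo 0 r₀, Wl 0 r (red K φ) = 0 := by
  intro r hr
  have h1 := Wl_aeval (K + 1) r₀ φ h (lowP K) r hr
  rw [← h1, red, map_sum]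
  refine Finset.sum_congr rfl fun κ hκ => ?_
  rw [← high_mul_low κ K (by rw [Finset.mem_range] at hκ; omega), Wl_low, map_smul, smul_eq_mul]

end Pool.Agent.MP48dd78
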