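import Pool.Agent.Lib.MP_48dd78_an.Indep

/-!
Interpolation of signs by linear combinations of independent functions.
-/

set_option autoImplicit false

namespace Pool.Agent.MP48dd78

open Set Filter Topology MeasureTheory

/-- Independent functions can be interpolated at suitable points. -/
theorem exists_interp {I : Type} [Fintype I] (f : I → ℝ → ℝ) (S : Set ℝ)
    (hf : ∀ c : I → ℝ, (∀ t ∈ S, ∑ i, c i * f i t = 0) → c = 0)
    (v : Fin (Fintype.card I) → ℝ) :
    ∃ t : Fin (Fintype.card I) → ℝ, StrictMono t ∧ (∀ k, t k ∈ S) ∧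
      ∃ c : I → ℝ, ∀ k, ∑ i, c i * f i (t k) = v k := by
  classical
  set e : ℝ → (I → ℝ) := fun t i => f i t with he
  have hspan : Submodule.span ℝ (e '' S) = ⊤ := by
    by_contra hne
    obtain ⟨g, hg0, hg⟩ := Submodule.exists_le_ker_of_lt_top _ (lt_top_iff_ne_top.2 hne)
    apply hg0
    have h1 : (fun i => g (Pi.single i 1)) = 0 := by
      apply hf
      intro t ht
      have h2 : g (e t) = 0 := hg (Submodule.subset_span (mem_image_of_mem e ht))
      rw [← h2, LinearMap.pi_apply_eq_sum_univ g (e t)]
      refine Finset.sum_congr rfl fun i _ => ?_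
      rw [smul_eq_mul, mul_comm]
      congr 2
      funext j
      simp [Pi.single_apply, eq_comm]
    apply LinearMap.pi_ext'
    intro i
    ext
    have := congrFun h1 i
    simpa using this
  obtain ⟨b, hbs, hbspan, hbli⟩ := exists_linearIndependent ℝ (e '' S)
  have hbfin : b.Finite := hbli.setFinite
  let _ : Fintype b := hbfin.fintype
  have hcard : Fintype.card b = Fintype.card I := by
    have h1 := finrank_span_eq_card hbli
    rw [Subtype.range_coe, hbspan, hspan, finrank_top, Module.finrank_fintype_fun_eq_card] at h1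
    exact h1.symm
  choose! τ hτS hτe using fun x (hx : x ∈ b) => hbs hx
  have hinj : Set.InjOn τ b := by
    intro x hx y hy h
    rw [← hτe x hx, ← hτe y hy, h]
  set P : Finset ℝ := hbfin.toFinset.image τ with hP
  have hPcard : P.card = Fintype.card I := by
    rw [hP, Finset.card_image_of_injOn (by simpa using hinj), ← hcard, ← Set.toFinset_card]
    congr 1
  set t : Fin (Fintype.card I) → ℝ := fun k => P.orderEmbOfFin hPcard k with ht
  have htP : ∀ k, t k ∈ P := fun k => Finset.orderEmbOfFin_mem P hPcard k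
  have hrange : ∀ x ∈ b, ∃ k, t k = τ x := by
    intro x hx
    have h1 : τ x ∈ P := Finset.mem_image_of_mem τ (hbfin.mem_toFinset.2 hx)
    have h2 : τ x ∈ Set.range (P.orderEmbOfFin hPcard) := by
      rw [Finset.range_orderEmbOfFin]; exact h1
    obtain ⟨k, hk⟩ := h2
    exact ⟨k, hk⟩
  refine ⟨t, (P.orderEmbOfFin hPcard).strictMono, ?_, ?_⟩
  · intro k
    obtain ⟨x, hx, hxk⟩ := Finset.mem_image.1 (htP k)
    rw [← hxk]
    exact hτS x (hbfin.mem_toFinset.1 hx)
  · let Φ : (I → ℝ) →ₗ[ℝ] (Fin (Fintype.card I) → ℝ) :=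
      { toFun := fun c k => ∑ i, c i * f i (t k)
        map_add' := by
          intro c d
          funext k
          simp only [Pi.add_apply, add_mul, Finset.sum_add_distrib]
        map_smul' := by
          intro a c
          funext k
          simp only [Pi.smul_apply, smul_eq_mul, RingHom.id_apply, Finset.mul_sum, mul_assoc] }
    have hΦinj : Function.Injective Φ := by
      rw [← LinearMap.ker_eq_bot, LinearMap.ker_eq_bot']
      intro c hc
      -- the functional `c` vanishes on the span of `b`
      let g : (I → ℝ) →ₗ[ℝ] ℝ :=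
        { toFun := fun w => ∑ i, c i * w i
          map_add' := by intro u w; simp only [Pi.add_apply, mul_add, Finset.sum_add_distrib]
          map_smul' := by
            intro a w
            simp only [Pi.smul_apply, smul_eq_mul, RingHom.id_apply, Finset.mul_sum]
            refine Finset.sum_congr rfl fun i _ => ?_
            ring }
      have hg : Submodule.span ℝ b ≤ LinearMap.ker g := by
        rw [Submodule.span_le]
        intro x hx
        obtain ⟨k, hk⟩ := hrange x hx
        rw [SetLike.mem_coe, LinearMap.mem_ker]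
        have h3 := congrFun hc k
        rw [← hτe x hx, ← hk]
        exact h3
      rw [hbspan, hspan] at hg
      funext i
      have h4 : Pi.single i (1 : ℝ) ∈ LinearMap.ker g := hg Submodule.mem_top
      rw [LinearMap.mem_ker] at h4
      have h5 : ∑ j, c j * (Pi.single i (1 : ℝ) : I → ℝ) j = 0 := h4
      simpa [Pi.single_apply] using h5
    have hΦsurj : Function.Surjective Φ := by
      apply (LinearMap.injective_iff_surjective_of_finrank_eq_finrank _).1 hΦinj
      simp
    obtain ⟨c, hc⟩ := hΦsurj v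
    exact ⟨c, fun k => congrFun hc k⟩

theorem W_zero_zero (r : ℝ) : Wl 0 r (Cf 0) = 2 * Real.pi := by
  rw [Wl_apply, W]
  simp [Cf_apply]

/-- The derivatives of the averages can be given alternating signs. -/
theorem exists_alternating {ι : Type} [Fintype ι] [DecidableEq ι] (μ : ι → ℝ)
    (hμ0 : ∀ i, Real.cos (μ i * Real.pi) ≠ 1)
    (hμ : ∀ i j, i ≠ j → Real.cos (μ i * Real.pi) ≠ Real.cos (μ j * Real.pi)) (K : ℕ) :
    ∃ t : Fin (Fintype.card ι * (K + 1)) → ℝ, StrictMono t ∧ (∀ k, t k ∈ Ioo (0 : ℝ) 1) ∧
      ∃ c : ι → ℕ → ℝ, ∀ k : Fin (Fintype.card ι * (K + 1)),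
        ∑ i, ∑ κ ∈ Finset.range (K + 1), c i κ * ((t k)⁻¹ * Wl κ (t k) (Mlin κ (Cf (μ i)))) =
          (-1) ^ (k : ℕ) := by
  classical
  have hcard : Fintype.card (ι × Fin (K + 1)) = Fintype.card ι * (K + 1) := by
    rw [Fintype.card_prod, Fintype.card_fin]
  have hf : ∀ c : ι × Fin (K + 1) → ℝ, (∀ t ∈ Ioo (0 : ℝ) 1,
      ∑ p, c p * (fun (p : ι × Fin (K + 1)) (r : ℝ) => r⁻¹ * Wl p.2 r (Mlin p.2 (Cf (μ p.1)))) p t
        = 0) → c = 0 := by
    intro c hc
    -- the function `J` is constant on `(0, 1)`
    set J : ℝ → ℝ := fun r => ∑ p : ι × Fin (K + 1), c p * Wl p.2 r (Cf (μ p.1)) with hJ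
    have hd : ∀ r ∈ Ioo (0 : ℝ) 1, HasDerivAt J 0 r := by
      intro r hr
      have h1 : HasDerivAt J
          (∑ p : ι × Fin (K + 1), c p * (r⁻¹ * Wl p.2 r (Mlin p.2 (Cf (μ p.1))))) r :=
        HasDerivAt.fun_sum fun p _ => (Wl_hasDerivAt p.2 (Cf (μ p.1)) r hr.1).const_mul (c p)
      rwa [hc r hr] at h1
    have hconst : ∀ r ∈ Ioo (0 : ℝ) 1, J r = J (1 / 2) := by
      intro r hr
      have h2 : ∀ x ∈ Ioo (0 : ℝ) 1, HasDerivWithinAt J 0 (Ioo 0 1) x := fun x hx =>
        (hd x hx).hasDerivWithinAt
      exact (convex_Ioo (0 : ℝ) 1).is_const_of_fderivWithin_eq_zero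
        (fun x hx => (h2 x hx).differentiableWithinAt) (fun x hx => by
          have h3 := (h2 x hx).hasFDerivWithinAt.fderivWithin
            (isOpen_Ioo.uniqueDiffWithinAt hx)
          rw [h3]
          ext
          simp) hr ⟨by norm_num, by norm_num⟩
    have hpi : (2 * Real.pi : ℝ) ≠ 0 := by positivity
    -- apply independence with the additional frequency 0
    have key := indep (ι := Option ι) (fun o => o.elim 0 μ) ?_ K
      (fun o κ => o.elim (if κ = 0 then - J (1 / 2) / (2 * Real.pi) else 0)
        (fun i => if h : κ < K + 1 then c (i, ⟨κ, h⟩) else 0)) 1 one_pos ?_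
    · funext p
      obtain ⟨i, κ⟩ := p
      have := key (some i) κ (by have := κ.2; omega)
      simp only [Option.elim_some, dif_pos κ.2] at this
      exact this
    · intro i j hij
      rcases i with _ | i <;> rcases j with _ | j
      · exact absurd rfl hij
      · simp only [Option.elim_none, Option.elim_some, zero_mul, Real.cos_zero]
        exact (hμ0 j).symm
      · simp only [Option.elim_none, Option.elim_some, zero_mul, Real.cos_zero]
        exact hμ0 i
      · simp only [Option.elim_some]
        exact hμ i j (fun h => hij (by rw [h]))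
    · intro r hr
      rw [Fintype.sum_option]
      simp only [Option.elim_none, Option.elim_some]
      have e1 : ∑ κ ∈ Finset.range (K + 1),
          (if κ = 0 then - J (1 / 2) / (2 * Real.pi) else 0) * Wl κ r (Cf 0) = - J (1 / 2) := by
        rw [Finset.sum_eq_single 0]
        · rw [if_pos rfl, W_zero_zero]
          field_simp
        · intro κ _ hκ
          rw [if_neg hκ, zero_mul]
        · intro h
          exact absurd (Finset.mem_range.2 (Nat.succ_pos K)) h
      have e2 : ∑ i, ∑ κ ∈ Finset.range (K + 1),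
          (if h : κ < K + 1 then c (i, ⟨κ, h⟩) else 0) * Wl κ r (Cf (μ i)) = J r := by
        rw [hJ]
        simp only
        rw [Fintype.sum_prod_type]
        refine Finset.sum_congr rfl fun i _ => ?_
        rw [Finset.sum_range]
        refine Finset.sum_congr rfl fun κ _ => ?_
        simp only [dif_pos κ.2]
      rw [e1, e2, hconst r hr]
      ring
  obtain ⟨t, ht1, ht2, c, hc⟩ := exists_interp (I := ι × Fin (K + 1))
    (fun p r => r⁻¹ * Wl p.2 r (Mlin p.2 (Cf (μ p.1)))) (Ioo 0 1) hf
    (fun k => (-1) ^ (k : ℕ))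
  have hconv : ∀ r : ℝ, ∑ i, ∑ κ ∈ Finset.range (K + 1),
      (fun i κ => if h : κ < K + 1 then c (i, ⟨κ, h⟩) else 0) i κ *
        (r⁻¹ * Wl κ r (Mlin κ (Cf (μ i)))) =
      ∑ p : ι × Fin (K + 1), c p * (r⁻¹ * Wl p.2 r (Mlin p.2 (Cf (μ p.1)))) := by
    intro r
    rw [Fintype.sum_prod_type]
    refine Finset.sum_congr rfl fun i _ => ?_
    rw [Finset.sum_range]
    refine Finset.sum_congr rfl fun κ _ => ?_
    simp only [dif_pos κ.2]
  refine ⟨fun k => t (Fin.cast hcard.symm k), ?_, fun k => ht2 _,
    fun i κ => if h : κ < K + 1 then c (i, ⟨κ, h⟩) else 0, ?_⟩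
  · intro a b hab
    exact ht1 (by simpa using hab)
  · intro k
    rw [hconv, hc]
    simp

end Pool.Agent.MP48dd78
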